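import Pool.Agent.LibTwHL.Defs2

/-! Full range count of integral points on quadratic twists: definitions.
No row may use straight double quotes, the tactic `convert` or macros. -/

set_option autoImplicit false

namespace TwT

open TwHL

/-- a solution `(u, D, w)` with `X = H u^2` -/
structure Sol (a b m H B : ℤ) (z : ℤ × ℤ × ℤ) : Prop where
  u_pos : 0 < z.1
  w_pos : 0 < z.2.2
  D_ne : z.2.1 ≠ 0
  D_le : |z.2.1| ≤ B
  cop : IsCoprime (H * z.1 ^ 2) z.2.1
  eq : qf a b (H * z.1 ^ 2) z.2.1 = m * z.2.2 ^ 2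
  big : 4 * (|a| + |b| + 1) ^ 2 * B ≤ H * z.1 ^ 2

/-- two solutions are in the same class: `tau` is a square -/
def Same (a b m H : ℤ) (z z' : ℤ × ℤ × ℤ) : Prop :=
  ∃ c : ℤ, tau a b m (H * z.1 ^ 2) z.2.1 z.2.2 (H * z'.1 ^ 2) z'.2.1 z'.2.2 = c ^ 2

end TwT
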