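import Pool.Agent.LibTwT.Defs
import Pool.Agent.LibTwHL.G2
import Pool.Agent.LibTwHL.G2b
import Pool.Agent.LibTwHL.G3
import Pool.Agent.LibTwHL.G5b

set_option autoImplicit false

namespace TwT

open TwHL

/-- Row W1. Reduction to one class. If `F` is empty: trivial. Take `z₀ ∈ F`. For `z ∈ F`,
`t = tau(z₀, z) > 0` (`tau_pos`), `parity` and `sqf_class` (with `M = (2 * Δ * m).natAbs`) give
`t = r s^2`, `r ∣ M` (choose `r z`). Two elements with the same `r` are `Same` (`tau_square`; also for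
`z = z'`, where `tau(z, z) = (2X + aD)^2`). So each fibre of `r` is a pairwise `Same` subset, of card
at most `n`; `Finset.card_le_mul_card_image` (image inside `M.divisors`). -/
theorem class_split {a b m H B : ℤ} (hb : b ≠ 0) (hΔ : a ^ 2 - 4 * b ≠ 0) (hm : 0 < m)
    (hH : 0 < H) (hB : 1 ≤ B) (F : Finset (ℤ × ℤ × ℤ)) (hF : ∀ z ∈ F, Sol a b m H B z) (n : ℕ)
    (hn : ∀ F' ⊆ F, (∀ z ∈ F', ∀ z' ∈ F', Same a b m H z z') → F'.card ≤ n) :
    F.card ≤ n * (Nat.divisors (2 * (a ^ 2 - 4 * b) * m).natAbs).card := by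
  classical
  rcases F.eq_empty_or_nonempty with rfl | ⟨z₀, hz₀⟩
  · simp
  have hM0 : 2 * (a ^ 2 - 4 * b) * m ≠ 0 := mul_ne_zero (mul_ne_zero two_ne_zero hΔ) hm.ne'
  have hM : 0 < (2 * (a ^ 2 - 4 * b) * m).natAbs := Int.natAbs_pos.2 hM0
  have S₀ := hF z₀ hz₀
  have key : ∀ z ∈ F, ∃ r : ℕ, 0 < r ∧ r ∣ (2 * (a ^ 2 - 4 * b) * m).natAbs ∧ ∃ s : ℕ, 0 < s ∧
      tau a b m (H * z₀.1 ^ 2) z₀.2.1 z₀.2.2 (H * z.1 ^ 2) z.2.1 z.2.2 = (r : ℤ) * (s : ℤ) ^ 2 := by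
    intro z hz
    have S := hF z hz
    have ht := tau_pos a b m B (H * z₀.1 ^ 2) z₀.2.1 z₀.2.2 (H * z.1 ^ 2) z.2.1 z.2.2 hm S₀.w_pos
      S.w_pos hB S₀.D_le S.D_le S₀.big S.big
    obtain ⟨r, s, hr, hs, h1, h2⟩ := sqf_class
      (tau a b m (H * z₀.1 ^ 2) z₀.2.1 z₀.2.2 (H * z.1 ^ 2) z.2.1 z.2.2).natAbs
      (2 * (a ^ 2 - 4 * b) * m).natAbs (Int.natAbs_pos.2 ht.ne') hM (by
        intro p hp hpM
        exact parity a b m _ _ _ _ _ _ p hp (fun h => hpM (Int.natCast_dvd.1 h)) S₀.cop S.cop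
          S₀.eq S.eq ht.ne')
    refine ⟨r, hr, h2, s, hs, ?_⟩
    rw [← Int.natAbs_of_nonneg ht.le, h1]
    push_cast
    ring
  choose! r hr0 hrM s hs0 hrs using key
  have h1 := Finset.card_le_mul_card_image (f := r) F n (by
    intro c _
    refine hn _ (Finset.filter_subset _ _) ?_
    intro z hz z' hz'
    obtain ⟨hz1, hz2⟩ := Finset.mem_filter.1 hz
    obtain ⟨hz1', hz2'⟩ := Finset.mem_filter.1 hz'
    have e1 := hrs z hz1
    have e2 := hrs z' hz1'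
    rw [hz2] at e1
    rw [hz2'] at e2
    have hc : 0 < c := hz2 ▸ hr0 z hz1
    exact tau_square a b m _ _ _ _ _ _ _ _ _ (c : ℤ) (s z : ℤ) (s z' : ℤ) S₀.eq (hF z hz1).eq
      (hF z' hz1').eq (by exact_mod_cast hc.ne') (by exact_mod_cast (hs0 z hz1).ne')
      (by exact_mod_cast (hs0 z' hz1').ne') e1 e2)
  refine h1.trans (Nat.mul_le_mul_left n (Finset.card_le_card ?_))
  intro c hc
  obtain ⟨z, hz, rfl⟩ := Finset.mem_image.1 hc
  exact Nat.mem_divisors.2 ⟨hrM z hz, hM.ne'⟩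

end TwT
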