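import Pool.Agent.LibTwT.W0
import Pool.Agent.LibTwPade.R14

set_option autoImplicit false

namespace TwT

open TwHL

private theorem w2_const {t a b B : ℤ} (ht : 20 ≤ t) (ha : |a| ≤ t) (hbT : |b| ≤ t)
    (hBT : B ≤ t) (hB : 1 ≤ B) :
    400 * b ^ 2 * (a ^ 2 - 4 * b) ^ 2 * B ^ 4 ≤ t ^ 14 := by
  have ht0 : 0 ≤ t := by linarith
  have ha2 : a ^ 2 ≤ t ^ 2 := by
    rw [← sq_abs a]
    exact pow_le_pow_left₀ (abs_nonneg a) ha 2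
  have hb2 : b ^ 2 ≤ t ^ 2 := by
    rw [← sq_abs b]
    exact pow_le_pow_left₀ (abs_nonneg b) hbT 2
  have hb1 := abs_le.1 hbT
  have hΔ : |a ^ 2 - 4 * b| ≤ 5 * t ^ 2 := by
    rw [abs_le]
    constructor
    · nlinarith [sq_nonneg a]
    · nlinarith [sq_nonneg a]
  have hΔ2 : (a ^ 2 - 4 * b) ^ 2 ≤ (5 * t ^ 2) ^ 2 := by
    rw [← sq_abs (a ^ 2 - 4 * b)]
    exact pow_le_pow_left₀ (abs_nonneg _) hΔ 2
  have hB4 : B ^ 4 ≤ t ^ 4 := pow_le_pow_left₀ (by linarith) hBT 4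
  have h1 : 400 * b ^ 2 * (a ^ 2 - 4 * b) ^ 2 * B ^ 4 ≤ 400 * t ^ 2 * (5 * t ^ 2) ^ 2 * t ^ 4 := by
    have e1 : 400 * b ^ 2 ≤ 400 * t ^ 2 := by linarith
    have e2 : 400 * b ^ 2 * (a ^ 2 - 4 * b) ^ 2 ≤ 400 * t ^ 2 * (5 * t ^ 2) ^ 2 :=
      mul_le_mul e1 hΔ2 (sq_nonneg _) (by positivity)
    exact mul_le_mul e2 hB4 (by positivity) (by positivity)
  have h2 : 400 * t ^ 2 * (5 * t ^ 2) ^ 2 * t ^ 4 = 10000 * t ^ 10 := by ring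
  have h3 : (10000 : ℤ) ≤ t ^ 4 := by
    have : (20 : ℤ) ^ 4 ≤ t ^ 4 := pow_le_pow_left₀ (by norm_num) ht 4
    linarith
  calc 400 * b ^ 2 * (a ^ 2 - 4 * b) ^ 2 * B ^ 4 ≤ 10000 * t ^ 10 := by rw [← h2]; exact h1
    _ ≤ t ^ 4 * t ^ 10 := mul_le_mul_of_nonneg_right h3 (by positivity)
    _ = t ^ 14 := by ring

private theorem w2_final {t u0 u3 X0 X1 X2 X3 C H : ℤ} (ht : 20 ≤ t)
    (hC : C ≤ t ^ 14) (hu0 : t ^ 31 ≤ u0) (hH : 0 < H) (hHt : H ≤ t)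
    (hX0 : X0 = H * u0 ^ 2) (hX3 : X3 = H * u3 ^ 2) (hX1p : 0 ≤ X1) (hX2p : 0 ≤ X2)
    (h1 : X0 ^ 3 ≤ C * X1) (h2 : X1 ^ 3 ≤ C * X2) (h3 : X2 ^ 3 ≤ C * X3) (hu3 : 0 ≤ u3)
    (hlt : u3 < u0 ^ 24) : False := by
  have ht0 : 0 < t := by linarith
  have hu0p : 0 < u0 := lt_of_lt_of_le (by positivity) hu0
  have hX0p : 0 ≤ X0 := by rw [hX0]; positivity
  have hX3p : 0 ≤ X3 := by rw [hX3]; positivity
  have g1 : X0 ^ 3 ≤ t ^ 14 * X1 := h1.trans (mul_le_mul_of_nonneg_right hC hX1p)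
  have g2 : X1 ^ 3 ≤ t ^ 14 * X2 := h2.trans (mul_le_mul_of_nonneg_right hC hX2p)
  have g3 : X2 ^ 3 ≤ t ^ 14 * X3 := h3.trans (mul_le_mul_of_nonneg_right hC hX3p)
  have k1 : X0 ^ 27 ≤ t ^ 126 * X1 ^ 9 := by
    calc X0 ^ 27 = (X0 ^ 3) ^ 9 := by ring
      _ ≤ (t ^ 14 * X1) ^ 9 := pow_le_pow_left₀ (by positivity) g1 9
      _ = t ^ 126 * X1 ^ 9 := by ring
  have k2 : X1 ^ 9 ≤ t ^ 42 * X2 ^ 3 := by
    calc X1 ^ 9 = (X1 ^ 3) ^ 3 := by ring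
      _ ≤ (t ^ 14 * X2) ^ 3 := pow_le_pow_left₀ (by positivity) g2 3
      _ = t ^ 42 * X2 ^ 3 := by ring
  have k3 : X0 ^ 27 ≤ t ^ 182 * X3 := by
    calc X0 ^ 27 ≤ t ^ 126 * X1 ^ 9 := k1
      _ ≤ t ^ 126 * (t ^ 42 * X2 ^ 3) := mul_le_mul_of_nonneg_left k2 (by positivity)
      _ ≤ t ^ 126 * (t ^ 42 * (t ^ 14 * X3)) :=
          mul_le_mul_of_nonneg_left (mul_le_mul_of_nonneg_left g3 (by positivity)) (by positivity)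
      _ = t ^ 182 * X3 := by ring
  have k4 : u0 ^ 54 ≤ X0 ^ 27 := by
    calc u0 ^ 54 = (u0 ^ 2) ^ 27 := by ring
      _ ≤ X0 ^ 27 := by
          refine pow_le_pow_left₀ (by positivity) ?_ 27
          rw [hX0]
          nlinarith [sq_nonneg u0]
  have k5 : X3 < t * u0 ^ 48 := by
    have e1 : u3 ^ 2 < (u0 ^ 24) ^ 2 := pow_lt_pow_left₀ hlt hu3 (by norm_num)
    have e2 : (u0 ^ 24) ^ 2 = u0 ^ 48 := by ring
    rw [e2] at e1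
    rw [hX3]
    calc H * u3 ^ 2 < H * u0 ^ 48 := mul_lt_mul_of_pos_left e1 hH
      _ ≤ t * u0 ^ 48 := mul_le_mul_of_nonneg_right hHt (by positivity)
  have k6 : u0 ^ 54 < t ^ 183 * u0 ^ 48 := by
    calc u0 ^ 54 ≤ t ^ 182 * X3 := k4.trans k3
      _ < t ^ 182 * (t * u0 ^ 48) := mul_lt_mul_of_pos_left k5 (by positivity)
      _ = t ^ 183 * u0 ^ 48 := by ring
  have k7 : u0 ^ 6 < t ^ 183 := by
    have e1 : u0 ^ 54 = u0 ^ 6 * u0 ^ 48 := by ring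
    rw [e1] at k6
    exact lt_of_mul_lt_mul_right k6 (by positivity)
  have k8 : t ^ 186 ≤ u0 ^ 6 := by
    calc t ^ 186 = (t ^ 31) ^ 6 := by ring
      _ ≤ u0 ^ 6 := pow_le_pow_left₀ (by positivity) hu0 6
  have k9 : t ^ 183 ≤ t ^ 186 := pow_le_pow_right₀ (by linarith) (by norm_num)
  linarith

/-- Row W2. Four large solutions of one class: impossible. Suppose `card ≥ 4`; order four elements by
`u` (distinct elements have distinct `u` by `gap_sol`, as `X^3 > 400 b^2 Δ^2 B^4 X`):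
`u₀ < u₁ < u₂ < u₃`. `Δ ≤ 5T^2`, `T ≥ 20`: `400 b^2 Δ^2 B^4 ≤ 10^4 T^10 ≤ T^14`. So `X_{i+1} ≥ X_i^3 / T^14`
and `X_i ≥ u_i^2 ≥ T^2272`; hence `X_{i+1} ≥ X_i^2` and more precisely
`X_3 ≥ X_0^27 / T^(14 * 13)`; `X_0 ≥ u_0^2`, `X_3 = H u_3^2 ≤ T u_3^2`:
`u_3^2 ≥ u_0^54 / T^183 ≥ u_0^53 ≥ u_0^48`, so `u_3 ≥ u_0^24`, contradicting `TwPade.lemmaP` for `z_0`,
`z_3` (unfold `qf`, `tau`). -/
theorem card_le_three (T : ℕ) (hT : 20 ≤ T) {a b m H B : ℤ} (ha : |a| ≤ T) (hbT : |b| ≤ T)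
    (hHT : H ≤ T) (hBT : B ≤ T) (hb : b ≠ 0) (hΔ : a ^ 2 - 4 * b ≠ 0) (hm : 0 < m)
    (hH : 0 < H) (hB : 1 ≤ B) (F : Finset (ℤ × ℤ × ℤ)) (hF : ∀ z ∈ F, Sol a b m H B z)
    (hu : ∀ z ∈ F, (T : ℤ) ^ 1136 ≤ z.1)
    (hs : ∀ z ∈ F, ∀ z' ∈ F, Same a b m H z z') : F.card ≤ 3 := by
  classical
  have ht : (20 : ℤ) ≤ T := by exact_mod_cast hT
  have ht0 : (0 : ℤ) < T := by linarith
  obtain ⟨C, hCdef⟩ : ∃ C : ℤ, C = 400 * b ^ 2 * (a ^ 2 - 4 * b) ^ 2 * B ^ 4 := ⟨_, rfl⟩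
  have hC : C ≤ (T : ℤ) ^ 14 := by
    rw [hCdef]
    exact w2_const ht ha hbT hBT hB
  have hu31 : ∀ z ∈ F, (T : ℤ) ^ 31 ≤ z.1 := fun z hz =>
    (pow_le_pow_right₀ (by linarith) (by norm_num)).trans (hu z hz)
  have hgap : ∀ z ∈ F, ∀ z' ∈ F, z ≠ z' → z.1 ≤ z'.1 →
      (H * z.1 ^ 2) ^ 3 ≤ C * (H * z'.1 ^ 2) := by
    intro z hz z' hz' hne hle
    rw [hCdef]
    exact gap_sol hb hΔ hm hH hB (hF z hz) (hF z' hz') (hs z hz z' hz') hne hle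
  have hinj : Set.InjOn Prod.fst (F : Set (ℤ × ℤ × ℤ)) := by
    intro z hz z' hz' heq
    by_contra hne
    have h1 := hgap z hz z' hz' hne (le_of_eq heq)
    rw [← heq] at h1
    have hup := (hF z hz).u_pos
    have hu1 := hu31 z hz
    have hXp : 0 < H * z.1 ^ 2 := by positivity
    have h2 : (H * z.1 ^ 2) ^ 2 ≤ C := by
      have e1 : (H * z.1 ^ 2) ^ 3 = (H * z.1 ^ 2) ^ 2 * (H * z.1 ^ 2) := by ring
      rw [e1] at h1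
      exact le_of_mul_le_mul_right h1 hXp
    have h3 : z.1 ≤ H * z.1 ^ 2 := by nlinarith
    have h4 : ((T : ℤ) ^ 31) ^ 2 ≤ (H * z.1 ^ 2) ^ 2 :=
      pow_le_pow_left₀ (by positivity) (hu1.trans h3) 2
    have h5 : (T : ℤ) ^ 14 < ((T : ℤ) ^ 31) ^ 2 := by
      rw [← pow_mul]
      exact pow_lt_pow_right₀ (by linarith) (by norm_num)
    linarith
  by_contra hcon
  push Not at hcon
  obtain ⟨U, hU⟩ : ∃ U : Finset ℤ, U = F.image Prod.fst := ⟨_, rfl⟩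
  have hUcard : 4 ≤ U.card := by
    rw [hU, Finset.card_image_of_injOn hinj]
    omega
  have hUmem : ∀ u ∈ U, ∃ z ∈ F, z.1 = u := by
    intro u h1
    rw [hU, Finset.mem_image] at h1
    exact h1
  obtain ⟨f, hf⟩ : ∃ f : Fin U.card ↪o ℤ, ∀ i, f i ∈ U :=
    ⟨U.orderEmbOfFin rfl, fun i => U.orderEmbOfFin_mem rfl i⟩
  have hlift : ∀ i, ∃ z ∈ F, z.1 = f i := by
    intro i
    exact hUmem _ (hf i)
  choose z hzF hzf using hlift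
  have hlt : ∀ i j : Fin U.card, i < j → (z i).1 < (z j).1 := by
    intro i j hij
    rw [hzf, hzf]
    exact f.strictMono hij
  have hgap' : ∀ i j : Fin U.card, i < j →
      (H * (z i).1 ^ 2) ^ 3 ≤ C * (H * (z j).1 ^ 2) := by
    intro i j hij
    have h1 := hlt i j hij
    exact hgap _ (hzF i) _ (hzF j) (fun h => by rw [h] at h1; exact lt_irrefl _ h1) h1.le
  obtain ⟨i0, hi0⟩ : ∃ i : Fin U.card, i.1 = 0 := ⟨⟨0, by omega⟩, rfl⟩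
  obtain ⟨i1, hi1⟩ : ∃ i : Fin U.card, i.1 = 1 := ⟨⟨1, by omega⟩, rfl⟩
  obtain ⟨i2, hi2⟩ : ∃ i : Fin U.card, i.1 = 2 := ⟨⟨2, by omega⟩, rfl⟩
  obtain ⟨i3, hi3⟩ : ∃ i : Fin U.card, i.1 = 3 := ⟨⟨3, by omega⟩, rfl⟩
  have h01 := hgap' i0 i1 (by rw [Fin.lt_def]; omega)
  have h12 := hgap' i1 i2 (by rw [Fin.lt_def]; omega)
  have h23 := hgap' i2 i3 (by rw [Fin.lt_def]; omega)
  have S0 := hF _ (hzF i0)
  have S1 := hF _ (hzF i1)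
  have S2 := hF _ (hzF i2)
  have S3 := hF _ (hzF i3)
  obtain ⟨c, hc⟩ := hs _ (hzF i0) _ (hzF i3)
  have hP : (z i3).1 < (z i0).1 ^ 24 := by
    refine TwPade.lemmaP T (by omega) a b H m (z i0).2.1 (z i3).2.1 (z i0).2.2 (z i3).2.2
      (z i0).1 (z i3).1 c ha hbT hb hΔ hH hHT hm S0.D_ne (S0.D_le.trans hBT)
      (S3.D_le.trans hBT) S0.w_pos S3.w_pos (hu _ (hzF i0)) S3.u_pos ?_ ?_ ?_
    · exact S0.eq
    · exact S3.eq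
    · exact hc
  exact w2_final ht hC (hu31 _ (hzF i0)) hH hHT rfl rfl
    (by positivity) (by positivity) h01 h12 h23 S3.u_pos.le hP

end TwT
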