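import Pool.Agent.LibTwHL.G5
import Pool.Agent.LibTwT.W1
import Pool.Agent.LibTwT.W2

set_option autoImplicit false

namespace TwT

open TwHL

private theorem pf1_divisors (Δ b : ℤ) (hΔ : Δ ≠ 0) (hb : b ≠ 0) (g k : ℕ) (hk : (k : ℤ) ∣ b) :
    (Nat.divisors (2 * Δ * ((g * k : ℕ) : ℤ)).natAbs).card ≤
      (Nat.divisors (2 * Δ.natAbs * b.natAbs)).card * g.divisors.card := by
  have h1 : (2 * Δ * ((g * k : ℕ) : ℤ)).natAbs = (2 * Δ.natAbs * k) * g := by
    rw [Int.natAbs_mul, Int.natAbs_mul, Int.natAbs_natCast]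
    show 2 * Δ.natAbs * (g * k) = _
    ring
  rw [h1, Nat.divisors_mul]
  refine (Finset.card_mul_le).trans (Nat.mul_le_mul_right _ ?_)
  apply Finset.card_le_card
  apply Nat.divisors_subset_of_dvd
  · have h2 := Int.natAbs_pos.2 hΔ
    have h3 := Int.natAbs_pos.2 hb
    positivity
  · apply Nat.mul_dvd_mul_left
    exact Int.natCast_dvd.1 hk

private theorem pf1_log (K N : ℕ) (hK : 20 ≤ K) (hN : 1 ≤ N) :
    1 ≤ 2280 * Real.log ((N * K : ℕ) : ℝ) ∧
      1 + Real.log (2280 * Real.log ((N * K : ℕ) : ℝ)) ≤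
        (1 + Real.log 2280 + Real.log (1 + Real.log K)) * (1 + Real.log (1 + Real.log N)) := by
  have hK' : (20 : ℝ) ≤ K := by exact_mod_cast hK
  have hN' : (1 : ℝ) ≤ N := by exact_mod_cast hN
  have hlN : 0 ≤ Real.log N := Real.log_nonneg hN'
  have hlK : 1 ≤ Real.log K := by
    rw [Real.le_log_iff_exp_le (by linarith)]
    have := Real.exp_one_lt_d9
    linarith
  have h1 : Real.log ((N * K : ℕ) : ℝ) = Real.log N + Real.log K := by
    rw [Nat.cast_mul, Real.log_mul (by linarith) (by linarith)]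
  rw [h1]
  have h2 : Real.log N + Real.log K ≤ (1 + Real.log K) * (1 + Real.log N) := by nlinarith
  have h3 : Real.log (Real.log N + Real.log K) ≤
      Real.log (1 + Real.log K) + Real.log (1 + Real.log N) := by
    have h3 : Real.log ((1 + Real.log K) * (1 + Real.log N)) =
        Real.log (1 + Real.log K) + Real.log (1 + Real.log N) :=
      Real.log_mul (by linarith) (by linarith)
    rw [← h3]
    exact Real.log_le_log (by linarith) h2
  have h4 : 0 ≤ Real.log 2280 := Real.log_nonneg (by norm_num)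
  have h5 : 0 ≤ Real.log (1 + Real.log K) := Real.log_nonneg (by linarith)
  have h6 : 0 ≤ Real.log (1 + Real.log N) := Real.log_nonneg (by linarith)
  refine ⟨by linarith, ?_⟩
  rw [Real.log_mul (by norm_num) (by linarith)]
  nlinarith [mul_nonneg h4 h6, mul_nonneg h5 h6]

/-- Row PF1. `per_class` without upper limit. `T = N (|a| + |b| + 20)`, `H = h k ≤ T`, `m = g k`. `D₁ ∈ F`
with a choice of `(u, w)`; the elements with `u < T^1136` have `h k u^2 ≤ exp R`,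
`R = 2280 * log T ≤ C' (1 + log N)`: `TwHL.per_class` gives `≤ C d(g) (1 + log R)`. The others:
the triples `(u, D₁, w)` (distinct, determined by `D₁`) form a set `F₂` of `Sol a b m H B` (`big`: holds as
`T^1136 ≤ u`); `class_split` with `n = 3` (`card_le_three`): `≤ 3 * card (divisors (2 Δ g k))
≤ 3 * card (divisors (2|Δ||b|)) * card (divisors g)` (`k ∣ b`; divisors of a product:
`Nat.divisors_mul`, `Finset.card_mul_le`). -/
theorem per_class_full (a b : ℤ) (hb : b ≠ 0) (hΔ : ¬ IsSquare (a ^ 2 - 4 * b)) (δ c₀ : ℝ)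
    (hδ : 0 < δ) (hc₀ : 0 < c₀) : ∃ C : ℝ, 0 < C ∧ ∃ B₀ : ℕ, ∀ h g k B N : ℕ, B₀ ≤ B → B ≤ N →
    0 < h → h ≤ N → 0 < g → 0 < k → Squarefree (g * k) → (k : ℤ) ∣ b → ∀ F : Finset ℤ,
    (∀ D₁ ∈ F, D₁ ≠ 0 ∧ |D₁| ≤ B ∧ ∃ u w : ℕ, 0 < u ∧ 0 < w ∧
      IsCoprime ((h * k * u ^ 2 : ℕ) : ℤ) D₁ ∧
      qf a b ((h * k * u ^ 2 : ℕ) : ℤ) D₁ = ((g * k * w ^ 2 : ℕ) : ℤ) ∧
      c₀ * (B : ℝ) ^ (2 + δ) ≤ ((h * k * u ^ 2 : ℕ) : ℝ)) →
    (F.card : ℝ) ≤ C * (g.divisors.card : ℝ) * (1 + Real.log (1 + Real.log N)) := by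
  classical
  obtain ⟨C₁, hC₁, B₁, hpc⟩ := per_class a b hb hΔ δ c₀ hδ hc₀
  have hΔ0 : a ^ 2 - 4 * b ≠ 0 := by
    intro h0
    rw [h0] at hΔ
    exact hΔ IsSquare.zero
  obtain ⟨K, hKdef⟩ : ∃ K : ℕ, K = a.natAbs + b.natAbs + 20 := ⟨_, rfl⟩
  have hK : 20 ≤ K := by omega
  let L : ℝ := 1 + Real.log 2280 + Real.log (1 + Real.log K)
  let Q : ℕ := (Nat.divisors (2 * (a ^ 2 - 4 * b).natAbs * b.natAbs)).card
  have hL0 : 0 ≤ L := by
    have h1 : (1 : ℝ) ≤ K := by exact_mod_cast (by omega : 1 ≤ K)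
    have h2 : 0 ≤ Real.log K := Real.log_nonneg h1
    have h3 : 0 ≤ Real.log (1 + Real.log K) := Real.log_nonneg (by linarith)
    have h4 : 0 ≤ Real.log 2280 := Real.log_nonneg (by norm_num)
    show 0 ≤ 1 + Real.log 2280 + Real.log (1 + Real.log K)
    linarith
  refine ⟨C₁ * L + 3 * Q + 1, by positivity, max B₁ 1, ?_⟩
  intro h g k B N hB hBN hh hhN hg hk hsf hkb F hF
  have hB1 : 1 ≤ B := (le_max_right _ _).trans hB
  have hN1 : 1 ≤ N := hB1.trans hBN
  obtain ⟨T, hTdef⟩ : ∃ T : ℕ, T = N * K := ⟨_, rfl⟩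
  have hKT : K ≤ T := by
    rw [hTdef]
    exact Nat.le_mul_of_pos_left K hN1
  have hNT : N ≤ T := by
    rw [hTdef]
    exact Nat.le_mul_of_pos_right N (by omega)
  have hT20 : 20 ≤ T := hK.trans hKT
  have hkb' : k ≤ b.natAbs := Nat.le_of_dvd (Int.natAbs_pos.2 hb) (Int.natCast_dvd.1 hkb)
  have hHT : h * k ≤ T := by
    rw [hTdef]
    exact Nat.mul_le_mul hhN (by omega)
  obtain ⟨hR1, hR2⟩ := pf1_log K N hK hN1
  rw [← hTdef] at hR1 hR2
  -- splitting
  let p : ℤ → Prop := fun D₁ => ∃ u w : ℕ, 0 < u ∧ 0 < w ∧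
      IsCoprime ((h * k * u ^ 2 : ℕ) : ℤ) D₁ ∧
      qf a b ((h * k * u ^ 2 : ℕ) : ℤ) D₁ = ((g * k * w ^ 2 : ℕ) : ℤ) ∧
      c₀ * (B : ℝ) ^ (2 + δ) ≤ ((h * k * u ^ 2 : ℕ) : ℝ) ∧ u < T ^ 1136
  have hF1 := hpc h g k B ((le_max_left _ _).trans hB) hh hg hk hsf hkb
    (2280 * Real.log (T : ℝ)) hR1 (F.filter p) (by
      intro D₁ hD₁
      rw [Finset.mem_filter] at hD₁
      obtain ⟨hD, u, w, hu, hw, hcop, heq, hbig, hlt⟩ := hD₁
      refine ⟨(hF D₁ hD).2.1, u, w, hu, hw, hcop, heq, hbig, ?_⟩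
      have hT0 : (0 : ℝ) < T := by exact_mod_cast (by omega : 0 < T)
      have h1 : Real.exp (2280 * Real.log (T : ℝ)) = (T : ℝ) ^ 2280 := by
        have h2 := Real.exp_nat_mul (Real.log (T : ℝ)) 2280
        rw [Real.exp_log hT0] at h2
        exact_mod_cast h2
      rw [h1]
      have h2 : h * k * u ^ 2 ≤ T ^ 2280 := by
        calc h * k * u ^ 2 ≤ T * (T ^ 1136) ^ 2 :=
            Nat.mul_le_mul hHT (Nat.pow_le_pow_left hlt.le 2)
          _ = T ^ 2273 := by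
            rw [← pow_mul, ← pow_succ']
          _ ≤ T ^ 2280 := Nat.pow_le_pow_right (by omega) (by norm_num)
      exact_mod_cast h2)
  -- the large ones
  have hex : ∀ D₁ : ℤ, ∃ z : ℤ × ℤ × ℤ, D₁ ∈ F.filter (fun D₁ => ¬ p D₁) →
      z.2.1 = D₁ ∧ Sol a b ((g * k : ℕ) : ℤ) ((h * k : ℕ) : ℤ) B z ∧ (T : ℤ) ^ 1136 ≤ z.1 := by
    intro D₁
    by_cases hD₁ : D₁ ∈ F.filter (fun D₁ => ¬ p D₁)
    · rw [Finset.mem_filter] at hD₁
      obtain ⟨hD, hnp⟩ := hD₁
      obtain ⟨hD0, hDB, u, w, hu, hw, hcop, heq, hbig⟩ := hF D₁ hD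
      have hTu : T ^ 1136 ≤ u := by
        by_contra hcon
        push Not at hcon
        exact hnp ⟨u, w, hu, hw, hcop, heq, hbig, hcon⟩
      have hcast : ((h * k : ℕ) : ℤ) * (u : ℤ) ^ 2 = ((h * k * u ^ 2 : ℕ) : ℤ) := by push_cast; ring
      refine ⟨((u : ℤ), D₁, (w : ℤ)), fun _ => ⟨rfl, ?_, ?_⟩⟩
      · refine ⟨?_, ?_, hD0, hDB, ?_, ?_, ?_⟩
        · show (0 : ℤ) < (u : ℤ)
          exact_mod_cast hu
        · show (0 : ℤ) < (w : ℤ)
          exact_mod_cast hw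
        · show IsCoprime (((h * k : ℕ) : ℤ) * (u : ℤ) ^ 2) D₁
          rw [hcast]
          exact hcop
        · show qf a b (((h * k : ℕ) : ℤ) * (u : ℤ) ^ 2) D₁ = ((g * k : ℕ) : ℤ) * (w : ℤ) ^ 2
          rw [hcast, heq]
          push_cast
          ring
        · show 4 * (|a| + |b| + 1) ^ 2 * (B : ℤ) ≤ ((h * k : ℕ) : ℤ) * (u : ℤ) ^ 2
          have h1 : (4 : ℤ) * (|a| + |b| + 1) ^ 2 * (B : ℤ) =
              ((4 * (a.natAbs + b.natAbs + 1) ^ 2 * B : ℕ) : ℤ) := by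
            push_cast
            ring
          rw [h1, hcast]
          have h2 : 4 * (a.natAbs + b.natAbs + 1) ^ 2 * B ≤ h * k * u ^ 2 := by
            calc 4 * (a.natAbs + b.natAbs + 1) ^ 2 * B ≤ T * T ^ 2 * T :=
                Nat.mul_le_mul (Nat.mul_le_mul (by omega)
                  (Nat.pow_le_pow_left (by omega) 2)) (hBN.trans hNT)
              _ = T ^ 4 := by ring
              _ ≤ T ^ 1136 := Nat.pow_le_pow_right (by omega) (by norm_num)
              _ ≤ u := hTu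
              _ = 1 * u := (one_mul u).symm
              _ ≤ h * k * u ^ 2 := by
                apply Nat.mul_le_mul (Nat.mul_pos hh hk)
                rw [sq]
                exact Nat.le_mul_of_pos_left u hu
          exact_mod_cast h2
      · show (T : ℤ) ^ 1136 ≤ (u : ℤ)
        exact_mod_cast hTu
    · exact ⟨(0, 0, 0), fun h' => absurd h' hD₁⟩
  choose φ hφ using hex
  have hinj : Set.InjOn φ (F.filter (fun D₁ => ¬ p D₁)) := by
    intro x hx y hy hxy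
    have h1 := (hφ x hx).1
    have h2 := (hφ y hy).1
    rw [← h1, ← h2, hxy]
  have hG : ∀ z ∈ (F.filter (fun D₁ => ¬ p D₁)).image φ,
      Sol a b ((g * k : ℕ) : ℤ) ((h * k : ℕ) : ℤ) B z ∧ (T : ℤ) ^ 1136 ≤ z.1 := by
    intro z hz
    obtain ⟨x, hx, rfl⟩ := Finset.mem_image.1 hz
    exact (hφ x hx).2
  have hm0 : (0 : ℤ) < ((g * k : ℕ) : ℤ) := by exact_mod_cast Nat.mul_pos hg hk
  have hH0 : (0 : ℤ) < ((h * k : ℕ) : ℤ) := by exact_mod_cast Nat.mul_pos hh hk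
  have hB1' : (1 : ℤ) ≤ (B : ℤ) := by exact_mod_cast hB1
  have haT : |a| ≤ (T : ℤ) := by
    rw [← Int.natCast_natAbs]
    exact_mod_cast (by omega : a.natAbs ≤ T)
  have hbT : |b| ≤ (T : ℤ) := by
    rw [← Int.natCast_natAbs]
    exact_mod_cast (by omega : b.natAbs ≤ T)
  have hcs := class_split hb hΔ0 hm0 hH0 hB1' ((F.filter (fun D₁ => ¬ p D₁)).image φ)
    (fun z hz => (hG z hz).1) 3 (by
      intro F' hF' hsame
      exact card_le_three T hT20 haT hbT (by exact_mod_cast hHT)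
        (by exact_mod_cast hBN.trans hNT) hb hΔ0 hm0 hH0 hB1' F'
        (fun z hz => (hG z (hF' hz)).1) (fun z hz => (hG z (hF' hz)).2) hsame)
  rw [Finset.card_image_of_injOn hinj] at hcs
  have hdv := pf1_divisors (a ^ 2 - 4 * b) b hΔ0 hb g k hkb
  have hF2 : ((F.filter (fun D₁ => ¬ p D₁)).card : ℝ) ≤ 3 * Q * g.divisors.card := by
    have h1 := hcs.trans (Nat.mul_le_mul_left 3 hdv)
    have h2 : (F.filter (fun D₁ => ¬ p D₁)).card ≤ 3 * Q * g.divisors.card := by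
      rw [mul_assoc]
      exact h1
    exact_mod_cast h2
  have hsum : (F.card : ℝ) = ((F.filter p).card : ℝ) +
      ((F.filter (fun D₁ => ¬ p D₁)).card : ℝ) := by
    have h3 := Finset.card_filter_add_card_filter_not (s := F) p
    exact_mod_cast h3.symm
  have hN' : (1 : ℝ) ≤ N := by exact_mod_cast hN1
  have hlN : 0 ≤ Real.log N := Real.log_nonneg hN'
  have hlln : 0 ≤ Real.log (1 + Real.log N) := Real.log_nonneg (by linarith)
  have hd0 : (0 : ℝ) ≤ g.divisors.card := Nat.cast_nonneg _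
  rw [hsum]
  have h1 : C₁ * (g.divisors.card : ℝ) * (1 + Real.log (2280 * Real.log (T : ℝ))) ≤
      C₁ * (g.divisors.card : ℝ) * (L * (1 + Real.log (1 + Real.log N))) :=
    mul_le_mul_of_nonneg_left hR2 (by positivity)
  have h2 : 3 * (Q : ℝ) * g.divisors.card ≤
      (3 * (Q : ℝ) * g.divisors.card) * (1 + Real.log (1 + Real.log N)) := by
    have h3 : 0 ≤ 3 * (Q : ℝ) * g.divisors.card := by positivity
    nlinarith
  have h4 : 0 ≤ (g.divisors.card : ℝ) * (1 + Real.log (1 + Real.log N)) := by positivity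
  calc ((F.filter p).card : ℝ) + ((F.filter (fun D₁ => ¬ p D₁)).card : ℝ)
      ≤ C₁ * (g.divisors.card : ℝ) * (1 + Real.log (2280 * Real.log (T : ℝ))) +
        3 * Q * g.divisors.card := add_le_add hF1 hF2
    _ ≤ C₁ * (g.divisors.card : ℝ) * (L * (1 + Real.log (1 + Real.log N))) +
        (3 * (Q : ℝ) * g.divisors.card) * (1 + Real.log (1 + Real.log N)) := add_le_add h1 h2
    _ = (C₁ * L + 3 * Q) * ((g.divisors.card : ℝ) * (1 + Real.log (1 + Real.log N))) := by ring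
    _ ≤ (C₁ * L + 3 * Q + 1) * ((g.divisors.card : ℝ) * (1 + Real.log (1 + Real.log N))) :=
      mul_le_mul_of_nonneg_right (by linarith) h4
    _ = _ := by ring

end TwT
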