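import Pool.Agent.LibTwHL.G6
import Pool.Agent.LibTwT.PF1

set_option autoImplicit false

namespace TwT

open TwHL

/-- the condition on `D₁` for fixed `h, g, k` -/
private def PF2P (a b : ℤ) (δ c₀ : ℝ) (B₀ N h g k : ℕ) (D₁ : ℤ) : Prop :=
  (0 < h ∧ 0 < g ∧ 0 < k ∧ Squarefree (g * k) ∧ (k : ℤ) ∣ b ∧ B₀ ≤ N / (h * g) ∧ h ≤ N) ∧
    D₁ ≠ 0 ∧ |D₁| ≤ ((N / (h * g) : ℕ) : ℤ) ∧ ∃ u w : ℕ, 0 < u ∧ 0 < w ∧
      IsCoprime ((h * k * u ^ 2 : ℕ) : ℤ) D₁ ∧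
      qf a b ((h * k * u ^ 2 : ℕ) : ℤ) D₁ = ((g * k * w ^ 2 : ℕ) : ℤ) ∧
      c₀ * ((N / (h * g) : ℕ) : ℝ) ^ (2 + δ) ≤ ((h * k * u ^ 2 : ℕ) : ℝ)

private lemma PF2_size (N h g : ℕ) (δ c₁ X : ℝ) (hδ : 0 < δ) (hc₁ : 0 < c₁) (hh : 0 < h) (hg : 0 < g)
    (hX : 0 ≤ X) (h1 : (N : ℝ) ^ (2 + δ) ≤ c₁ * ((h * g : ℕ) : ℝ) * X) :
    1 / c₁ * ((N / (h * g) : ℕ) : ℝ) ^ (2 + δ) ≤ X := by
  have hhg : 0 < h * g := Nat.mul_pos hh hg
  have hz1 : (1 : ℝ) ≤ ((h * g : ℕ) : ℝ) := by exact_mod_cast hhg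
  have hz0 : (0 : ℝ) < ((h * g : ℕ) : ℝ) := by linarith
  have h2 : ((N / (h * g) : ℕ) : ℝ) ≤ (N : ℝ) / ((h * g : ℕ) : ℝ) := Nat.cast_div_le
  have h3 : ((N / (h * g) : ℕ) : ℝ) ^ (2 + δ) ≤ ((N : ℝ) / ((h * g : ℕ) : ℝ)) ^ (2 + δ) :=
    Real.rpow_le_rpow (Nat.cast_nonneg _) h2 (by linarith)
  rw [Real.div_rpow (Nat.cast_nonneg _) hz0.le] at h3
  have h4 : ((h * g : ℕ) : ℝ) ≤ ((h * g : ℕ) : ℝ) ^ (2 + δ) := by
    calc ((h * g : ℕ) : ℝ) = ((h * g : ℕ) : ℝ) ^ (1 : ℝ) := (Real.rpow_one _).symm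
      _ ≤ ((h * g : ℕ) : ℝ) ^ (2 + δ) := Real.rpow_le_rpow_of_exponent_le hz1 (by linarith)
  have h5 : (N : ℝ) ^ (2 + δ) / ((h * g : ℕ) : ℝ) ^ (2 + δ) ≤ c₁ * X := by
    rw [div_le_iff₀ (by positivity)]
    refine h1.trans ?_
    calc c₁ * ((h * g : ℕ) : ℝ) * X = c₁ * X * ((h * g : ℕ) : ℝ) := by ring
      _ ≤ c₁ * X * ((h * g : ℕ) : ℝ) ^ (2 + δ) := mul_le_mul_of_nonneg_left h4 (by positivity)
  rw [one_div, inv_mul_le_iff₀ hc₁]
  exact h3.trans h5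

/-- Row PF2. Same as `TwHL.big_D1` with `per_class_full` instead of `per_class` (`B = N / (h g)`,
`h ≤ N`). -/
theorem big_D1_full (a b : ℤ) (hb : b ≠ 0) (hΔ : ¬ IsSquare (a ^ 2 - 4 * b)) (δ c₁ : ℝ)
    (hδ : 0 < δ) (hc₁ : 0 < c₁) : ∃ C : ℝ, 0 < C ∧ ∃ T₀ : ℕ, ∀ N T : ℕ, T₀ ≤ T → 1 ≤ T → T ≤ N →
    ∀ S : Finset ℤ,
    (∀ D ∈ S, |D| ≤ N ∧ ∃ (h g k u w : ℕ) (D₁ : ℤ), Dec a b D h g k u w D₁ ∧ (T : ℤ) < |D₁| ∧
      (N : ℝ) ^ (2 + δ) ≤ c₁ * ((h * g * (h * k * u ^ 2) : ℕ) : ℝ)) →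
    (S.card : ℝ) ≤ C * ((N : ℝ) / T) * (1 + Real.log N) ^ 3 := by
  classical
  obtain ⟨C₁, hC₁, B₀, hper⟩ := per_class_full a b hb hΔ δ (1 / c₁) hδ (by positivity)
  have hbpos : (0 : ℝ) < (b.natAbs : ℝ) := by exact_mod_cast Int.natAbs_pos.2 hb
  refine ⟨2 * (b.natAbs : ℝ) * C₁, by positivity, B₀, ?_⟩
  intro N T hT0 hT1 hTN S hS
  have hN1 : 1 ≤ N := hT1.trans hTN
  have hN1' : (1 : ℝ) ≤ (N : ℝ) := by exact_mod_cast hN1
  have hlogN : 0 ≤ Real.log N := Real.log_nonneg hN1'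
  have hlog2N : 0 ≤ Real.log (2 * (N : ℝ)) := Real.log_nonneg (by linarith)
  have hY1 : 1 ≤ N / T := (Nat.one_le_div_iff (by omega)).2 hTN
  have hYN : N / T ≤ N := Nat.div_le_self N T
  have hF : ∀ h g k : ℕ, ((((Finset.Icc (-(N : ℤ)) N).filter
      (PF2P a b δ (1 / c₁) B₀ N h g k)).card : ℕ) : ℝ)
      ≤ C₁ * (g.divisors.card : ℝ) * (1 + Real.log (2 * (N : ℝ))) := by
    intro h g k
    by_cases hcond : (0 < h ∧ 0 < g ∧ 0 < k ∧ Squarefree (g * k) ∧ (k : ℤ) ∣ b ∧ B₀ ≤ N / (h * g) ∧ h ≤ N)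
    · obtain ⟨h1, h2, h3, h4, h5, h6, h7⟩ := hcond
      refine (hper h g k (N / (h * g)) N h6 (Nat.div_le_self _ _) h1 h7 h2 h3 h4 h5 _
        (fun D₁ hD => (Finset.mem_filter.1 hD).2.2)).trans ?_
      refine mul_le_mul_of_nonneg_left ?_ (by positivity)
      have hl1 : Real.log (1 + Real.log (N : ℝ)) ≤ Real.log (2 * (N : ℝ)) := by
        refine Real.log_le_log (by linarith) ?_
        have := Real.log_le_sub_one_of_pos (by linarith : (0:ℝ) < (N : ℝ))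
        linarith
      linarith
    · have he : (Finset.Icc (-(N : ℤ)) N).filter (PF2P a b δ (1 / c₁) B₀ N h g k) = ∅ := by
        rw [Finset.filter_eq_empty_iff]
        intro D₁ _ hD
        exact hcond hD.1
      rw [he, Finset.card_empty]
      push_cast
      positivity
  have hcover : S ⊆ (Finset.Icc 1 b.natAbs).biUnion fun k => (Finset.Icc 1 (N / T)).biUnion fun h =>
      (Finset.Icc 1 (N / T / h)).biUnion fun g =>
        ((Finset.Icc (-(N : ℤ)) N).filter (PF2P a b δ (1 / c₁) B₀ N h g k)).image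
          (fun D₁ => (h : ℤ) * g * D₁) := by
    intro D hD
    obtain ⟨hDN, h, g, k, u, w, D₁, hdec, hT, hbig⟩ := hS D hD
    obtain ⟨hh, hg, hk, hu, hw, hsqD, hDeq, hcop, hqf, hs1, hs2, hkb⟩ := hdec
    have hhg : 0 < h * g := Nat.mul_pos hh hg
    have hDabs : ((h * g : ℕ) : ℤ) * |D₁| ≤ N := by
      have e : |D| = ((h * g : ℕ) : ℤ) * |D₁| := by
        rw [hDeq, abs_mul]
        congr 1
        rw [abs_of_nonneg (by positivity)]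
        push_cast
        ring
      rw [← e]
      exact hDN
    have hD1B : |D₁| ≤ ((N / (h * g) : ℕ) : ℤ) := by
      rw [Int.natCast_div]
      exact (Int.le_ediv_iff_mul_le (by exact_mod_cast hhg)).2 (by rw [mul_comm]; exact hDabs)
    have hTB : T ≤ N / (h * g) := by
      have : (T : ℤ) ≤ ((N / (h * g) : ℕ) : ℤ) := hT.le.trans hD1B
      exact_mod_cast this
    have hhgT : h * g ≤ N / T := by
      rw [Nat.le_div_iff_mul_le (by omega)]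
      rw [Nat.le_div_iff_mul_le hhg] at hTB
      rw [mul_comm]
      exact hTB
    have hkabs : k ≤ b.natAbs := Nat.le_of_dvd (Int.natAbs_pos.2 hb) (Int.natCast_dvd.1 hkb)
    have hhT : h ≤ N / T := (Nat.le_mul_of_pos_right h hg).trans hhgT
    have hgT : g ≤ N / T / h := by
      rw [Nat.le_div_iff_mul_le hh, mul_comm]
      exact hhgT
    refine Finset.mem_biUnion.2 ⟨k, Finset.mem_Icc.2 ⟨hk, hkabs⟩, Finset.mem_biUnion.2 ⟨h,
      Finset.mem_Icc.2 ⟨hh, hhT⟩, Finset.mem_biUnion.2 ⟨g, Finset.mem_Icc.2 ⟨hg, hgT⟩,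
      Finset.mem_image.2 ⟨D₁, Finset.mem_filter.2 ⟨?_, ?_⟩, hDeq.symm⟩⟩⟩⟩
    · rw [Finset.mem_Icc, ← abs_le]
      refine hD1B.trans ?_
      exact_mod_cast Nat.div_le_self N (h * g)
    · refine ⟨⟨hh, hg, hk, hs2, hkb, hT0.trans hTB, hhT.trans hYN⟩, ?_, hD1B, u, w, hu, hw, hcop,
        hqf, ?_⟩
      · intro h0
        rw [h0, abs_zero] at hT
        omega
      refine PF2_size N h g δ c₁ _ hδ hc₁ hh hg (Nat.cast_nonneg _) ?_
      refine hbig.trans (le_of_eq ?_)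
      push_cast
      ring
  have hcard : (S.card : ℝ) ≤ ∑ k ∈ Finset.Icc 1 b.natAbs, ∑ h ∈ Finset.Icc 1 (N / T),
      ∑ g ∈ Finset.Icc 1 (N / T / h), C₁ * (g.divisors.card : ℝ) * (1 + Real.log (2 * (N : ℝ))) := by
    have h1 : S.card ≤ ∑ k ∈ Finset.Icc 1 b.natAbs, ∑ h ∈ Finset.Icc 1 (N / T),
        ∑ g ∈ Finset.Icc 1 (N / T / h),
          ((Finset.Icc (-(N : ℤ)) N).filter (PF2P a b δ (1 / c₁) B₀ N h g k)).card := by
      refine (Finset.card_le_card hcover).trans (Finset.card_biUnion_le.trans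
        (Finset.sum_le_sum fun k _ => Finset.card_biUnion_le.trans
        (Finset.sum_le_sum fun h _ => Finset.card_biUnion_le.trans
        (Finset.sum_le_sum fun g _ => Finset.card_image_le))))
    have h2 : (S.card : ℝ) ≤ ((∑ k ∈ Finset.Icc 1 b.natAbs, ∑ h ∈ Finset.Icc 1 (N / T),
        ∑ g ∈ Finset.Icc 1 (N / T / h),
          ((Finset.Icc (-(N : ℤ)) N).filter (PF2P a b δ (1 / c₁) B₀ N h g k)).card : ℕ) : ℝ) := by
      exact_mod_cast h1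
    refine h2.trans ?_
    rw [Nat.cast_sum]
    refine Finset.sum_le_sum fun k _ => ?_
    rw [Nat.cast_sum]
    refine Finset.sum_le_sum fun h _ => ?_
    rw [Nat.cast_sum]
    exact Finset.sum_le_sum fun g _ => hF h g k
  have hsum : ∑ k ∈ Finset.Icc 1 b.natAbs, ∑ h ∈ Finset.Icc 1 (N / T),
      ∑ g ∈ Finset.Icc 1 (N / T / h), C₁ * (g.divisors.card : ℝ) * (1 + Real.log (2 * (N : ℝ)))
      = (b.natAbs : ℝ) * (C₁ * (1 + Real.log (2 * (N : ℝ))) *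
        ∑ h ∈ Finset.Icc 1 (N / T), ∑ g ∈ Finset.Icc 1 (N / T / h), (g.divisors.card : ℝ)) := by
    rw [Finset.sum_const, Nat.card_Icc, nsmul_eq_mul, Nat.add_sub_cancel]
    congr 1
    rw [Finset.mul_sum]
    refine Finset.sum_congr rfl fun h _ => ?_
    rw [Finset.mul_sum]
    exact Finset.sum_congr rfl fun g _ => by ring
  have hds := div_sum (N / T) hY1
  have hYr : ((N / T : ℕ) : ℝ) ≤ (N : ℝ) / T := Nat.cast_div_le
  have hlogY : 1 + Real.log ((N / T : ℕ) : ℝ) ≤ 1 + Real.log N := by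
    have h1 : (0 : ℝ) < ((N / T : ℕ) : ℝ) := by exact_mod_cast hY1
    have h2 := Real.log_le_log h1 (by exact_mod_cast hYN : ((N / T : ℕ) : ℝ) ≤ (N : ℝ))
    linarith
  have hlogY0 : 0 ≤ 1 + Real.log ((N / T : ℕ) : ℝ) := by
    have h1 : (1 : ℝ) ≤ ((N / T : ℕ) : ℝ) := by exact_mod_cast hY1
    have := Real.log_nonneg h1
    linarith
  have hds2 : ∑ h ∈ Finset.Icc 1 (N / T), ∑ g ∈ Finset.Icc 1 (N / T / h), (g.divisors.card : ℝ)
      ≤ (N : ℝ) / T * (1 + Real.log N) ^ 2 := by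
    refine hds.trans ?_
    have h3 := pow_le_pow_left₀ hlogY0 hlogY 2
    exact mul_le_mul hYr h3 (by positivity) (by positivity)
  have hlog2 : 1 + Real.log (2 * (N : ℝ)) ≤ 2 * (1 + Real.log N) := by
    rw [Real.log_mul (by norm_num) (by linarith)]
    have := Real.log_two_lt_d9
    linarith
  rw [hsum] at hcard
  refine hcard.trans ?_
  have hq : 0 ≤ (N : ℝ) / T * (1 + Real.log N) ^ 2 := by positivity
  have hfin : C₁ * (1 + Real.log (2 * (N : ℝ))) *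
        ∑ h ∈ Finset.Icc 1 (N / T), ∑ g ∈ Finset.Icc 1 (N / T / h), (g.divisors.card : ℝ)
      ≤ C₁ * (2 * (1 + Real.log N)) * ((N : ℝ) / T * (1 + Real.log N) ^ 2) := by
    refine mul_le_mul (mul_le_mul_of_nonneg_left hlog2 hC₁.le) hds2 ?_ (by positivity)
    exact Finset.sum_nonneg fun h _ => Finset.sum_nonneg fun g _ => Nat.cast_nonneg _
  calc (b.natAbs : ℝ) * (C₁ * (1 + Real.log (2 * (N : ℝ))) *
        ∑ h ∈ Finset.Icc 1 (N / T), ∑ g ∈ Finset.Icc 1 (N / T / h), (g.divisors.card : ℝ))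
      ≤ (b.natAbs : ℝ) * (C₁ * (2 * (1 + Real.log N)) * ((N : ℝ) / T * (1 + Real.log N) ^ 2)) :=
        mul_le_mul_of_nonneg_left hfin hbpos.le
    _ = 2 * (b.natAbs : ℝ) * C₁ * ((N : ℝ) / T) * (1 + Real.log N) ^ 3 := by ring

end TwT
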