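import Pool.Agent.LibTwHL.Defs2

set_option autoImplicit false

namespace TwT

open TwHL

private lemma TC3_dvd (n m x y : ℕ) (hn : Squarefree n) (hy : 0 < y) (h : n * x ^ 2 = m * y ^ 2) :
    n ∣ m := by
  have hg : 0 < Nat.gcd x y := Nat.gcd_pos_of_pos_right _ hy
  obtain ⟨x', y', hcop, hx', hy'⟩ := Nat.exists_coprime x y
  have h2 : n * x' ^ 2 = m * y' ^ 2 := by
    have e1 : (n * x' ^ 2) * (Nat.gcd x y) ^ 2 = (m * y' ^ 2) * (Nat.gcd x y) ^ 2 := by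
      calc (n * x' ^ 2) * (Nat.gcd x y) ^ 2 = n * (x' * Nat.gcd x y) ^ 2 := by ring
        _ = n * x ^ 2 := by rw [← hx']
        _ = m * y ^ 2 := h
        _ = m * (y' * Nat.gcd x y) ^ 2 := by rw [← hy']
        _ = (m * y' ^ 2) * (Nat.gcd x y) ^ 2 := by ring
    exact Nat.eq_of_mul_eq_mul_right (by positivity) e1
  have h3 : y' ^ 2 ∣ n := by
    have h4 : y' ^ 2 ∣ n * x' ^ 2 := ⟨m, by rw [h2]; ring⟩
    exact (Nat.Coprime.pow 2 2 hcop.symm).dvd_of_dvd_mul_right h4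
  have h5 : y' = 1 := by
    have := hn y' (by rw [← sq]; exact h3)
    exact Nat.isUnit_iff.1 this
  rw [h5, one_pow, mul_one] at h2
  exact ⟨x' ^ 2, h2.symm⟩

/-- Row TC3. `D` is determined by `(g, k, p, q)` and `a, b`. `c = c'` as `b = k g c^2`. With
`l = a q - 2 c g p`, `κ = g p^2 - k q^2` (the same numbers): `e U = q l`, `e D₁ = κ`,
`e' U' = q l`, `e' D₁' = κ`, so `U D₁' = U' D₁` (`κ ≠ 0`, from `D₁ ≠ 0`), `gcd (U, D₁) = gcd (U', D₁') = 1`,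
`U, U' > 0`: `U = U'`, `D₁ = D₁'`. `h` is the squarefree part of `U = h u^2`, so `h = h'` and
`D = h g D₁ = D'`. -/
theorem det_D {a b D D' : ℤ} {h h' g k u u' w w' : ℕ} {D₁ D₁' : ℤ}
    (H : Dec a b D h g k u w D₁) (H' : Dec a b D' h' g k u' w' D₁') (c c' : ℕ) (p q e e' : ℤ)
    (hc : 0 < c) (hc' : 0 < c') (hbc : b = k * g * (c : ℤ) ^ 2) (hbc' : b = k * g * (c' : ℤ) ^ 2)
    (he : e ≠ 0) (he' : e' ≠ 0)
    (h1 : e * (h * (u : ℤ) ^ 2) = q * (a * q - 2 * c * g * p))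
    (h2 : e * D₁ = g * p ^ 2 - k * q ^ 2)
    (h1' : e' * (h' * (u' : ℤ) ^ 2) = q * (a * q - 2 * c' * g * p))
    (h2' : e' * D₁' = g * p ^ 2 - k * q ^ 2) : D = D' := by
  obtain ⟨hh, hg, hk, hu, hw, hsqD, hDeq, hcop, hqf, hs1, hs2, hkb⟩ := H
  obtain ⟨hh', _, _, hu', hw', hsqD', hDeq', hcop', hqf', hs1', _, _⟩ := H'
  have hg0 : (0 : ℤ) < g := by exact_mod_cast hg
  have hk0 : (0 : ℤ) < k := by exact_mod_cast hk
  have hcc : c = c' := by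
    have h3 : (k * g : ℤ) * (c : ℤ) ^ 2 = (k * g : ℤ) * (c' : ℤ) ^ 2 := by rw [← hbc, ← hbc']
    have h4 : (c : ℤ) ^ 2 = (c' : ℤ) ^ 2 := mul_left_cancel₀ (by positivity) h3
    have h5 : (c : ℤ) = (c' : ℤ) := by
      have := (sq_eq_sq₀ (by positivity : (0:ℤ) ≤ (c:ℤ)) (by positivity : (0:ℤ) ≤ (c':ℤ))).1 h4
      exact this
    exact_mod_cast h5
  subst hcc
  have hD1 : D₁ ≠ 0 := by
    intro h0
    rw [h0, mul_zero] at hDeq
    exact hsqD.ne_zero hDeq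
  have hκ : (g * p ^ 2 - k * q ^ 2 : ℤ) ≠ 0 := by
    rw [← h2]
    exact mul_ne_zero he hD1
  have hkey : (h * (u : ℤ) ^ 2) * D₁' = (h' * (u' : ℤ) ^ 2) * D₁ := by
    have e1 : (e * (h * (u : ℤ) ^ 2)) * (e' * D₁') = (e' * (h' * (u' : ℤ) ^ 2)) * (e * D₁) := by
      rw [h1, h1', h2, h2']
    have e2 : (e * e') * ((h * (u : ℤ) ^ 2) * D₁') = (e * e') * ((h' * (u' : ℤ) ^ 2) * D₁) := by
      linear_combination e1
    exact mul_left_cancel₀ (mul_ne_zero he he') e2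
  have hcopU : IsCoprime (h * (u : ℤ) ^ 2) D₁ := by
    have e : (((h * k * u ^ 2 : ℕ)) : ℤ) = (h * (u : ℤ) ^ 2) * k := by push_cast; ring
    rw [e] at hcop
    exact hcop.of_mul_left_left
  have hcopU' : IsCoprime (h' * (u' : ℤ) ^ 2) D₁' := by
    have e : (((h' * k * u' ^ 2 : ℕ)) : ℤ) = (h' * (u' : ℤ) ^ 2) * k := by push_cast; ring
    rw [e] at hcop'
    exact hcop'.of_mul_left_left
  have hd1 : (h * (u : ℤ) ^ 2) ∣ (h' * (u' : ℤ) ^ 2) :=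
    hcopU.dvd_of_dvd_mul_right ⟨D₁', hkey.symm⟩
  have hd2 : (h' * (u' : ℤ) ^ 2) ∣ (h * (u : ℤ) ^ 2) :=
    hcopU'.dvd_of_dvd_mul_right ⟨D₁, hkey⟩
  have hUU : (h * (u : ℤ) ^ 2) = (h' * (u' : ℤ) ^ 2) :=
    Int.dvd_antisymm (by positivity) (by positivity) hd1 hd2
  have hUpos : (h' * (u' : ℤ) ^ 2) ≠ 0 := by positivity
  have hDD : D₁ = D₁' := by
    rw [hUU] at hkey
    exact (mul_left_cancel₀ hUpos hkey).symm
  have hsqh : Squarefree h := hs1.squarefree_of_dvd ⟨k, rfl⟩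
  have hsqh' : Squarefree h' := hs1'.squarefree_of_dvd ⟨k, rfl⟩
  have hN : h * u ^ 2 = h' * u' ^ 2 := by exact_mod_cast hUU
  have hhh : h = h' := Nat.dvd_antisymm (TC3_dvd h h' u u' hsqh hu' hN)
    (TC3_dvd h' h u' u hsqh' hu hN.symm)
  rw [hDeq, hDeq', hhh, hDD]

end TwT
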