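import Mathlib

set_option autoImplicit false

namespace TwT

private lemma TC2_dvd (n m x y : ℕ) (hn : Squarefree n) (hy : 0 < y) (h : n * x ^ 2 = m * y ^ 2) :
    n ∣ m := by
  have hg : 0 < Nat.gcd x y := Nat.gcd_pos_of_pos_right _ hy
  obtain ⟨x', y', hcop, hx', hy'⟩ := Nat.exists_coprime x y
  have h2 : n * x' ^ 2 = m * y' ^ 2 := by
    have e1 : (n * x' ^ 2) * (Nat.gcd x y) ^ 2 = (m * y' ^ 2) * (Nat.gcd x y) ^ 2 := by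
      calc (n * x' ^ 2) * (Nat.gcd x y) ^ 2 = n * (x' * Nat.gcd x y) ^ 2 := by ring
        _ = n * x ^ 2 := by rw [← hx']
        _ = m * y ^ 2 := h
        _ = m * (y' * Nat.gcd x y) ^ 2 := by rw [← hy']
        _ = (m * y' ^ 2) * (Nat.gcd x y) ^ 2 := by ring
    exact Nat.eq_of_mul_eq_mul_right (by positivity) e1
  have h3 : y' ^ 2 ∣ n := by
    have h4 : y' ^ 2 ∣ n * x' ^ 2 := ⟨m, by rw [h2]; ring⟩
    exact (Nat.Coprime.pow 2 2 hcop.symm).dvd_of_dvd_mul_right h4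
  have h5 : y' = 1 := by
    have := hn y' (by rw [← sq]; exact h3)
    exact Nat.isUnit_iff.1 this
  rw [h5, one_pow, mul_one] at h2
  exact ⟨x' ^ 2, h2.symm⟩

/-- Row TC2. `q = k₁ s^2`, `l = k₂ t^2` with `k₁, k₂` squarefree (`Nat.sq_mul_squarefree`),
`d = gcd k₁ k₂ ∣ gcd q l ∣ G`; `(k₁/d)(k₂/d)` is squarefree and
`(k₁/d)(k₂/d) (d s t)^2 = (E h) u^2`, so `(k₁/d)(k₂/d) ∣ E h` (every prime of the left side has odd
valuation there), and `k₁ k₂ = d^2 (k₁/d)(k₂/d) ≤ G^2 E h`. -/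
theorem sqf_split (q l E h u G : ℕ) (hq : 0 < q) (hl : 0 < l) (hE : 0 < E) (hh : 0 < h)
    (hu : 0 < u) (hG : 0 < G) (heq : q * l = E * h * u ^ 2) (hg : Nat.gcd q l ∣ G) :
    ∃ k₁ s k₂ t : ℕ, 0 < k₁ ∧ 0 < s ∧ 0 < k₂ ∧ 0 < t ∧ q = k₁ * s ^ 2 ∧ l = k₂ * t ^ 2 ∧
      k₁ * k₂ ≤ G ^ 2 * (E * h) := by
  obtain ⟨k₁, s, hk₁, hs, he1, hsq1⟩ := Nat.sq_mul_squarefree_of_pos hq
  obtain ⟨k₂, t, hk₂, ht, he2, hsq2⟩ := Nat.sq_mul_squarefree_of_pos hl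
  refine ⟨k₁, s, k₂, t, hk₁, hs, hk₂, ht, by rw [← he1, mul_comm], by rw [← he2, mul_comm], ?_⟩
  obtain ⟨x, y, hcop, hx, hy⟩ := Nat.exists_coprime k₁ k₂
  set d := Nat.gcd k₁ k₂ with hd
  have hdpos : 0 < d := Nat.gcd_pos_of_pos_left _ hk₁
  have hxsq : Squarefree x := hsq1.squarefree_of_dvd ⟨d, hx⟩
  have hysq : Squarefree y := hsq2.squarefree_of_dvd ⟨d, hy⟩
  have hxy : Squarefree (x * y) := (Nat.squarefree_mul hcop).2 ⟨hxsq, hysq⟩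
  have hkey : (x * y) * (d * s * t) ^ 2 = (E * h) * u ^ 2 := by
    calc (x * y) * (d * s * t) ^ 2 = (s ^ 2 * (x * d)) * (t ^ 2 * (y * d)) := by ring
      _ = (s ^ 2 * k₁) * (t ^ 2 * k₂) := by rw [← hx, ← hy]
      _ = q * l := by rw [he1, he2]
      _ = (E * h) * u ^ 2 := heq
  have hdvd := TC2_dvd _ _ _ _ hxy hu hkey
  have hle : x * y ≤ E * h := Nat.le_of_dvd (Nat.mul_pos hE hh) hdvd
  have hdG : d ∣ G := by
    refine dvd_trans (Nat.dvd_gcd ?_ ?_) hg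
    · exact (Nat.gcd_dvd_left k₁ k₂).trans ⟨s ^ 2, by rw [← he1, mul_comm]⟩
    · exact (Nat.gcd_dvd_right k₁ k₂).trans ⟨t ^ 2, by rw [← he2, mul_comm]⟩
  have hdG' : d ≤ G := Nat.le_of_dvd hG hdG
  calc k₁ * k₂ = (x * d) * (y * d) := by rw [← hx, ← hy]
    _ = d ^ 2 * (x * y) := by ring
    _ ≤ G ^ 2 * (E * h) := Nat.mul_le_mul (Nat.pow_le_pow_left hdG' 2) hle

end TwT
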