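import Mathlib

set_option autoImplicit false

namespace TwT

/-- Row TC4a. Sizes. `l = a q - 2 c g p`, `A₀ = |D₁| ≥ 1`; `b > 0`, `c g k ≤ b`, `|e| ≤ b |Δ|`. From
`g p^2 = k q^2 + e D₁`: `p^2 ≤ b q^2 + b |Δ| A₀`, so `|p| ≤ C₁ q A₀`, `|l| ≤ C₂ q A₀` and
`U ≤ |e| U = q |l| ≤ C₂ q^2 A₀`. Second: `Δ q^2 - 2 a q l + l^2 = 4 c^2 g e D₁`
(`Δ = a^2 - 4b`, `b = k g c^2`), `l ≠ 0` (as `e U ≠ 0`), so
`q^2 ≤ |Δ| q^2 ≤ 2|a| q |l| + l^2 + 4 b^2 |Δ| A₀` and `q ≤ C₃ |l| A₀`; `U ≤ q |l| ≤ C₃ l^2 A₀`. -/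
theorem t_size (a b : ℤ) (hΔ : a ^ 2 - 4 * b ≠ 0) : ∃ C : ℕ, 0 < C ∧
    ∀ (c g k : ℕ) (p q e U D₁ : ℤ), 0 < c → 0 < g → 0 < k → b = k * g * (c : ℤ) ^ 2 → 0 < q →
    e ≠ 0 → e ∣ g * (a ^ 2 - 4 * b) → 0 < U → D₁ ≠ 0 →
    e * U = q * (a * q - 2 * c * g * p) → e * D₁ = g * p ^ 2 - k * q ^ 2 →
    U ≤ C * q ^ 2 * |D₁| ∧ U ≤ C * (a * q - 2 * c * g * p) ^ 2 * |D₁| := by
  obtain ⟨M, hM⟩ : ∃ M : ℤ, M = |b| * (1 + |a ^ 2 - 4 * b|) := ⟨_, rfl⟩
  obtain ⟨C₂, hC₂⟩ : ∃ C₂ : ℤ, C₂ = |a| + 2 * |b| * M := ⟨_, rfl⟩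
  obtain ⟨C₃, hC₃⟩ : ∃ C₃ : ℤ, C₃ = 2 * |a| + 1 + 4 * b ^ 2 * |a ^ 2 - 4 * b| := ⟨_, rfl⟩
  have hM0 : 0 ≤ M := by rw [hM]; positivity
  have hC20 : 0 ≤ C₂ := by rw [hC₂]; positivity
  have hC30 : 0 ≤ C₃ := by rw [hC₃]; positivity
  refine ⟨(C₂ + C₃ + 1).toNat, by omega, ?_⟩
  intro c g k p q e U D₁ hc hg hk hb hq he hed hU hD h1 h2
  have hCc : (((C₂ + C₃ + 1).toNat : ℕ) : ℤ) = C₂ + C₃ + 1 := Int.toNat_of_nonneg (by positivity)
  rw [hCc]
  have hc1 : (1 : ℤ) ≤ c := by exact_mod_cast hc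
  have hg1 : (1 : ℤ) ≤ g := by exact_mod_cast hg
  have hk1 : (1 : ℤ) ≤ k := by exact_mod_cast hk
  have hq1 : 1 ≤ q := hq
  obtain ⟨A, hA⟩ : ∃ A : ℤ, A = |D₁| := ⟨_, rfl⟩
  have hA1 : 1 ≤ A := by
    rw [hA]
    exact Int.one_le_abs hD
  rw [← hA]
  have hbpos : 0 < b := by rw [hb]; positivity
  have habs : |b| = b := abs_of_pos hbpos
  obtain ⟨Δ, hΔd⟩ : ∃ Δ : ℤ, Δ = |a ^ 2 - 4 * b| := ⟨_, rfl⟩
  have hΔ1 : 1 ≤ Δ := by
    rw [hΔd]
    exact Int.one_le_abs hΔ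
  rw [← hΔd, habs] at hM
  rw [← hΔd] at hC₃
  rw [habs] at hC₂
  -- bounds for the pieces
  have hcgk : (c : ℤ) * g * k ≤ b := by
    rw [hb]
    have : (c : ℤ) ≤ c ^ 2 := by nlinarith
    calc (c : ℤ) * g * k = (k * g) * c := by ring
      _ ≤ (k * g) * c ^ 2 := mul_le_mul_of_nonneg_left this (by positivity)
  have hcg : (c : ℤ) * g ≤ b := by
    refine le_trans ?_ hcgk
    exact le_mul_of_one_le_right (by positivity) hk1
  have hccg : (c : ℤ) ^ 2 * g ≤ b := by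
    rw [hb]
    calc (c : ℤ) ^ 2 * g = (1 : ℤ) * ((g : ℤ) * (c : ℤ) ^ 2) := by ring
      _ ≤ (k : ℤ) * ((g : ℤ) * (c : ℤ) ^ 2) := mul_le_mul_of_nonneg_right hk1 (by positivity)
      _ = (k : ℤ) * g * (c : ℤ) ^ 2 := by ring
  have hgb : (g : ℤ) ≤ b := by
    refine le_trans ?_ hcg
    exact le_mul_of_one_le_left (by positivity) hc1
  have hkb : (k : ℤ) ≤ b := by
    refine le_trans ?_ hcgk
    have : (1 : ℤ) ≤ c * g := by nlinarith
    calc (k : ℤ) = 1 * k := by ring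
      _ ≤ (c * g) * k := mul_le_mul_of_nonneg_right this (by positivity)
  have heabs : |e| ≤ b * Δ := by
    have hne : (g : ℤ) * (a ^ 2 - 4 * b) ≠ 0 := mul_ne_zero (by positivity) hΔ
    have h3 : |e| ≤ |(g : ℤ) * (a ^ 2 - 4 * b)| :=
      Int.le_of_dvd (abs_pos.2 hne) ((abs_dvd_abs _ _).2 hed)
    rw [abs_mul, ← hΔd, abs_of_pos (by positivity : (0:ℤ) < g)] at h3
    exact h3.trans (mul_le_mul_of_nonneg_right hgb (by positivity))
  have he1 : 1 ≤ |e| := Int.one_le_abs he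
  obtain ⟨l, hl⟩ : ∃ l : ℤ, l = a * q - 2 * c * g * p := ⟨_, rfl⟩
  rw [← hl] at h1 ⊢
  have hl0 : l ≠ 0 := by
    rintro rfl
    rw [mul_zero] at h1
    exact (mul_ne_zero he hU.ne') h1
  have hl1 : 1 ≤ |l| := Int.one_le_abs hl0
  have hUl : U ≤ q * |l| := by
    have h3 : |e| * U = q * |l| := by
      have h4 := congrArg abs h1
      rw [abs_mul, abs_mul, abs_of_pos hU, abs_of_pos hq] at h4
      exact h4
    calc U = 1 * U := (one_mul U).symm
      _ ≤ |e| * U := mul_le_mul_of_nonneg_right he1 hU.le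
      _ = q * |l| := h3
  have heD : |e * D₁| ≤ b * Δ * A := by
    rw [abs_mul, ← hA]
    exact mul_le_mul_of_nonneg_right heabs (by linarith)
  have heD' := abs_le.1 heD
  have hq2 : 1 ≤ q ^ 2 := by nlinarith
  have hM1 : 1 ≤ M := by
    rw [hM]
    nlinarith
  constructor
  · have hp2 : p ^ 2 ≤ M * (q ^ 2 * A) := by
      have h3 : p ^ 2 ≤ g * p ^ 2 := le_mul_of_one_le_left (sq_nonneg p) hg1
      have h4 : (g : ℤ) * p ^ 2 = k * q ^ 2 + e * D₁ := by rw [h2]; ring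
      have h5 : (k : ℤ) * q ^ 2 ≤ b * (q ^ 2 * A) := by
        have h6 : (k : ℤ) * q ^ 2 ≤ b * q ^ 2 := mul_le_mul_of_nonneg_right hkb (sq_nonneg q)
        have h7 : b * q ^ 2 ≤ b * (q ^ 2 * A) :=
          mul_le_mul_of_nonneg_left (le_mul_of_one_le_right (sq_nonneg q) hA1) hbpos.le
        exact h6.trans h7
      have h6 : b * Δ * A ≤ b * Δ * (q ^ 2 * A) :=
        mul_le_mul_of_nonneg_left (le_mul_of_one_le_left (by linarith) hq2) (by positivity)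
      rw [hM]
      nlinarith [heD'.2]
    have hp3 : |p| ≤ M * (q * A) := by
      have h3 : p ^ 2 ≤ (M * (q * A)) ^ 2 := by
        refine hp2.trans ?_
        have h4 : M * A ≤ M ^ 2 * A ^ 2 := by
          have h5 : 1 ≤ M * A := by nlinarith
          nlinarith
        calc M * (q ^ 2 * A) = q ^ 2 * (M * A) := by ring
          _ ≤ q ^ 2 * (M ^ 2 * A ^ 2) := mul_le_mul_of_nonneg_left h4 (sq_nonneg q)
          _ = (M * (q * A)) ^ 2 := by ring
      exact abs_le_of_sq_le_sq h3 (by positivity)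
    have hlb : |l| ≤ C₂ * (q * A) := by
      have h3 : |l| ≤ |a| * q + 2 * (c * g) * |p| := by
        rw [hl]
        refine (abs_sub _ _).trans ?_
        rw [abs_mul, abs_of_pos hq, abs_mul]
        have h4 : |(2 * c * g : ℤ)| = 2 * (c * g) := by
          rw [abs_of_nonneg (by positivity)]
          ring
        rw [h4]
      have h4 : 2 * ((c : ℤ) * g) * |p| ≤ 2 * b * (M * (q * A)) := by
        refine mul_le_mul ?_ hp3 (abs_nonneg p) (by positivity)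
        linarith
      have h5 : |a| * q ≤ |a| * (q * A) :=
        mul_le_mul_of_nonneg_left (le_mul_of_one_le_right hq.le hA1) (abs_nonneg a)
      rw [hC₂]
      nlinarith
    calc U ≤ q * |l| := hUl
      _ ≤ q * (C₂ * (q * A)) := mul_le_mul_of_nonneg_left hlb hq.le
      _ = C₂ * q ^ 2 * A := by ring
      _ ≤ (C₂ + C₃ + 1) * q ^ 2 * A := by
        refine mul_le_mul_of_nonneg_right ?_ (by linarith)
        refine mul_le_mul_of_nonneg_right ?_ (sq_nonneg q)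
        linarith
  · have hid : (a ^ 2 - 4 * b) * q ^ 2 - 2 * a * q * l + l ^ 2 = 4 * (c ^ 2 * g) * (e * D₁) := by
      rw [h2, hl, hb]
      ring
    have hΔq : q ^ 2 ≤ 2 * |a| * (q * |l|) + l ^ 2 + 4 * b ^ 2 * Δ * A := by
      have h3 : |(a ^ 2 - 4 * b) * q ^ 2| = Δ * q ^ 2 := by
        rw [abs_mul, ← hΔd, abs_of_nonneg (sq_nonneg q)]
      have h4 : q ^ 2 ≤ Δ * q ^ 2 := le_mul_of_one_le_left (sq_nonneg q) hΔ1
      have h5 : (a ^ 2 - 4 * b) * q ^ 2 = 2 * a * q * l - l ^ 2 + 4 * (c ^ 2 * g) * (e * D₁) := by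
        linarith
      have h6 : |2 * a * q * l| = 2 * |a| * (q * |l|) := by
        rw [abs_mul, abs_mul, abs_mul, abs_of_pos hq, abs_two]
        ring
      have h7 : |4 * ((c : ℤ) ^ 2 * g) * (e * D₁)| ≤ 4 * b ^ 2 * Δ * A := by
        rw [abs_mul, abs_of_nonneg (by positivity : (0:ℤ) ≤ 4 * ((c : ℤ) ^ 2 * g))]
        calc 4 * ((c : ℤ) ^ 2 * g) * |e * D₁| ≤ 4 * b * (b * Δ * A) := by
              refine mul_le_mul ?_ heD (abs_nonneg _) (by positivity)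
              linarith
          _ = 4 * b ^ 2 * Δ * A := by ring
      have h8 : |2 * a * q * l - l ^ 2 + 4 * (c ^ 2 * g) * (e * D₁)|
          ≤ |2 * a * q * l| + l ^ 2 + |4 * ((c : ℤ) ^ 2 * g) * (e * D₁)| := by
        refine (abs_add_le _ _).trans (add_le_add_left ?_ _)
        refine (abs_sub _ _).trans ?_
        rw [abs_of_nonneg (sq_nonneg l)]
      rw [← h5, h3] at h8
      linarith
    have hqb : q ≤ C₃ * (|l| * A) := by
      by_contra hcon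
      push Not at hcon
      have hlA : |l| ≤ |l| * A := le_mul_of_one_le_right (abs_nonneg l) hA1
      have hC31 : 1 ≤ C₃ := by
        rw [hC₃]
        have : 0 ≤ 2 * |a| := by positivity
        have : 0 ≤ 4 * b ^ 2 * Δ := by positivity
        linarith
      have hql : |l| ≤ q := by
        have h3 : |l| * A ≤ C₃ * (|l| * A) := le_mul_of_one_le_left (by positivity) hC31
        linarith
      have h3 : q * (C₃ * (|l| * A)) < q ^ 2 := by
        rw [sq]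
        exact mul_lt_mul_of_pos_left hcon hq
      have h4 : q * (C₃ * (|l| * A)) = 2 * |a| * (q * |l|) * A + (q * |l|) * A
          + 4 * b ^ 2 * Δ * (q * |l|) * A := by
        rw [hC₃]
        ring
      have h5 : 2 * |a| * (q * |l|) ≤ 2 * |a| * (q * |l|) * A :=
        le_mul_of_one_le_right (by positivity) hA1
      have h6 : l ^ 2 ≤ (q * |l|) * A := by
        have h7 : l ^ 2 = |l| * |l| := by rw [← sq, sq_abs]
        rw [h7]
        calc |l| * |l| ≤ q * |l| := mul_le_mul_of_nonneg_right hql (abs_nonneg l)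
          _ ≤ (q * |l|) * A := le_mul_of_one_le_right (by positivity) hA1
      have h7 : 4 * b ^ 2 * Δ * A ≤ 4 * b ^ 2 * Δ * (q * |l|) * A := by
        have h8 : 1 ≤ q * |l| := by nlinarith
        refine mul_le_mul_of_nonneg_right ?_ (by linarith)
        exact le_mul_of_one_le_right (by positivity) h8
      linarith
    calc U ≤ q * |l| := hUl
      _ ≤ (C₃ * (|l| * A)) * |l| := mul_le_mul_of_nonneg_right hqb (abs_nonneg l)
      _ = C₃ * |l| ^ 2 * A := by ring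
      _ = C₃ * l ^ 2 * A := by rw [sq_abs]
      _ ≤ (C₂ + C₃ + 1) * l ^ 2 * A := by
        refine mul_le_mul_of_nonneg_right ?_ (by linarith)
        refine mul_le_mul_of_nonneg_right ?_ (sq_nonneg l)
        linarith

end TwT
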