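import Pool.Agent.LibTwT.TC1
import Pool.Agent.LibTwT.TC2
import Pool.Agent.LibTwT.TC4a

set_option autoImplicit false

namespace TwT

open TwHL

private theorem tc4_gcd {p q l G : ℤ} (hpq : IsCoprime p q) (h : ∃ x : ℤ, l = x * q - G * p) :
    Nat.gcd q.natAbs l.natAbs ∣ G.natAbs := by
  obtain ⟨x, hx⟩ := h
  have h1 : ((Nat.gcd q.natAbs l.natAbs : ℕ) : ℤ) ∣ q :=
    Int.natCast_dvd.2 (Nat.gcd_dvd_left _ _)
  have h2 : ((Nat.gcd q.natAbs l.natAbs : ℕ) : ℤ) ∣ l :=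
    Int.natCast_dvd.2 (Nat.gcd_dvd_right _ _)
  have h3 : ((Nat.gcd q.natAbs l.natAbs : ℕ) : ℤ) ∣ G * p := by
    have h4 : G * p = x * q - l := by rw [hx]; ring
    rw [h4]
    exact dvd_sub (h1.mul_left x) h2
  have h5 : IsCoprime ((Nat.gcd q.natAbs l.natAbs : ℕ) : ℤ) p :=
    (hpq.symm).of_isCoprime_of_dvd_left h1
  exact Int.natCast_dvd.1 (h5.dvd_of_dvd_mul_right h3)

private theorem tc4_fin {C₁ C₂ : ℕ} {hh A s k : ℕ} {U Q : ℤ} (hQ : Q = k * (s : ℤ) ^ 2)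
    (hk : k ^ 2 ≤ C₁ * hh) (hU : U ≤ C₂ * Q ^ 2 * A) :
    U ≤ (C₁ * C₂ : ℕ) * hh * A * (s : ℤ) ^ 4 := by
  have h1 : ((k : ℤ)) ^ 2 ≤ C₁ * hh := by exact_mod_cast hk
  have h2 : (C₂ : ℤ) * Q ^ 2 * A = (C₂ * A * (s : ℤ) ^ 4) * (k : ℤ) ^ 2 := by rw [hQ]; ring
  have h3 : (C₂ * A * (s : ℤ) ^ 4) * (k : ℤ) ^ 2 ≤ (C₂ * A * (s : ℤ) ^ 4) * (C₁ * hh) :=
    mul_le_mul_of_nonneg_left h1 (by positivity)
  calc U ≤ C₂ * Q ^ 2 * A := hU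
    _ = (C₂ * A * (s : ℤ) ^ 4) * (k : ℤ) ^ 2 := h2
    _ ≤ (C₂ * A * (s : ℤ) ^ 4) * (C₁ * hh) := h3
    _ = (C₁ * C₂ : ℕ) * hh * A * (s : ℤ) ^ 4 := by push_cast; ring

/-- Row TC4. One point of the T-class. `c, p, q, e` from `conic_param`, `l = a q - 2 c g p`. `l ≠ 0` as
`e U = q l`, `e, U ≠ 0`. `sqf_split` for `q`, `|l|`, `E = |e|`, `G = 2 c g` (`gcd (q, l) ∣ 2 c g p`, and
`gcd (p, q) = 1`). `c g ≤ b`, `|e| ≤ b |Δ|`: `k₁ k₂ ≤ C h`, so `min (k₁, k₂)^2 ≤ C h`.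
If `k₁ ≤ k₂`: first alternative, `z = g p`, `z^2 = g k q^2 + g e D₁`. Otherwise the second,
`z = Δ q - a l`: `z^2 = 4 b l^2 + 4 Δ c^2 g e D₁` (`Δ = a^2 - 4 k g c^2`, identity
`(a q - l)^2 - 4 c^2 g k q^2 = 4 c^2 g e D₁`). The errors are nonzero and `≤ C |D₁|`. Size of `s`: `t_size` (`U = h u^2`,
`A₀ = |D₁| ≥ 1`): `U ≤ C q^2 A₀`, `U ≤ C l^2 A₀`. In the first case `k₁^2 s^4 = q^2 ≥ U / (C A₀)` and
`k₁^2 ≤ C h`; in the second `k₂^2 t^4 = l^2 ≥ U / (C A₀)`, `k₂^2 ≤ C h`. So `C h A₀ s^4 ≥ h u^2` in both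
cases (`s` for `t` in the second). -/
theorem t_point (a b : ℤ) (hb : b ≠ 0) (hΔ : ¬ IsSquare (a ^ 2 - 4 * b)) :
    ∃ C : ℕ, 0 < C ∧ ∀ (D : ℤ) (h g k u w : ℕ) (D₁ : ℤ), Dec a b D h g k u w D₁ →
    IsSquare (b * k * g) → ¬ IsSquare (g * k) →
    ∃ (c : ℕ) (p q e : ℤ), 0 < c ∧ b = k * g * (c : ℤ) ^ 2 ∧ 0 < q ∧ e ≠ 0 ∧
      e * (h * (u : ℤ) ^ 2) = q * (a * q - 2 * c * g * p) ∧ e * D₁ = g * p ^ 2 - k * q ^ 2 ∧
      ∃ k₁ s : ℕ, 0 < k₁ ∧ k₁ ^ 2 ≤ C * h ∧ (h * u ^ 2 : ℤ) ≤ C * h * |D₁| * (s : ℤ) ^ 4 ∧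
      ((|q| = k₁ * (s : ℤ) ^ 2 ∧ (g * p) ^ 2 - (g * k : ℕ) * q ^ 2 ≠ 0 ∧
          |(g * p) ^ 2 - (g * k : ℕ) * q ^ 2| ≤ C * |D₁|) ∨
        (|a * q - 2 * c * g * p| = k₁ * (s : ℤ) ^ 2 ∧
          ((a ^ 2 - 4 * b) * q - a * (a * q - 2 * c * g * p)) ^ 2
              - 4 * b * (a * q - 2 * c * g * p) ^ 2 ≠ 0 ∧
          |((a ^ 2 - 4 * b) * q - a * (a * q - 2 * c * g * p)) ^ 2
              - 4 * b * (a * q - 2 * c * g * p) ^ 2| ≤ C * |D₁|)) := by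
  have hΔ0 : a ^ 2 - 4 * b ≠ 0 := by
    intro h0
    rw [h0] at hΔ
    exact hΔ (IsSquare.zero)
  obtain ⟨C₂, hC₂, hts⟩ := t_size a b hΔ0
  set Δ : ℤ := a ^ 2 - 4 * b with hΔdef
  have hbpos : 0 < b.natAbs := Int.natAbs_pos.2 hb
  have hΔpos : 0 < Δ.natAbs := Int.natAbs_pos.2 hΔ0
  -- constants
  let C₁ : ℕ := 4 * b.natAbs ^ 3 * Δ.natAbs
  let C₃ : ℕ := b.natAbs ^ 2 * Δ.natAbs
  let C₄ : ℕ := 4 * b.natAbs ^ 2 * Δ.natAbs ^ 2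
  have hC₁ : 0 < C₁ := by positivity
  refine ⟨C₁ * C₂ + C₁ + C₃ + C₄, by positivity, ?_⟩
  intro D h g k u w D₁ H hsq hns
  obtain ⟨c, p, q, e, hc, hbk, hq, hpq, he, hed, heU, heD⟩ := conic_param H hb hsq hns
  obtain ⟨hh, hg, hk, hu, hw, hDsf, hD, -, -, -, -, -⟩ := H
  have hD₁ : D₁ ≠ 0 := by
    rintro rfl
    rw [mul_zero] at hD
    rw [hD] at hDsf
    exact not_squarefree_zero hDsf
  refine ⟨c, p, q, e, hc, hbk, hq, he, heU, heD, ?_⟩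
  set l : ℤ := a * q - 2 * c * g * p with hl
  have hU : (0 : ℤ) < h * (u : ℤ) ^ 2 := by positivity
  have hl0 : l ≠ 0 := by
    intro h0
    rw [h0, mul_zero] at heU
    exact (mul_ne_zero he hU.ne') heU
  obtain ⟨ht1, ht2⟩ := hts c g k p q e (h * (u : ℤ) ^ 2) D₁ hc hg hk hbk hq he hed hU hD₁ heU heD
  rw [← hl] at ht2
  -- naturals
  have hq' : 0 < q.natAbs := Int.natAbs_pos.2 hq.ne'
  have hl' : 0 < l.natAbs := Int.natAbs_pos.2 hl0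
  have he' : 0 < e.natAbs := Int.natAbs_pos.2 he
  have heq : q.natAbs * l.natAbs = e.natAbs * h * u ^ 2 := by
    have h1 := congrArg Int.natAbs heU
    rw [Int.natAbs_mul, Int.natAbs_mul, Int.natAbs_mul, Int.natAbs_pow, Int.natAbs_natCast,
      Int.natAbs_natCast] at h1
    rw [← h1, mul_assoc]
  have hgcd : Nat.gcd q.natAbs l.natAbs ∣ 2 * c * g := by
    have h1 := tc4_gcd (l := l) (G := 2 * c * g) hpq ⟨a, hl⟩
    have h2 : (2 * (c : ℤ) * g).natAbs = 2 * c * g := by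
      rw [Int.natAbs_mul, Int.natAbs_mul, Int.natAbs_natCast, Int.natAbs_natCast]
      rfl
    rwa [h2] at h1
  obtain ⟨k₁, s, k₂, t, hk₁, hs, hk₂, ht, hqs, hlt, hkk⟩ := sqf_split q.natAbs l.natAbs e.natAbs h u
    (2 * c * g) hq' hl' he' hh hu (by positivity) heq hgcd
  -- bounds
  have hbn : b.natAbs = k * g * c ^ 2 := by
    have h1 := congrArg Int.natAbs hbk
    rw [h1, Int.natAbs_mul, Int.natAbs_mul, Int.natAbs_pow, Int.natAbs_natCast,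
      Int.natAbs_natCast, Int.natAbs_natCast]
  have hcg : c * g ≤ b.natAbs := by
    rw [hbn]
    nlinarith [Nat.mul_le_mul (Nat.mul_le_mul hk (le_refl g)) (Nat.mul_le_mul hc (le_refl c)),
      Nat.mul_pos hg hc]
  have hccg : c ^ 2 * g ≤ b.natAbs := by
    rw [hbn]
    calc c ^ 2 * g = 1 * (g * c ^ 2) := by ring
      _ ≤ k * (g * c ^ 2) := Nat.mul_le_mul_right _ hk
      _ = k * g * c ^ 2 := by ring
  have hgb : g ≤ b.natAbs := by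
    calc g = 1 * g := (one_mul g).symm
      _ ≤ c * g := Nat.mul_le_mul_right _ hc
      _ ≤ b.natAbs := hcg
  have heb : e.natAbs ≤ b.natAbs * Δ.natAbs := by
    have h1 : e.natAbs ∣ g * Δ.natAbs := by
      have h2 := Int.natAbs_dvd_natAbs.2 hed
      rwa [Int.natAbs_mul, Int.natAbs_natCast] at h2
    exact (Nat.le_of_dvd (by positivity) h1).trans (Nat.mul_le_mul_right _ hgb)
  have hkk' : k₁ * k₂ ≤ C₁ * h := by
    refine hkk.trans ?_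
    calc (2 * c * g) ^ 2 * (e.natAbs * h) = 4 * (c * g) ^ 2 * (e.natAbs * h) := by ring
      _ ≤ 4 * b.natAbs ^ 2 * (b.natAbs * Δ.natAbs * h) := by
        apply Nat.mul_le_mul
        · exact Nat.mul_le_mul_left 4 (Nat.pow_le_pow_left hcg 2)
        · exact Nat.mul_le_mul_right h heb
      _ = C₁ * h := by
        show _ = 4 * b.natAbs ^ 3 * Δ.natAbs * h
        ring
  have hDA : |D₁| = ((D₁.natAbs : ℕ) : ℤ) := (Int.natCast_natAbs D₁).symm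
  rw [hDA] at ht1 ht2 ⊢
  have hqabs : |q| = k₁ * (s : ℤ) ^ 2 := by
    rw [← Int.natCast_natAbs, hqs]
    push_cast
    ring
  have hlabs : |l| = k₂ * (t : ℤ) ^ 2 := by
    rw [← Int.natCast_natAbs, hlt]
    push_cast
    ring
  have hmono : ∀ {A₀ : ℕ} (s : ℕ), (h * (u : ℤ) ^ 2) ≤ (C₁ * C₂ : ℕ) * h * A₀ * (s : ℤ) ^ 4 →
      (h * (u : ℤ) ^ 2) ≤ ((C₁ * C₂ + C₁ + C₃ + C₄ : ℕ) : ℤ) * h * A₀ * (s : ℤ) ^ 4 := by
    intro A₀ s hs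
    refine hs.trans ?_
    have h1 : ((C₁ * C₂ : ℕ) : ℤ) ≤ ((C₁ * C₂ + C₁ + C₃ + C₄ : ℕ) : ℤ) := by
      exact_mod_cast (by omega : C₁ * C₂ ≤ C₁ * C₂ + C₁ + C₃ + C₄)
    have h2 := mul_le_mul_of_nonneg_right h1 (by positivity : (0 : ℤ) ≤ h * A₀ * (s : ℤ) ^ 4)
    calc ((C₁ * C₂ : ℕ) : ℤ) * h * A₀ * (s : ℤ) ^ 4
        = ((C₁ * C₂ : ℕ) : ℤ) * (h * A₀ * (s : ℤ) ^ 4) := by ring
      _ ≤ ((C₁ * C₂ + C₁ + C₃ + C₄ : ℕ) : ℤ) * (h * A₀ * (s : ℤ) ^ 4) := h2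
      _ = _ := by ring
  have hCle : C₁ * h ≤ (C₁ * C₂ + C₁ + C₃ + C₄) * h := Nat.mul_le_mul_right h (by omega)
  rcases le_total k₁ k₂ with hle | hle
  · refine ⟨k₁, s, hk₁, ?_, ?_, Or.inl ⟨hqabs, ?_, ?_⟩⟩
    · have h1 : k₁ ^ 2 ≤ k₁ * k₂ := by rw [sq]; exact Nat.mul_le_mul_left _ hle
      exact (h1.trans hkk').trans hCle
    · apply hmono
      apply tc4_fin (Q := |q|) hqabs
      · have h1 : k₁ ^ 2 ≤ k₁ * k₂ := by rw [sq]; exact Nat.mul_le_mul_left _ hle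
        exact h1.trans hkk'
      · rw [sq_abs]
        exact ht1
    · have h1 : ((g : ℤ) * p) ^ 2 - ((g * k : ℕ) : ℤ) * q ^ 2 = g * (e * D₁) := by
        rw [heD]
        push_cast
        ring
      rw [h1]
      have : (g : ℤ) ≠ 0 := by exact_mod_cast hg.ne'
      exact mul_ne_zero this (mul_ne_zero he hD₁)
    · have h1 : ((g : ℤ) * p) ^ 2 - ((g * k : ℕ) : ℤ) * q ^ 2 = g * (e * D₁) := by
        rw [heD]
        push_cast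
        ring
      rw [h1, abs_mul, abs_mul, ← Int.natCast_natAbs e, ← Int.natCast_natAbs D₁, Nat.abs_cast]
      have h2 : g * (e.natAbs * D₁.natAbs) ≤ (C₁ * C₂ + C₁ + C₃ + C₄) * D₁.natAbs := by
        calc g * (e.natAbs * D₁.natAbs) = g * e.natAbs * D₁.natAbs := by ring
          _ ≤ b.natAbs * (b.natAbs * Δ.natAbs) * D₁.natAbs :=
            Nat.mul_le_mul_right _ (Nat.mul_le_mul hgb heb)
          _ = C₃ * D₁.natAbs := by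
            show _ = b.natAbs ^ 2 * Δ.natAbs * D₁.natAbs
            ring
          _ ≤ _ := Nat.mul_le_mul_right _ (by omega)
      exact_mod_cast h2
  · refine ⟨k₂, t, hk₂, ?_, ?_, Or.inr ⟨hlabs, ?_, ?_⟩⟩
    · have h1 : k₂ ^ 2 ≤ k₁ * k₂ := by rw [sq]; exact Nat.mul_le_mul_right _ hle
      exact (h1.trans hkk').trans hCle
    · apply hmono
      apply tc4_fin (Q := |l|) hlabs
      · have h1 : k₂ ^ 2 ≤ k₁ * k₂ := by rw [sq]; exact Nat.mul_le_mul_right _ hle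
        exact h1.trans hkk'
      · rw [sq_abs]
        exact ht2
    · have h1 : (Δ * q - a * l) ^ 2 - 4 * b * l ^ 2 = 4 * Δ * (c ^ 2 * g) * (e * D₁) := by
        rw [heD, hΔdef, hl, hbk]
        ring
      rw [h1]
      have h2 : (g : ℤ) ≠ 0 := by exact_mod_cast hg.ne'
      have h3 : (c : ℤ) ≠ 0 := by exact_mod_cast hc.ne'
      exact mul_ne_zero (mul_ne_zero (mul_ne_zero (by norm_num) hΔ0)
        (mul_ne_zero (pow_ne_zero 2 h3) h2)) (mul_ne_zero he hD₁)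
    · have h1 : (Δ * q - a * l) ^ 2 - 4 * b * l ^ 2 = 4 * Δ * ((c ^ 2 * g : ℕ) : ℤ) * (e * D₁) := by
        rw [heD, hΔdef, hl, hbk]
        push_cast
        ring
      rw [h1, abs_mul, abs_mul, abs_mul, abs_mul, ← Int.natCast_natAbs e,
        ← Int.natCast_natAbs D₁, Nat.abs_cast, ← Int.natCast_natAbs Δ]
      have h2 : 4 * Δ.natAbs * (c ^ 2 * g) * (e.natAbs * D₁.natAbs) ≤
          (C₁ * C₂ + C₁ + C₃ + C₄) * D₁.natAbs := by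
        calc 4 * Δ.natAbs * (c ^ 2 * g) * (e.natAbs * D₁.natAbs)
            = 4 * Δ.natAbs * (c ^ 2 * g * e.natAbs) * D₁.natAbs := by ring
          _ ≤ 4 * Δ.natAbs * (b.natAbs * (b.natAbs * Δ.natAbs)) * D₁.natAbs :=
            Nat.mul_le_mul_right _ (Nat.mul_le_mul_left _ (Nat.mul_le_mul hccg heb))
          _ = C₄ * D₁.natAbs := by
            show _ = 4 * b.natAbs ^ 2 * Δ.natAbs ^ 2 * D₁.natAbs
            ring
          _ ≤ _ := Nat.mul_le_mul_right _ (by omega)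
      have h3 : |(4 : ℤ)| = ((4 : ℕ) : ℤ) := rfl
      rw [h3]
      exact_mod_cast h2

end TwT
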