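import Mathlib

set_option autoImplicit false

namespace TwT

/-- Row TC5a. `s` is large. `N^(2+δ) ≤ c₁ g h k (h u^2) ≤ c₁ g h k C h |D₁| s^4 ≤ c₁ C |b| N^2 s^4`
(`h g |D₁| ≤ N`, `h ≤ N`), so `s^4 ≥ N^δ / (c₁ C |b|)`, which exceeds the fourth power of the right
side (a power of `log N`) for `N ≥ N₀`. -/
theorem t_large (b : ℤ) (hb : b ≠ 0) (δ c₁ : ℝ) (hδ : 0 < δ) (hc₁ : 0 < c₁) (C : ℕ) :
    ∃ N₀ : ℕ, ∀ N : ℕ, N₀ ≤ N → ∀ (h g k u s : ℕ) (D₁ : ℤ), 0 < h → 0 < g → 0 < k → D₁ ≠ 0 →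
    (h * g * |D₁| : ℤ) ≤ N → (k : ℤ) ≤ |b| →
    (N : ℝ) ^ (2 + δ) ≤ c₁ * ((h * g * (h * k * u ^ 2) : ℕ) : ℝ) →
    (h * u ^ 2 : ℤ) ≤ C * h * |D₁| * (s : ℤ) ^ 4 →
    6400 * (4 * b.natAbs * (C * (⌊(Real.log N) ^ 5⌋₊ + 1))) ^ 4 < s := by
  obtain ⟨K, hK⟩ : ∃ K : ℝ, K = c₁ * C * (b.natAbs : ℝ) *
      (6400 * (8 * (b.natAbs : ℝ) * C) ^ 4) ^ 4 + 1 := ⟨_, rfl⟩
  have hK0 : 0 < K := by rw [hK]; positivity
  have hlo := (isLittleO_log_rpow_rpow_atTop (80 : ℝ) hδ).bound (show (0 : ℝ) < 1 / K by positivity)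
  have hlo2 : ∀ᶠ N : ℕ in Filter.atTop, ‖Real.log (N : ℝ) ^ (80 : ℝ)‖ ≤ 1 / K * ‖(N : ℝ) ^ δ‖ :=
    tendsto_natCast_atTop_atTop.eventually hlo
  obtain ⟨N₁, hN₁⟩ := Filter.eventually_atTop.1 hlo2
  refine ⟨max N₁ 3, ?_⟩
  intro N hN h g k u s D₁ hh hg hk hD hhgN hkb hbig hsize
  have hNN₁ : N₁ ≤ N := (le_max_left _ _).trans hN
  have hN3 : 3 ≤ N := (le_max_right _ _).trans hN
  have hN3' : (3 : ℝ) ≤ (N : ℝ) := by exact_mod_cast hN3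
  have hN0 : (0 : ℝ) < (N : ℝ) := by linarith
  obtain ⟨L, hL⟩ : ∃ L : ℝ, L = Real.log (N : ℝ) := ⟨_, rfl⟩
  have hL1 : 1 ≤ L := by
    rw [hL, ← Real.log_exp 1]
    refine Real.log_le_log (Real.exp_pos 1) ?_
    have := Real.exp_one_lt_d9
    linarith
  have hbound : L ^ 80 ≤ 1 / K * (N : ℝ) ^ δ := by
    have h1 := hN₁ N hNN₁
    rw [← hL] at h1
    have h2 : L ^ (80 : ℝ) = L ^ 80 := by
      rw [show (80 : ℝ) = ((80 : ℕ) : ℝ) by norm_num, Real.rpow_natCast]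
    rw [h2, Real.norm_of_nonneg (by positivity), Real.norm_of_nonneg (by positivity)] at h1
    exact h1
  rw [← hL]
  by_contra hcon
  push Not at hcon
  have hbn : ((b.natAbs : ℕ) : ℤ) = |b| := Int.natCast_natAbs b
  -- real inequalities
  have hsr : (s : ℝ) ≤ 6400 * (8 * (b.natAbs : ℝ) * C) ^ 4 * L ^ 20 := by
    have h1 : (s : ℝ) ≤ ((6400 * (4 * b.natAbs * (C * (⌊L ^ 5⌋₊ + 1))) ^ 4 : ℕ) : ℝ) := by
      exact_mod_cast hcon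
    refine h1.trans ?_
    push_cast
    have h2 : ((⌊L ^ 5⌋₊ : ℕ) : ℝ) ≤ L ^ 5 := Nat.floor_le (by positivity)
    have h3 : (1 : ℝ) ≤ L ^ 5 := one_le_pow₀ hL1
    have h4 : ((⌊L ^ 5⌋₊ : ℕ) : ℝ) + 1 ≤ 2 * L ^ 5 := by linarith
    have h5 : 4 * (b.natAbs : ℝ) * (C * (((⌊L ^ 5⌋₊ : ℕ) : ℝ) + 1))
        ≤ 8 * (b.natAbs : ℝ) * C * L ^ 5 := by
      calc 4 * (b.natAbs : ℝ) * (C * (((⌊L ^ 5⌋₊ : ℕ) : ℝ) + 1))
          ≤ 4 * (b.natAbs : ℝ) * (C * (2 * L ^ 5)) := by gcongr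
        _ = 8 * (b.natAbs : ℝ) * C * L ^ 5 := by ring
    calc 6400 * (4 * (b.natAbs : ℝ) * (C * (((⌊L ^ 5⌋₊ : ℕ) : ℝ) + 1))) ^ 4
        ≤ 6400 * (8 * (b.natAbs : ℝ) * C * L ^ 5) ^ 4 := by gcongr
      _ = 6400 * (8 * (b.natAbs : ℝ) * C) ^ 4 * L ^ 20 := by ring
  have hs4 : (s : ℝ) ^ 4 ≤ (6400 * (8 * (b.natAbs : ℝ) * C) ^ 4) ^ 4 * L ^ 80 := by
    calc (s : ℝ) ^ 4 ≤ (6400 * (8 * (b.natAbs : ℝ) * C) ^ 4 * L ^ 20) ^ 4 := by gcongr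
      _ = (6400 * (8 * (b.natAbs : ℝ) * C) ^ 4) ^ 4 * L ^ 80 := by ring
  have hhg1 : (h * g * |D₁| : ℤ) ≤ N := hhgN
  have hD1 : 1 ≤ |D₁| := Int.one_le_abs hD
  have hhN : (h : ℤ) ≤ N := by
    refine le_trans ?_ hhg1
    have h1 : (1 : ℤ) ≤ g := by exact_mod_cast hg
    have h2 : (1 : ℤ) ≤ g * |D₁| := by nlinarith
    calc (h : ℤ) = h * 1 := (mul_one _).symm
      _ ≤ h * (g * |D₁|) := mul_le_mul_of_nonneg_left h2 (by positivity)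
      _ = h * g * |D₁| := by ring
  have hprod : ((h * g * (h * k * u ^ 2) : ℕ) : ℤ) ≤ N * (N * (b.natAbs * (C * (s : ℤ) ^ 4))) := by
    calc ((h * g * (h * k * u ^ 2) : ℕ) : ℤ) = (h * g * k) * (h * u ^ 2 : ℤ) := by push_cast; ring
      _ ≤ (h * g * k) * (C * h * |D₁| * (s : ℤ) ^ 4) :=
        mul_le_mul_of_nonneg_left hsize (by positivity)
      _ = (h * g * |D₁|) * (h * (k * (C * (s : ℤ) ^ 4))) := by ring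
      _ ≤ N * (N * (b.natAbs * (C * (s : ℤ) ^ 4))) := by
        rw [hbn]
        gcongr
  have hprodR : (((h * g * (h * k * u ^ 2) : ℕ)) : ℝ)
      ≤ N * (N * ((b.natAbs : ℝ) * (C * (s : ℝ) ^ 4))) := by exact_mod_cast hprod
  have h1 : (N : ℝ) ^ (2 + δ) = (N : ℝ) ^ 2 * (N : ℝ) ^ δ := by
    rw [Real.rpow_add hN0, Real.rpow_two]
  have h2 : (N : ℝ) ^ 2 * (N : ℝ) ^ δ ≤ (N : ℝ) ^ 2 * (c₁ * C * (b.natAbs : ℝ) * (s : ℝ) ^ 4) := by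
    rw [← h1]
    refine hbig.trans ?_
    calc c₁ * (((h * g * (h * k * u ^ 2) : ℕ)) : ℝ)
        ≤ c₁ * (N * (N * ((b.natAbs : ℝ) * (C * (s : ℝ) ^ 4)))) :=
          mul_le_mul_of_nonneg_left hprodR hc₁.le
      _ = (N : ℝ) ^ 2 * (c₁ * C * (b.natAbs : ℝ) * (s : ℝ) ^ 4) := by ring
  have h3 : (N : ℝ) ^ δ ≤ c₁ * C * (b.natAbs : ℝ) * (s : ℝ) ^ 4 :=
    le_of_mul_le_mul_left h2 (by positivity)
  have h4 : (N : ℝ) ^ δ ≤ (K - 1) * L ^ 80 := by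
    refine h3.trans ?_
    calc c₁ * C * (b.natAbs : ℝ) * (s : ℝ) ^ 4
        ≤ c₁ * C * (b.natAbs : ℝ) * ((6400 * (8 * (b.natAbs : ℝ) * C) ^ 4) ^ 4 * L ^ 80) := by
          gcongr
      _ = (K - 1) * L ^ 80 := by rw [hK]; ring
  have h5 : K * L ^ 80 ≤ (N : ℝ) ^ δ := by
    have h6 := mul_le_mul_of_nonneg_left hbound hK0.le
    have h7 : K * (1 / K * (N : ℝ) ^ δ) = (N : ℝ) ^ δ := by
      field_simp
    rw [h7] at h6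
    exact h6
  have h6 : (0 : ℝ) < L ^ 80 := by positivity
  nlinarith

end TwT
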