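import Pool.Agent.LibTwT.W5
import Pool.Agent.LibTwT.TC3
import Pool.Agent.LibTwT.TC4
import Pool.Agent.LibTwT.TC5a

set_option autoImplicit false

namespace TwT

open TwHL

private theorem tc5_ev (c : ℝ) (n : ℕ) : ∀ᶠ x : ℝ in Filter.atTop, c * (Real.log x) ^ n ≤ x := by
  have h1 := (Real.isLittleO_pow_log_id_atTop (n := n)).def (c := 1 / (|c| + 1)) (by positivity)
  filter_upwards [h1, Filter.eventually_ge_atTop (0 : ℝ)] with x hx hx0
  rw [id, Real.norm_eq_abs, Real.norm_eq_abs, abs_of_nonneg hx0] at hx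
  have h2 : c * (Real.log x) ^ n ≤ |c| * |Real.log x ^ n| := by
    rw [← abs_mul]
    exact le_abs_self _
  have h3 : |c| * |Real.log x ^ n| ≤ |c| * (1 / (|c| + 1) * x) :=
    mul_le_mul_of_nonneg_left hx (abs_nonneg c)
  have h4 : |c| * (1 / (|c| + 1) * x) ≤ x := by
    have h5 : |c| * (1 / (|c| + 1)) ≤ 1 := by
      rw [mul_one_div, div_le_one (by positivity)]
      linarith
    calc |c| * (1 / (|c| + 1) * x) = (|c| * (1 / (|c| + 1))) * x := by ring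
      _ ≤ 1 * x := mul_le_mul_of_nonneg_right h5 hx0
      _ = x := one_mul x
  linarith

private theorem tc5_analytic (b' C : ℕ) (η : ℝ) (hη : 0 < η) : ∃ N₀ : ℕ, ∀ N : ℕ, N₀ ≤ N →
    20 ≤ N ∧ 4 * b' * Nat.sqrt (C * N) ≤ N ∧
    4 * b' * (C * (⌊(Real.log N) ^ 5⌋₊ + 1)) ≤ N ∧
    (b' : ℝ) * b' * 2 * (64 * ((4 * b' : ℕ) : ℝ) ^ 2 * (Nat.sqrt (C * N) : ℝ) *
      ((C * (⌊(Real.log N) ^ 5⌋₊ + 1) : ℕ) : ℝ) ^ 2 *
        (20 + 2 * Real.log (1 + Real.log N))) ≤ η * N := by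
  obtain ⟨κ, hκ⟩ : ∃ κ : ℝ, κ = 2048 * 4096 * 44 * (b' : ℝ) ^ 4 * (C + 1) * (C : ℝ) ^ 2 := ⟨_, rfl⟩
  have hev : ∀ᶠ x : ℝ in Filter.atTop, 5 ≤ x ∧ 4 * (b' : ℝ) * (C + 1) ≤ x ∧
      256 * (b' : ℝ) * C * (Real.log x) ^ 5 ≤ x ∧ κ / η * (Real.log x) ^ 11 ≤ x := by
    filter_upwards [Filter.eventually_ge_atTop (5 : ℝ),
      Filter.eventually_ge_atTop (4 * (b' : ℝ) * (C + 1)), tc5_ev (256 * (b' : ℝ) * C) 5,
      tc5_ev (κ / η) 11] with x h1 h2 h3 h4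
    exact ⟨h1, h2, h3, h4⟩
  have htend : Filter.Tendsto (fun N : ℕ => Real.sqrt (N : ℝ)) Filter.atTop Filter.atTop :=
    Real.tendsto_sqrt_atTop.comp tendsto_natCast_atTop_atTop
  obtain ⟨N₀, hN₀⟩ := Filter.eventually_atTop.1 (htend.eventually hev)
  refine ⟨N₀, fun N hN => ?_⟩
  obtain ⟨h1, h2, h3, h4⟩ := hN₀ N hN
  obtain ⟨x, hx⟩ : ∃ x : ℝ, x = Real.sqrt (N : ℝ) := ⟨_, rfl⟩
  rw [← hx] at h1 h2 h3 h4
  have hx0 : 0 < x := by linarith
  have hxx : x * x = N := by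
    rw [hx]
    exact Real.mul_self_sqrt (Nat.cast_nonneg N)
  have hNr : (25 : ℝ) ≤ N := by nlinarith
  have hN25 : 25 ≤ N := by exact_mod_cast hNr
  have hlogN : Real.log N = 2 * Real.log x := by
    rw [← hxx, Real.log_mul hx0.ne' hx0.ne']
    ring
  have hlogx : 1 ≤ Real.log x := by
    have e1 : Real.log (Real.exp 1) ≤ Real.log x := by
      apply Real.log_le_log (Real.exp_pos 1)
      have := Real.exp_one_lt_d9
      linarith
    rwa [Real.log_exp] at e1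
  have hb0 : (0 : ℝ) ≤ b' := Nat.cast_nonneg b'
  have hC0 : (0 : ℝ) ≤ C := Nat.cast_nonneg C
  have hK : (Nat.sqrt (C * N) : ℝ) ≤ (C + 1) * x := by
    refine Real.nat_sqrt_le_real_sqrt.trans ?_
    rw [Real.sqrt_le_left (by positivity)]
    push_cast
    have e1 : ((C : ℝ) + 1) * x * (((C : ℝ) + 1) * x) = (C + 1) ^ 2 * (x * x) := by ring
    rw [sq, e1, hxx]
    apply mul_le_mul_of_nonneg_right _ (Nat.cast_nonneg N)
    nlinarith
  have hfl : ((⌊(Real.log N) ^ 5⌋₊ : ℕ) : ℝ) ≤ (Real.log N) ^ 5 :=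
    Nat.floor_le (by rw [hlogN]; positivity)
  have hA : ((C * (⌊(Real.log N) ^ 5⌋₊ + 1) : ℕ) : ℝ) ≤ 64 * C * (Real.log x) ^ 5 := by
    push_cast
    have e1 : (Real.log N) ^ 5 = 32 * (Real.log x) ^ 5 := by rw [hlogN]; ring
    rw [e1] at hfl
    rw [e1]
    have e2 : (1 : ℝ) ≤ (Real.log x) ^ 5 := one_le_pow₀ hlogx
    have e3 : ((⌊32 * (Real.log x) ^ 5⌋₊ : ℕ) : ℝ) + 1 ≤ 64 * (Real.log x) ^ 5 := by linarith
    calc (C : ℝ) * (((⌊32 * (Real.log x) ^ 5⌋₊ : ℕ) : ℝ) + 1) ≤ C * (64 * (Real.log x) ^ 5) :=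
          mul_le_mul_of_nonneg_left e3 hC0
      _ = 64 * C * (Real.log x) ^ 5 := by ring
  refine ⟨by omega, ?_, ?_, ?_⟩
  · have e1 : (4 : ℝ) * b' * (Nat.sqrt (C * N) : ℝ) ≤ N := by
      calc (4 : ℝ) * b' * (Nat.sqrt (C * N) : ℝ) ≤ 4 * b' * ((C + 1) * x) :=
            mul_le_mul_of_nonneg_left hK (by positivity)
        _ = (4 * b' * (C + 1)) * x := by ring
        _ ≤ x * x := mul_le_mul_of_nonneg_right h2 hx0.le
        _ = N := hxx
    exact_mod_cast e1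
  · have e1 : (4 : ℝ) * b' * ((C * (⌊(Real.log N) ^ 5⌋₊ + 1) : ℕ) : ℝ) ≤ N := by
      calc (4 : ℝ) * b' * ((C * (⌊(Real.log N) ^ 5⌋₊ + 1) : ℕ) : ℝ)
          ≤ 4 * b' * (64 * C * (Real.log x) ^ 5) := mul_le_mul_of_nonneg_left hA (by positivity)
        _ = 256 * b' * C * (Real.log x) ^ 5 := by ring
        _ ≤ x := h3
        _ ≤ x * x := by nlinarith
        _ = N := hxx
    exact_mod_cast e1
  · have hlog : 20 + 2 * Real.log (1 + Real.log N) ≤ 44 * Real.log x := by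
      have e1 : Real.log (1 + Real.log N) ≤ Real.log N := by
        have e2 : (0 : ℝ) < 1 + Real.log N := by rw [hlogN]; linarith
        have := Real.log_le_sub_one_of_pos e2
        linarith
      rw [hlogN] at e1
      rw [hlogN]
      linarith
    have hlog0 : 0 ≤ 20 + 2 * Real.log (1 + Real.log N) := by
      have e2 : (1 : ℝ) ≤ 1 + Real.log N := by rw [hlogN]; linarith
      have := Real.log_nonneg e2
      linarith
    have e1 : 64 * ((4 * b' : ℕ) : ℝ) ^ 2 * (Nat.sqrt (C * N) : ℝ) ≤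
        64 * ((4 * b' : ℕ) : ℝ) ^ 2 * ((C + 1) * x) := mul_le_mul_of_nonneg_left hK (by positivity)
    have e2 : ((C * (⌊(Real.log N) ^ 5⌋₊ + 1) : ℕ) : ℝ) ^ 2 ≤ (64 * C * (Real.log x) ^ 5) ^ 2 :=
      pow_le_pow_left₀ (Nat.cast_nonneg _) hA 2
    have e3 : 64 * ((4 * b' : ℕ) : ℝ) ^ 2 * (Nat.sqrt (C * N) : ℝ) *
        ((C * (⌊(Real.log N) ^ 5⌋₊ + 1) : ℕ) : ℝ) ^ 2 ≤
        64 * ((4 * b' : ℕ) : ℝ) ^ 2 * ((C + 1) * x) * (64 * C * (Real.log x) ^ 5) ^ 2 :=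
      mul_le_mul e1 e2 (by positivity) (by positivity)
    have e4 : 64 * ((4 * b' : ℕ) : ℝ) ^ 2 * (Nat.sqrt (C * N) : ℝ) *
        ((C * (⌊(Real.log N) ^ 5⌋₊ + 1) : ℕ) : ℝ) ^ 2 * (20 + 2 * Real.log (1 + Real.log N)) ≤
        64 * ((4 * b' : ℕ) : ℝ) ^ 2 * ((C + 1) * x) * (64 * C * (Real.log x) ^ 5) ^ 2 *
          (44 * Real.log x) := mul_le_mul e3 hlog hlog0 (by positivity)
    calc (b' : ℝ) * b' * 2 * (64 * ((4 * b' : ℕ) : ℝ) ^ 2 * (Nat.sqrt (C * N) : ℝ) *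
          ((C * (⌊(Real.log N) ^ 5⌋₊ + 1) : ℕ) : ℝ) ^ 2 * (20 + 2 * Real.log (1 + Real.log N)))
        ≤ (b' : ℝ) * b' * 2 * (64 * ((4 * b' : ℕ) : ℝ) ^ 2 * ((C + 1) * x) *
          (64 * C * (Real.log x) ^ 5) ^ 2 * (44 * Real.log x)) :=
          mul_le_mul_of_nonneg_left e4 (by positivity)
      _ = κ * (Real.log x) ^ 11 * x := by
          rw [hκ]
          push_cast
          ring
      _ = η * ((κ / η * (Real.log x) ^ 11) * x) := by
          field_simp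
      _ ≤ η * (x * x) := mul_le_mul_of_nonneg_left (mul_le_mul_of_nonneg_right h4 hx0.le) hη.le
      _ = η * N := by rw [hxx]

/-- the data of `D` -/
private def Pk (a b D : ℤ) (g k : ℕ) (alt : Bool) (x : ℤ × ℤ) : Prop :=
  ∃ (h u w : ℕ) (D₁ : ℤ) (c : ℕ) (p q e : ℤ), Dec a b D h g k u w D₁ ∧ 0 < c ∧
    b = k * g * (c : ℤ) ^ 2 ∧ e ≠ 0 ∧
    e * (h * (u : ℤ) ^ 2) = q * (a * q - 2 * c * g * p) ∧ e * D₁ = g * p ^ 2 - k * q ^ 2 ∧
    x = if alt then ((g : ℤ) * p, q) else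
      ((a ^ 2 - 4 * b) * q - a * (a * q - 2 * c * g * p), a * q - 2 * c * g * p)

private theorem pk_inj {a b D D' : ℤ} (hΔ : a ^ 2 - 4 * b ≠ 0) {g k : ℕ} {alt : Bool} {x : ℤ × ℤ}
    (H : Pk a b D g k alt x) (H' : Pk a b D' g k alt x) : D = D' := by
  obtain ⟨h, u, w, D₁, c, p, q, e, hD, hc, hbc, he, h1, h2, hx⟩ := H
  obtain ⟨h', u', w', D₁', c', p', q', e', hD', hc', hbc', he', h1', h2', hx'⟩ := H'
  have hg : (g : ℤ) ≠ 0 := by
    have := hD.2.1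
    exact_mod_cast this.ne'
  have hk : (k : ℤ) ≠ 0 := by
    have := hD.2.2.1
    exact_mod_cast this.ne'
  have hcc : c = c' := by
    have e1 : (k : ℤ) * g * (c : ℤ) ^ 2 = k * g * (c' : ℤ) ^ 2 := by rw [← hbc, ← hbc']
    have e2 : (c : ℤ) ^ 2 = (c' : ℤ) ^ 2 := mul_left_cancel₀ (mul_ne_zero hk hg) e1
    have e3 : c ^ 2 = c' ^ 2 := by exact_mod_cast e2
    exact Nat.pow_left_injective (n := 2) (by norm_num) e3
  subst hcc
  have hcz : (c : ℤ) ≠ 0 := by exact_mod_cast hc.ne'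
  have hpq : p = p' ∧ q = q' := by
    rw [hx] at hx'
    cases alt
    · simp only [Bool.false_eq_true, if_false, Prod.mk.injEq] at hx'
      obtain ⟨e1, e2⟩ := hx'
      have hq : q = q' := by
        rw [e2] at e1
        have e3 : (a ^ 2 - 4 * b) * q = (a ^ 2 - 4 * b) * q' := by linarith
        exact mul_left_cancel₀ hΔ e3
      subst hq
      refine ⟨?_, rfl⟩
      have e3 : (2 * c * g : ℤ) * p = (2 * c * g : ℤ) * p' := by linarith
      exact mul_left_cancel₀ (mul_ne_zero (mul_ne_zero two_ne_zero hcz) hg) e3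
    · simp only [if_true, Prod.mk.injEq] at hx'
      exact ⟨mul_left_cancel₀ hg hx'.1, hx'.2⟩
  obtain ⟨rfl, rfl⟩ := hpq
  exact det_D hD hD' c c p q e e' hc hc' hbc hbc' he he' h1 h2 h1' h2'

/-- Row TC5. The T-class. For `D ∈ S` choose the data of `t_point`. `A = C (⌊(log N)^5⌋₊ + 1)`,
`K₀ = ⌊√(C N)⌋`, `B = g k` or `4 b` (both `≤ 4 b`), `T = N` (`N ≥ N₀`). `s` is large enough for `t_count`
by `t_large` (`B ≤ 4 |b|`, `A = C (⌊(log N)^5⌋₊ + 1)`). For each `(g, k)` (both `≤ b`) and each alternative the map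
`D ↦ (g p, q)` resp. `D ↦ (Δ q - a l, l)` is injective (`p`, `q` are recovered: `p = z / g`;
`q = (z + a l) / Δ`, `p = (a q - l) / (2 c g)`; then `det_D`), so `t_count` bounds the number:
total `≤ 2 b^2 * 64 (4b)^2 √(CN) A^2 (20 + 2 log (1 + log N)) ≤ η N`. -/
theorem T_class (a b : ℤ) (hb : b ≠ 0) (hΔ : ¬ IsSquare (a ^ 2 - 4 * b)) (δ c₁ η : ℝ)
    (hδ : 0 < δ) (hc₁ : 0 < c₁) (hη : 0 < η) : ∃ N₀ : ℕ, ∀ N : ℕ, N₀ ≤ N → ∀ S : Finset ℤ,
    (∀ D ∈ S, |D| ≤ N ∧ ∃ (h g k u w : ℕ) (D₁ : ℤ), Dec a b D h g k u w D₁ ∧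
      ((|D₁| : ℤ) : ℝ) ≤ (Real.log N) ^ 5 ∧ IsSquare (b * k * g) ∧ ¬ IsSquare (g * k) ∧
      (N : ℝ) ^ (2 + δ) ≤ c₁ * ((h * g * (h * k * u ^ 2) : ℕ) : ℝ)) →
    (S.card : ℝ) ≤ η * N := by
  classical
  have hΔ0 : a ^ 2 - 4 * b ≠ 0 := by
    intro h0
    rw [h0] at hΔ
    exact hΔ ⟨0, rfl⟩
  obtain ⟨C, hC, hpt⟩ := t_point a b hb hΔ
  obtain ⟨N₁, hN₁⟩ := t_large b hb δ c₁ hδ hc₁ C
  obtain ⟨N₂, hN₂⟩ := tc5_analytic b.natAbs C η hη
  refine ⟨max N₁ N₂, fun N hN S hS => ?_⟩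
  obtain ⟨hN20, hBK, hBA, hfin⟩ := hN₂ N ((le_max_right _ _).trans hN)
  have hlarge := hN₁ N ((le_max_left _ _).trans hN)
  obtain ⟨K₀, hK₀⟩ : ∃ K₀ : ℕ, K₀ = Nat.sqrt (C * N) := ⟨_, rfl⟩
  obtain ⟨A, hA⟩ : ∃ A : ℕ, A = C * (⌊(Real.log N) ^ 5⌋₊ + 1) := ⟨_, rfl⟩
  rw [← hK₀] at hBK
  rw [← hA] at hBA
  rw [← hK₀, ← hA] at hfin
  -- the data
  have hdata : ∀ D : ℤ, ∃ (y : ℕ × ℕ × Bool) (x : ℤ × ℤ), D ∈ S →
      (1 ≤ y.1 ∧ y.1 ≤ b.natAbs ∧ 1 ≤ y.2.1 ∧ y.2.1 ≤ b.natAbs ∧ y.1 * y.2.1 ≤ b.natAbs ∧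
        0 < b) ∧
      Pk a b D y.1 y.2.1 y.2.2 x ∧
      ∃ k₁ s : ℕ, 0 < k₁ ∧ k₁ ≤ K₀ ∧ 6400 * (4 * b.natAbs * A) ^ 4 < s ∧
        |x.2| = k₁ * (s : ℤ) ^ 2 ∧
        x.1 ^ 2 - ((if y.2.2 then y.1 * y.2.1 else 4 * b.natAbs : ℕ) : ℤ) * x.2 ^ 2 ≠ 0 ∧
        |x.1 ^ 2 - ((if y.2.2 then y.1 * y.2.1 else 4 * b.natAbs : ℕ) : ℤ) * x.2 ^ 2| ≤ A := by
    intro D
    by_cases hD : D ∈ S
    swap
    · exact ⟨(0, 0, true), (0, 0), fun h => absurd h hD⟩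
    obtain ⟨hDN, h, g, k, u, w, D₁, hDec, hD₁, hsq, hnsq, hbig⟩ := hS D hD
    obtain ⟨c, p, q, e, hc, hbc, hq, he, h1, h2, k₁, s, hk₁, hk₁C, hsize, halt⟩ :=
      hpt D h g k u w D₁ hDec hsq hnsq
    obtain ⟨hh, hg, hk, hu, hw, hsqf, hDeq, hcop, hqf, hsf1, hsf2, hkb⟩ := id hDec
    have hD₁0 : D₁ ≠ 0 := by
      rintro rfl
      rw [mul_zero] at hDeq
      exact hsqf.ne_zero hDeq
    have hbpos : 0 < b := by
      rw [hbc]
      have e1 : (0 : ℤ) < k := by exact_mod_cast hk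
      have e2 : (0 : ℤ) < g := by exact_mod_cast hg
      have e3 : (0 : ℤ) < c := by exact_mod_cast hc
      positivity
    have hbn : (b.natAbs : ℤ) = b := by
      rw [Int.natCast_natAbs, abs_of_pos hbpos]
    have hbc' : b.natAbs = k * g * c ^ 2 := by
      have e1 : (b.natAbs : ℤ) = ((k * g * c ^ 2 : ℕ) : ℤ) := by
        rw [hbn, hbc]
        push_cast
        ring
      exact_mod_cast e1
    have hc2 : 1 ≤ c ^ 2 := Nat.one_le_pow _ _ hc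
    have hgk : g * k ≤ b.natAbs := by
      rw [hbc']
      calc g * k = k * g * 1 := by ring
        _ ≤ k * g * c ^ 2 := Nat.mul_le_mul_left _ hc2
    have hgle : g ≤ b.natAbs := (Nat.le_mul_of_pos_right g hk).trans hgk
    have hkle : k ≤ b.natAbs := (Nat.le_mul_of_pos_left k hg).trans hgk
    have hDabs : (h * g * |D₁| : ℤ) ≤ N := by
      have e1 : |D| = h * g * |D₁| := by
        rw [hDeq, abs_mul, abs_mul, Nat.abs_cast, Nat.abs_cast]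
      rw [← e1]
      exact hDN
    have hD₁1 : 1 ≤ |D₁| := Int.one_le_abs hD₁0
    have hhN : h ≤ N := by
      have e0 : (0 : ℤ) < h := by exact_mod_cast hh
      have e2 : (1 : ℤ) ≤ g := by exact_mod_cast hg
      have e3 : (h : ℤ) ≤ h * g * |D₁| := by
        calc (h : ℤ) = h * 1 * 1 := by ring
          _ ≤ h * g * |D₁| := by
              apply mul_le_mul _ hD₁1 (by norm_num) (by positivity)
              exact mul_le_mul_of_nonneg_left e2 e0.le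
      exact_mod_cast e3.trans hDabs
    have hk₁K : k₁ ≤ K₀ := by
      rw [hK₀, Nat.le_sqrt']
      exact hk₁C.trans (Nat.mul_le_mul_left C hhN)
    have hkb' : (k : ℤ) ≤ |b| := by
      rw [abs_of_pos hbpos, ← hbn]
      exact_mod_cast hkle
    have hs := hlarge h g k u s D₁ hh hg hk hD₁0 hDabs hkb' hbig hsize
    rw [← hA] at hs
    have hAD : (C : ℤ) * |D₁| ≤ A := by
      have e1 : D₁.natAbs ≤ ⌊(Real.log N) ^ 5⌋₊ := by
        apply Nat.le_floor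
        have e2 : ((D₁.natAbs : ℕ) : ℝ) = ((|D₁| : ℤ) : ℝ) := by
          rw [← Int.natCast_natAbs]
          rfl
        rw [e2]
        exact hD₁
      have e3 : |D₁| ≤ ((⌊(Real.log N) ^ 5⌋₊ + 1 : ℕ) : ℤ) := by
        rw [← Int.natCast_natAbs]
        exact_mod_cast e1.trans (Nat.le_succ _)
      rw [hA]
      push_cast at e3 ⊢
      exact mul_le_mul_of_nonneg_left e3 (Nat.cast_nonneg C)
    rcases halt with ⟨ha1, ha2, ha3⟩ | ⟨ha1, ha2, ha3⟩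
    · refine ⟨(g, k, true), ((g : ℤ) * p, q), fun _ => ⟨⟨hg, hgle, hk, hkle, hgk, hbpos⟩,
        ⟨h, u, w, D₁, c, p, q, e, hDec, hc, hbc, he, h1, h2, by simp⟩,
        k₁, s, hk₁, hk₁K, hs, ha1, ?_, ?_⟩⟩
      · simpa using ha2
      · simpa using ha3.trans hAD
    · refine ⟨(g, k, false), ((a ^ 2 - 4 * b) * q - a * (a * q - 2 * c * g * p),
        a * q - 2 * c * g * p), fun _ => ⟨⟨hg, hgle, hk, hkle, hgk, hbpos⟩,
        ⟨h, u, w, D₁, c, p, q, e, hDec, hc, hbc, he, h1, h2, by simp⟩,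
        k₁, s, hk₁, hk₁K, hs, ha1, ?_, ?_⟩⟩
      · have e1 : (((if (false : Bool) = true then g * k else 4 * b.natAbs : ℕ)) : ℤ) = 4 * b := by
          simp only [Bool.false_eq_true, if_false]
          rw [Nat.cast_mul, hbn]
          norm_num
        simp only [e1]
        exact ha2
      · have e1 : (((if (false : Bool) = true then g * k else 4 * b.natAbs : ℕ)) : ℤ) = 4 * b := by
          simp only [Bool.false_eq_true, if_false]
          rw [Nat.cast_mul, hbn]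
          norm_num
        simp only [e1]
        exact ha3.trans hAD
  choose Y X hYX using hdata
  obtain ⟨R, hR⟩ : ∃ R : Finset (ℕ × ℕ × Bool), R =
      (Finset.Icc 1 b.natAbs) ×ˢ ((Finset.Icc 1 b.natAbs) ×ˢ (Finset.univ : Finset Bool)) :=
    ⟨_, rfl⟩
  have hmaps : ∀ D ∈ S, Y D ∈ R := by
    intro D hD
    obtain ⟨⟨h1, h2, h3, h4, _, _⟩, _⟩ := hYX D hD
    rw [hR, Finset.mem_product, Finset.mem_product, Finset.mem_Icc, Finset.mem_Icc]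
    exact ⟨⟨h1, h2⟩, ⟨h3, h4⟩, Finset.mem_univ _⟩
  obtain ⟨M, hM⟩ : ∃ M : ℝ, M = 64 * ((4 * b.natAbs : ℕ) : ℝ) ^ 2 * (K₀ : ℝ) * (A : ℝ) ^ 2 *
        (20 + 2 * Real.log (1 + Real.log N)) := ⟨_, rfl⟩
  have hlog0 : 0 ≤ 20 + 2 * Real.log (1 + Real.log N) := by
    have e2 : (1 : ℝ) ≤ 1 + Real.log N := by
      have := Real.log_natCast_nonneg N
      linarith
    have := Real.log_nonneg e2
    linarith
  have hfib : ∀ y ∈ R, ((S.filter (fun D => Y D = y)).card : ℝ) ≤ M := by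
    intro y hy
    rcases (S.filter (fun D => Y D = y)).eq_empty_or_nonempty with hem | hne
    · rw [hem, Finset.card_empty, Nat.cast_zero, hM]
      positivity
    obtain ⟨D0, hD0⟩ := hne
    rw [Finset.mem_filter] at hD0
    obtain ⟨⟨g1, g2, g3, g4, g5, hbpos⟩, _⟩ := hYX D0 hD0.1
    rw [hD0.2] at g1 g2 g3 g4 g5
    have hb1 : 1 ≤ b.natAbs := g1.trans g2
    obtain ⟨B, hB⟩ : ∃ B : ℕ, B = if y.2.2 then y.1 * y.2.1 else 4 * b.natAbs := ⟨_, rfl⟩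
    have hBpos : 0 < B := by
      rw [hB]
      split_ifs
      · exact Nat.mul_pos g1 g3
      · omega
    have hBle : B ≤ 4 * b.natAbs := by
      rw [hB]
      split_ifs
      · omega
      · exact le_rfl
    have hinj : Set.InjOn X (S.filter (fun D => Y D = y) : Set ℤ) := by
      intro D hD D' hD' heq
      rw [Finset.mem_coe, Finset.mem_filter] at hD hD'
      have e1 := (hYX D hD.1).2.1
      have e2 := (hYX D' hD'.1).2.1
      rw [hD.2] at e1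
      rw [hD'.2, ← heq] at e2
      exact pk_inj hΔ0 e1 e2
    rw [← Finset.card_image_of_injOn hinj]
    refine (t_count N hN20 B K₀ A hBpos ((Nat.mul_le_mul_right _ hBle).trans hBK)
      ((Nat.mul_le_mul_right _ hBle).trans hBA) _ ?_).trans ?_
    · intro x hx
      obtain ⟨D, hD, rfl⟩ := Finset.mem_image.1 hx
      rw [Finset.mem_filter] at hD
      obtain ⟨_, _, k₁, s, hk₁, hk₁K, hs, h1, h2, h3⟩ := hYX D hD.1
      rw [hD.2, ← hB] at h2 h3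
      refine ⟨k₁, s, hk₁, hk₁K, lt_of_le_of_lt ?_ hs, h1, h2, h3⟩
      exact Nat.mul_le_mul_left _ (Nat.pow_le_pow_left (Nat.mul_le_mul_right _ hBle) 4)
    · rw [hM]
      have e1 : (B : ℝ) ^ 2 ≤ ((4 * b.natAbs : ℕ) : ℝ) ^ 2 :=
        pow_le_pow_left₀ (Nat.cast_nonneg B) (by exact_mod_cast hBle) 2
      apply mul_le_mul_of_nonneg_right _ hlog0
      apply mul_le_mul_of_nonneg_right _ (by positivity)
      apply mul_le_mul_of_nonneg_right _ (by positivity)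
      exact mul_le_mul_of_nonneg_left e1 (by norm_num)
  have hcard : (S.card : ℝ) ≤ ∑ y ∈ R, M := by
    rw [Finset.card_eq_sum_card_fiberwise hmaps]
    push_cast
    exact Finset.sum_le_sum hfib
  have hRcard : (R.card : ℝ) = (b.natAbs : ℝ) * b.natAbs * 2 := by
    rw [hR, Finset.card_product, Finset.card_product, Nat.card_Icc, Finset.card_univ,
      Fintype.card_bool, Nat.add_sub_cancel]
    push_cast
    ring
  rw [Finset.sum_const, nsmul_eq_mul, hRcard, hM] at hcard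
  exact hcard.trans hfin

end TwT
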