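import Pool.Agent.LibTwHL.F1
import Pool.Agent.LibTwHL.A2
import Pool.Agent.LibTwHL.K8
import Pool.Agent.LibTwHL.S3
import Pool.Agent.LibTwT.PF2
import Pool.Agent.LibTwT.TC5

set_option autoImplicit false

namespace TwT

open TwHL

private theorem PF3_ev1 (T₀ : ℕ) : ∀ᶠ N : ℕ in Filter.atTop,
    T₀ ≤ ⌊(Real.log N) ^ 5⌋₊ ∧ 1 ≤ ⌊(Real.log N) ^ 5⌋₊ ∧ ⌊(Real.log N) ^ 5⌋₊ ≤ N := by
  have hlog : Filter.Tendsto (fun N : ℕ => Real.log (N : ℝ)) Filter.atTop Filter.atTop :=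
    Real.tendsto_log_atTop.comp tendsto_natCast_atTop_atTop
  have h1 : ∀ᶠ x : ℝ in Filter.atTop, ‖Real.log x ^ 5‖ ≤ 1 * ‖(id x : ℝ)‖ :=
    (Real.isLittleO_pow_log_id_atTop (n := 5)).bound (by norm_num)
  filter_upwards [hlog.eventually_ge_atTop (max (T₀ + 1 : ℝ) 1),
    tendsto_natCast_atTop_atTop.eventually h1] with N hN1 hN2
  have hL1 : (1 : ℝ) ≤ Real.log N := (le_max_right _ _).trans hN1
  have hL2 : (T₀ : ℝ) + 1 ≤ Real.log N := (le_max_left _ _).trans hN1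
  have hL3 : Real.log N ≤ (Real.log N) ^ 5 := by
    calc Real.log N = (Real.log N) ^ 1 := (pow_one _).symm
      _ ≤ (Real.log N) ^ 5 := pow_le_pow_right₀ hL1 (by norm_num)
  refine ⟨Nat.le_floor (by linarith), Nat.le_floor (by push_cast; linarith), ?_⟩
  have h2 : (Real.log N) ^ 5 ≤ N := by
    have h3 : ‖Real.log (N : ℝ) ^ 5‖ ≤ 1 * ‖((N : ℝ))‖ := hN2
    rw [Real.norm_eq_abs, Real.norm_eq_abs, one_mul, abs_of_nonneg (by positivity),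
      abs_of_nonneg (by positivity)] at h3
    exact h3
  have h4 : ((⌊(Real.log N) ^ 5⌋₊ : ℕ) : ℝ) ≤ N := (Nat.floor_le (by positivity)).trans h2
  exact_mod_cast h4

private theorem PF3_ev2 (C η : ℝ) (hC : 0 < C) (hη : 0 < η) : ∀ᶠ N : ℕ in Filter.atTop,
    C * ((N : ℝ) / (⌊(Real.log N) ^ 5⌋₊ : ℕ)) * (1 + Real.log N) ^ 3 ≤ η * N := by
  have hlog : Filter.Tendsto (fun N : ℕ => Real.log (N : ℝ)) Filter.atTop Filter.atTop :=
    Real.tendsto_log_atTop.comp tendsto_natCast_atTop_atTop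
  filter_upwards [hlog.eventually_ge_atTop (max 2 (16 * C / η))] with N hN
  set l := Real.log (N : ℝ) with hl
  have hl2 : 2 ≤ l := (le_max_left _ _).trans hN
  have hl3 : 16 * C / η ≤ l := (le_max_right _ _).trans hN
  have hN0 : (0 : ℝ) ≤ N := Nat.cast_nonneg N
  have h5 : (2 : ℝ) ≤ l ^ 5 := by
    calc (2 : ℝ) ≤ l := hl2
      _ = l ^ 1 := (pow_one _).symm
      _ ≤ l ^ 5 := pow_le_pow_right₀ (by linarith) (by norm_num)
  have hT : l ^ 5 / 2 ≤ ((⌊l ^ 5⌋₊ : ℕ) : ℝ) := by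
    have := Nat.lt_floor_add_one (l ^ 5)
    linarith
  have hT0 : (0 : ℝ) < ((⌊l ^ 5⌋₊ : ℕ) : ℝ) := by linarith
  have h6 : (N : ℝ) / ((⌊l ^ 5⌋₊ : ℕ) : ℝ) ≤ N / (l ^ 5 / 2) := by
    apply div_le_div_of_nonneg_left hN0 (by linarith) hT
  have h7 : (1 + l) ^ 3 ≤ 8 * l ^ 3 := by
    have : 1 + l ≤ 2 * l := by linarith
    calc (1 + l) ^ 3 ≤ (2 * l) ^ 3 := pow_le_pow_left₀ (by linarith) this 3
      _ = 8 * l ^ 3 := by ring
  calc C * ((N : ℝ) / ((⌊l ^ 5⌋₊ : ℕ) : ℝ)) * (1 + l) ^ 3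
      ≤ C * (N / (l ^ 5 / 2)) * (8 * l ^ 3) := by
        gcongr
    _ = (16 * C / l ^ 2) * N := by
        have : l ≠ 0 := by linarith
        field_simp
        ring
    _ ≤ η * N := by
        apply mul_le_mul_of_nonneg_right _ hN0
        rw [div_le_iff₀ (by positivity)]
        rw [div_le_iff₀ hη] at hl3
        have : l ≤ l ^ 2 := by nlinarith
        nlinarith

private lemma PF3_card (S : Finset ℤ) : S.card ≤ 2 * (S.image Int.natAbs).card := by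
  classical
  apply Finset.card_le_mul_card_image
  intro m _
  have h : S.filter (fun x => x.natAbs = m) ⊆ {(m : ℤ), -(m : ℤ)} := by
    intro x hx
    rw [Finset.mem_filter] at hx
    rw [Finset.mem_insert, Finset.mem_singleton]
    have := hx.2
    omega
  exact (Finset.card_le_card h).trans Finset.card_le_two

/-- Row PF3. Dyadic range, all points. `T = ⌊(log N)^5⌋`. From `TwHL.point_dec` (`|D| ≥ N/2 ≥ D₀`), with
`a = 3e`, `b = 3e^2 + A₀`, `Δ = -3e^2 - 4A₀ = a^2 - 4b`, `c₁ = 2 * 2^(2+δ)`: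
(1) `|D₁| > T`: `big_D1_full`, `C (N/T) (1+log N)^3 = o(N)`;
(2) `|D₁| ≤ T`, `b k g` a square: `T_class`;
(3) `|D₁| ≤ T`, `b k g` not a square, `g > (log N)^10`: `TwHL.K_lemma` with `κ = b k` for each
`k ≤ |b|`, `W = (2 b Δ).natAbs`, `n = |D| = h g |D₁|` (`dec_h`, `dec_g`), each `n` from at most two `D`;
(4) the same with `g ≤ (log N)^10`: `TwHL.S_lemma`. -/
theorem dyadic_full (A₀ B₀ e : ℤ) (he : e ^ 3 + A₀ * e + B₀ = 0) (hb : 3 * e ^ 2 + A₀ ≠ 0)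
    (hΔ : ¬ IsSquare (-3 * e ^ 2 - 4 * A₀)) (δ η : ℝ) (hδ : 0 < δ) (hη : 0 < η) :
    ∃ N₀ : ℕ, ∀ N : ℕ, N₀ ≤ N → ∀ S : Finset ℤ,
    (∀ D ∈ S, Squarefree D ∧ (N : ℤ) < 2 * |D| ∧ |D| ≤ N ∧ ∃ x y : ℤ,
      y ^ 2 = x ^ 3 + A₀ * D ^ 2 * x + B₀ * D ^ 3 ∧
      ((|D| : ℤ) : ℝ) ^ (2 + δ) < ((|x| : ℤ) : ℝ)) →
    (S.card : ℝ) ≤ η * N := by
  classical
  set a : ℤ := 3 * e with ha
  set b : ℤ := 3 * e ^ 2 + A₀ with hbdef
  have hΔeq : a ^ 2 - 4 * b = -3 * e ^ 2 - 4 * A₀ := by rw [ha, hbdef]; ring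
  have hΔ' : ¬ IsSquare (a ^ 2 - 4 * b) := by rw [hΔeq]; exact hΔ
  obtain ⟨D₀, hD₀⟩ := point_dec A₀ B₀ e he hb hΔ δ hδ
  obtain ⟨C1, hC1, T₀, h1⟩ := big_D1_full a b hb hΔ' δ (2 * 2 ^ (2 + δ)) hδ (by positivity)
  obtain ⟨N2, h2⟩ := T_class a b hb hΔ' δ (2 * 2 ^ (2 + δ)) (η / 4) hδ (by positivity)
    (by positivity)
  have hΔ0 : a ^ 2 - 4 * b ≠ 0 := by
    intro h
    apply hΔ'
    rw [h]
    exact ⟨0, by simp⟩
  set W : ℕ := (2 * b * (a ^ 2 - 4 * b)).natAbs with hW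
  have hW0 : W ≠ 0 := by
    rw [hW, Ne, Int.natAbs_eq_zero]
    exact mul_ne_zero (mul_ne_zero (by norm_num) hb) hΔ0
  set β : ℕ := b.natAbs with hβ
  have hβ1 : 1 ≤ β := Nat.one_le_iff_ne_zero.2 (Int.natAbs_ne_zero.2 hb)
  have hβ0 : (0 : ℝ) < β := by exact_mod_cast hβ1
  choose N3 hN3 using fun k : ℕ => K_lemma (a ^ 2 - 4 * b) hΔ' W hW0 (b * k) (η / (8 * β))
    (by positivity)
  have hS4 : ∀ k : ℕ, ∃ N₀ : ℕ, k ≠ 0 → ∀ N : ℕ, N₀ ≤ N → ∀ S : Finset ℕ,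
      (∀ n ∈ S, n ≤ N ∧ Squarefree n ∧ ∃ h g d : ℕ, n = h * g * d ∧
        (d : ℝ) ≤ (Real.log N) ^ 5 ∧ (g : ℝ) ≤ (Real.log N) ^ 10 ∧
        ¬ IsSquare ((b * k) * g) ∧
        (∀ p : ℕ, p.Prime → p ∣ h → ¬ p ∣ W → jacobiSym ((b * k) * g) p = 1)) →
      (S.card : ℝ) ≤ (η / (8 * β)) * N := by
    intro k
    by_cases hk : k = 0
    · exact ⟨0, fun h => absurd hk h⟩
    · obtain ⟨N₀, h⟩ := S_lemma W hW0 (b * k)
        (mul_ne_zero hb (by exact_mod_cast hk)) (η / (8 * β)) (by positivity)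
      exact ⟨N₀, fun _ => h⟩
  choose N4 hN4 using hS4
  have hev : ∀ᶠ N : ℕ in Filter.atTop,
      (T₀ ≤ ⌊(Real.log N) ^ 5⌋₊ ∧ 1 ≤ ⌊(Real.log N) ^ 5⌋₊ ∧ ⌊(Real.log N) ^ 5⌋₊ ≤ N) ∧
      C1 * ((N : ℝ) / (⌊(Real.log N) ^ 5⌋₊ : ℕ)) * (1 + Real.log N) ^ 3 ≤ η / 4 * N ∧
      2 * D₀ + 1 ≤ N ∧ N2 ≤ N ∧
      (Finset.range (β + 1)).sup N3 ≤ N ∧ (Finset.range (β + 1)).sup N4 ≤ N := by
    filter_upwards [PF3_ev1 T₀, PF3_ev2 C1 (η / 4) hC1 (by positivity),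
      Filter.eventually_ge_atTop (2 * D₀ + 1), Filter.eventually_ge_atTop N2,
      Filter.eventually_ge_atTop ((Finset.range (β + 1)).sup N3),
      Filter.eventually_ge_atTop ((Finset.range (β + 1)).sup N4)] with N e1 e2 e3 e4 e5 e6
    exact ⟨e1, e2, e3, e4, e5, e6⟩
  obtain ⟨N₀, hN₀⟩ := Filter.eventually_atTop.1 hev
  refine ⟨N₀, fun N hN S hS => ?_⟩
  obtain ⟨⟨e1a, e1b, e1c⟩, e2, e4, e5, e6, e7⟩ := hN₀ N hN
  set T : ℕ := ⌊(Real.log N) ^ 5⌋₊ with hT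
  have hN1 : 1 ≤ N := by omega
  have hN1r : (1 : ℝ) ≤ N := by exact_mod_cast hN1
  have hlogN : 0 ≤ Real.log N := Real.log_nonneg hN1r
  -- the decomposition
  have hdec : ∀ D ∈ S, ∃ (h g k u w : ℕ) (D₁ : ℤ), Dec a b D h g k u w D₁ ∧
      ¬ IsSquare (g * k) ∧
      (N : ℝ) ^ (2 + δ) ≤ 2 * 2 ^ (2 + δ) * ((h * g * (h * k * u ^ 2) : ℕ) : ℝ) := by
    intro D hD
    obtain ⟨hsq, hD1, hD2, x, y, hxy, hx1⟩ := hS D hD
    have hDD₀ : (D₀ : ℤ) ≤ |D| := by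
      have h5 : (2 * D₀ + 1 : ℤ) ≤ N := by exact_mod_cast e4
      linarith
    obtain ⟨h, g, k, u, w, D₁, hDec, hgk, hlo, -⟩ := hD₀ D x y hDD₀ hsq hxy hx1
    have hDr1 : (N : ℝ) ≤ 2 * ((|D| : ℤ) : ℝ) := by
      have : (N : ℤ) ≤ 2 * |D| := hD1.le
      exact_mod_cast this
    have hDpos : (0 : ℝ) < ((|D| : ℤ) : ℝ) := by linarith
    refine ⟨h, g, k, u, w, D₁, hDec, hgk, ?_⟩
    calc (N : ℝ) ^ (2 + δ) ≤ (2 * ((|D| : ℤ) : ℝ)) ^ (2 + δ) :=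
          Real.rpow_le_rpow (by positivity) hDr1 (by linarith)
      _ = 2 ^ (2 + δ) * ((|D| : ℤ) : ℝ) ^ (2 + δ) :=
          Real.mul_rpow (by norm_num) hDpos.le
      _ ≤ 2 ^ (2 + δ) * (2 * ((h * g * (h * k * u ^ 2) : ℕ) : ℝ)) := by gcongr
      _ = _ := by ring
  -- the four classes
  set S1 := S.filter (fun D => ∃ (h g k u w : ℕ) (D₁ : ℤ), Dec a b D h g k u w D₁ ∧
    (T : ℤ) < |D₁| ∧
    (N : ℝ) ^ (2 + δ) ≤ 2 * 2 ^ (2 + δ) * ((h * g * (h * k * u ^ 2) : ℕ) : ℝ)) with hS1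
  set S2 := S.filter (fun D => ∃ (h g k u w : ℕ) (D₁ : ℤ), Dec a b D h g k u w D₁ ∧
    ((|D₁| : ℤ) : ℝ) ≤ (Real.log N) ^ 5 ∧ IsSquare (b * k * g) ∧ ¬ IsSquare (g * k) ∧
    (N : ℝ) ^ (2 + δ) ≤ 2 * 2 ^ (2 + δ) * ((h * g * (h * k * u ^ 2) : ℕ) : ℝ)) with hS2
  set S3 : ℕ → Finset ℤ := fun k => S.filter (fun D => ∃ (h g u w : ℕ) (D₁ : ℤ),
    Dec a b D h g k u w D₁ ∧ |D₁| ≤ T ∧ (Real.log N) ^ 10 < (g : ℝ)) with hS3
  set S4 : ℕ → Finset ℤ := fun k => S.filter (fun D => ∃ (h g u w : ℕ) (D₁ : ℤ),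
    Dec a b D h g k u w D₁ ∧ |D₁| ≤ T ∧ (g : ℝ) ≤ (Real.log N) ^ 10 ∧
      ¬ IsSquare ((b * k) * g)) with hS4
  have hcover : S ⊆ S1 ∪ (S2 ∪ ((Finset.Icc 1 β).biUnion S3 ∪ (Finset.Icc 1 β).biUnion S4)) := by
    intro D hD
    obtain ⟨h, g, k, u, w, D₁, hDec, hgk, hlo⟩ := hdec D hD
    rw [Finset.mem_union, Finset.mem_union, Finset.mem_union]
    have hk := hDec.2.2.1
    have hkb := hDec.2.2.2.2.2.2.2.2.2.2.2
    have hkm : k ∈ Finset.Icc 1 β := by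
      rw [Finset.mem_Icc]
      refine ⟨hk, ?_⟩
      have h5 : k ∣ b.natAbs := Int.natCast_dvd.1 hkb
      exact Nat.le_of_dvd hβ1 h5
    by_cases hT1 : (T : ℤ) < |D₁|
    · left
      rw [hS1, Finset.mem_filter]
      exact ⟨hD, h, g, k, u, w, D₁, hDec, hT1, hlo⟩
    · right
      push Not at hT1
      by_cases hsq : IsSquare (b * (k : ℤ) * (g : ℤ))
      · left
        rw [hS2, Finset.mem_filter]
        refine ⟨hD, h, g, k, u, w, D₁, hDec, ?_, hsq, hgk, hlo⟩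
        have h6 : ((|D₁| : ℤ) : ℝ) ≤ T := by exact_mod_cast hT1
        exact h6.trans (Nat.floor_le (by positivity))
      · right
        by_cases hg : (Real.log N) ^ 10 < (g : ℝ)
        · left
          rw [Finset.mem_biUnion]
          refine ⟨k, hkm, ?_⟩
          rw [hS3, Finset.mem_filter]
          exact ⟨hD, h, g, u, w, D₁, hDec, hT1, hg⟩
        · right
          rw [Finset.mem_biUnion]
          refine ⟨k, hkm, ?_⟩
          rw [hS4, Finset.mem_filter]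
          exact ⟨hD, h, g, u, w, D₁, hDec, hT1, not_lt.1 hg, hsq⟩
  have hc1 : (S1.card : ℝ) ≤ η / 4 * N := by
    refine le_trans (h1 N T e1a e1b e1c S1 ?_) e2
    intro D hD
    rw [hS1, Finset.mem_filter] at hD
    exact ⟨(hS D hD.1).2.2.1, hD.2⟩
  have hc2 : (S2.card : ℝ) ≤ η / 4 * N := by
    apply h2 N e5 S2
    intro D hD
    rw [hS2, Finset.mem_filter] at hD
    exact ⟨(hS D hD.1).2.2.1, hD.2⟩
  -- common facts
  have hcomm : ∀ D ∈ S, ∀ (h g k u w : ℕ) (D₁ : ℤ), Dec a b D h g k u w D₁ → |D₁| ≤ T →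
      D.natAbs ≤ N ∧ Squarefree D.natAbs ∧ D.natAbs = h * g * D₁.natAbs ∧
      ((D₁.natAbs : ℕ) : ℝ) ≤ (Real.log N) ^ 5 ∧
      (∀ p : ℕ, p.Prime → p ∣ h → ¬ p ∣ W → jacobiSym ((b * k) * g) p = 1) ∧
      (∀ p : ℕ, p.Prime → p ∣ g → ¬ p ∣ W → jacobiSym (a ^ 2 - 4 * b) p = 1) := by
    intro D hDS h g k u w D₁ hDec hT1
    obtain ⟨hsq, _, hD2, _⟩ := hS D hDS
    have hDe := hDec.2.2.2.2.2.2.1
    refine ⟨?_, ?_, ?_, ?_, ?_, ?_⟩
    · rw [Int.abs_eq_natAbs] at hD2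
      exact_mod_cast hD2
    · exact Int.squarefree_natAbs.2 hsq
    · rw [hDe, Int.natAbs_mul, Int.natAbs_mul, Int.natAbs_natCast, Int.natAbs_natCast]
    · rw [Int.abs_eq_natAbs] at hT1
      have h5 : D₁.natAbs ≤ T := by exact_mod_cast hT1
      have h6 : ((D₁.natAbs : ℕ) : ℝ) ≤ T := by exact_mod_cast h5
      exact h6.trans (Nat.floor_le (by positivity))
    · intro p hp hph hpW
      have h5 : ¬ (p : ℤ) ∣ 2 * b := by
        intro h6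
        apply hpW
        rw [hW]
        exact Int.natCast_dvd.1 (Dvd.dvd.mul_right h6 _)
      exact dec_h hDec hp hph h5
    · intro p hp hph hpW
      have h5 : ¬ (p : ℤ) ∣ 2 * (a ^ 2 - 4 * b) := by
        intro h6
        apply hpW
        rw [hW]
        have h7 : (2 : ℤ) * b * (a ^ 2 - 4 * b) = 2 * (a ^ 2 - 4 * b) * b := by ring
        rw [h7]
        exact Int.natCast_dvd.1 (Dvd.dvd.mul_right h6 _)
      exact dec_g hDec hp hph h5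
  have hc3 : ∀ k ∈ Finset.Icc 1 β, ((S3 k).card : ℝ) ≤ 2 * (η / (8 * β) * N) := by
    intro k hk
    rw [Finset.mem_Icc] at hk
    have hcard := PF3_card (S3 k)
    have hAc : (((S3 k).image Int.natAbs).card : ℝ) ≤ η / (8 * β) * N := by
      have hkN : N3 k ≤ N := by
        refine le_trans ?_ e6
        exact Finset.le_sup (f := N3) (Finset.mem_range.2 (by omega))
      apply hN3 k N hkN
      intro n hn
      rw [Finset.mem_image] at hn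
      obtain ⟨D, hD, rfl⟩ := hn
      rw [hS3, Finset.mem_filter] at hD
      obtain ⟨hDS, h, g, u, w, D₁, hDec, hT1, hG1⟩ := hD
      obtain ⟨f1, f2, f3, f4, f5, f6⟩ := hcomm D hDS h g k u w D₁ hDec hT1
      exact ⟨f1, f2, h, g, D₁.natAbs, f3, f4, hG1, f5, f6⟩
    have h5 : ((S3 k).card : ℝ) ≤ 2 * (((S3 k).image Int.natAbs).card : ℝ) := by
      exact_mod_cast hcard
    linarith
  have hc4 : ∀ k ∈ Finset.Icc 1 β, ((S4 k).card : ℝ) ≤ 2 * (η / (8 * β) * N) := by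
    intro k hk
    rw [Finset.mem_Icc] at hk
    have hcard := PF3_card (S4 k)
    have hAc : (((S4 k).image Int.natAbs).card : ℝ) ≤ η / (8 * β) * N := by
      have hkN : N4 k ≤ N := by
        refine le_trans ?_ e7
        exact Finset.le_sup (f := N4) (Finset.mem_range.2 (by omega))
      apply hN4 k (by omega) N hkN
      intro n hn
      rw [Finset.mem_image] at hn
      obtain ⟨D, hD, rfl⟩ := hn
      rw [hS4, Finset.mem_filter] at hD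
      obtain ⟨hDS, h, g, u, w, D₁, hDec, hT1, hG1, hns⟩ := hD
      obtain ⟨f1, f2, f3, f4, f5, f6⟩ := hcomm D hDS h g k u w D₁ hDec hT1
      exact ⟨f1, f2, h, g, D₁.natAbs, f3, f4, hG1, hns, f5⟩
    have h5 : ((S4 k).card : ℝ) ≤ 2 * (((S4 k).image Int.natAbs).card : ℝ) := by
      exact_mod_cast hcard
    linarith
  have hsum : ∀ S' : ℕ → Finset ℤ,
      (∀ k ∈ Finset.Icc 1 β, ((S' k).card : ℝ) ≤ 2 * (η / (8 * β) * N)) →
      (((Finset.Icc 1 β).biUnion S').card : ℝ) ≤ η / 4 * N := by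
    intro S' hS'
    calc (((Finset.Icc 1 β).biUnion S').card : ℝ)
          ≤ ((∑ k ∈ Finset.Icc 1 β, (S' k).card : ℕ) : ℝ) := by
          exact_mod_cast Finset.card_biUnion_le
      _ = ∑ k ∈ Finset.Icc 1 β, ((S' k).card : ℝ) := by push_cast; rfl
      _ ≤ ∑ k ∈ Finset.Icc 1 β, 2 * (η / (8 * β) * N) := Finset.sum_le_sum hS'
      _ = β * (2 * (η / (8 * β) * N)) := by
          rw [Finset.sum_const, Nat.card_Icc, nsmul_eq_mul, Nat.add_sub_cancel]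
      _ = η / 4 * N := by
          field_simp
          ring
  have hc3' := hsum S3 hc3
  have hc4' := hsum S4 hc4
  have hfin : (S.card : ℝ) ≤ (S1.card : ℝ) + ((S2.card : ℝ) +
      ((((Finset.Icc 1 β).biUnion S3).card : ℝ) + (((Finset.Icc 1 β).biUnion S4).card : ℝ))) := by
    have h5 : S.card ≤ S1.card + (S2.card + (((Finset.Icc 1 β).biUnion S3).card +
        ((Finset.Icc 1 β).biUnion S4).card)) :=
      (Finset.card_le_card hcover).trans ((Finset.card_union_le _ _).trans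
        (Nat.add_le_add_left ((Finset.card_union_le _ _).trans
          (Nat.add_le_add_left (Finset.card_union_le _ _) _)) _))
    exact_mod_cast h5
  linarith

end TwT
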