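import Pool.Agent.LibTwT.PF3

set_option autoImplicit false

namespace TwT

/-- the induction for row PF4 -/
private theorem pf4_aux (P : ℤ → Prop) (η' : ℝ) (hη : 0 ≤ η') (N₀ : ℕ) (hN₀ : 1 ≤ N₀)
    (h : ∀ N : ℕ, N₀ ≤ N → ∀ S : Finset ℤ, (∀ D ∈ S, P D ∧ (N : ℤ) < 2 * |D| ∧ |D| ≤ N) →
      (S.card : ℝ) ≤ η' * N) :
    ∀ N : ℕ, ∀ S : Finset ℤ, (∀ D ∈ S, P D ∧ |D| ≤ N) →
      (S.card : ℝ) ≤ 2 * η' * N + (2 * N₀ + 1) := by
  intro N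
  induction N using Nat.strong_induction_on with
  | _ N IH =>
    intro S hS
    by_cases hN : N < N₀
    · have h1 : S ⊆ Finset.Icc (-(N₀ : ℤ)) N₀ := by
        intro D hD
        have h2 := (hS D hD).2
        rw [abs_le] at h2
        rw [Finset.mem_Icc]
        constructor <;> omega
      have h2 := Finset.card_le_card h1
      rw [Int.card_Icc] at h2
      have h3 : S.card ≤ 2 * N₀ + 1 := by omega
      have h4 : (S.card : ℝ) ≤ 2 * N₀ + 1 := by exact_mod_cast h3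
      have h5 : 0 ≤ 2 * η' * (N : ℝ) := by positivity
      linarith
    · push Not at hN
      have h1 := h N hN (S.filter fun D => ¬ |D| ≤ ((N / 2 : ℕ) : ℤ)) (by
        intro D hD
        rw [Finset.mem_filter] at hD
        obtain ⟨h2, h3⟩ := hD
        refine ⟨(hS D h2).1, ?_, (hS D h2).2⟩
        push Not at h3
        omega)
      have h2 := IH (N / 2) (by omega) (S.filter fun D => |D| ≤ ((N / 2 : ℕ) : ℤ)) (by
        intro D hD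
        rw [Finset.mem_filter] at hD
        exact ⟨(hS D hD.1).1, hD.2⟩)
      have h3 := Finset.card_filter_add_card_filter_not (s := S)
        (fun D : ℤ => |D| ≤ ((N / 2 : ℕ) : ℤ))
      have h4 : ((S.filter fun D => |D| ≤ ((N / 2 : ℕ) : ℤ)).card : ℝ) +
          ((S.filter fun D => ¬ |D| ≤ ((N / 2 : ℕ) : ℤ)).card : ℝ) = S.card := by
        exact_mod_cast h3
      have h5 : ((N / 2 : ℕ) : ℝ) ≤ (N : ℝ) / 2 := Nat.cast_div_le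
      have h6 : 2 * η' * ((N / 2 : ℕ) : ℝ) ≤ 2 * η' * ((N : ℝ) / 2) :=
        mul_le_mul_of_nonneg_left h5 (by positivity)
      linarith

/-- Row PF4. Sum of `dyadic_full` (with `η/8`) over `N / 2^i ≥ N₀` (natural division; `D` with
`N/2^(i+1) < |D| ≤ N/2^i`), plus at most `2 N₀ + 1 ≤ η N / 2`. -/
theorem final_full (A₀ B₀ e : ℤ) (he : e ^ 3 + A₀ * e + B₀ = 0) (hb : 3 * e ^ 2 + A₀ ≠ 0)
    (hΔ : ¬ IsSquare (-3 * e ^ 2 - 4 * A₀)) (δ η : ℝ) (hδ : 0 < δ) (hη : 0 < η) :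
    ∃ N₀ : ℕ, ∀ N : ℕ, N₀ ≤ N → ∀ S : Finset ℤ,
    (∀ D ∈ S, Squarefree D ∧ |D| ≤ N ∧ ∃ x y : ℤ,
      y ^ 2 = x ^ 3 + A₀ * D ^ 2 * x + B₀ * D ^ 3 ∧
      ((|D| : ℤ) : ℝ) ^ (2 + δ) < ((|x| : ℤ) : ℝ)) →
    (S.card : ℝ) ≤ η * N := by
  obtain ⟨N₀, hN₀⟩ := dyadic_full A₀ B₀ e he hb hΔ δ (η / 8) hδ (by positivity)
  refine ⟨⌈2 * (2 * ((max N₀ 1 : ℕ) : ℝ) + 1) / η⌉₊, fun N hN S hS => ?_⟩
  have h1 := pf4_aux (fun D => Squarefree D ∧ ∃ x y : ℤ,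
      y ^ 2 = x ^ 3 + A₀ * D ^ 2 * x + B₀ * D ^ 3 ∧
      ((|D| : ℤ) : ℝ) ^ (2 + δ) < ((|x| : ℤ) : ℝ)) (η / 8) (by positivity) (max N₀ 1)
    (le_max_right _ _) (by
      intro N hN S hS
      refine hN₀ N ((le_max_left _ _).trans hN) S fun D hD => ?_
      obtain ⟨⟨h2, h3⟩, h4, h5⟩ := hS D hD
      exact ⟨h2, h4, h5, h3⟩) N S (by
      intro D hD
      obtain ⟨h2, h3, h4⟩ := hS D hD
      exact ⟨⟨h2, h4⟩, h3⟩)
  have h2 : 2 * (2 * ((max N₀ 1 : ℕ) : ℝ) + 1) / η ≤ N := Nat.ceil_le.1 hN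
  rw [div_le_iff₀ hη] at h2
  have h3 : 0 ≤ η * (N : ℝ) := by positivity
  linarith

end TwT
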