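import Pool.Agent.LibTwT.PF4

set_option autoImplicit false

namespace TwT

/-- Row PF5a. The rational root is an integer `e` (monic polynomial with integer coefficients:
`isInteger_of_is_root_of_monic` / rational root theorem, or `num_dvd`/`den_dvd`). `3e^2 + A ≠ 0`:
otherwise `A = -3e^2`, `B = 2e^3` and `4A^3 + 27B^2 = 0`. `-3e^2 - 4A` is no square: if it is `s^2`,
then `(-e + s)/2` and `(-e - s)/2` are rational roots (`x^2 + e x + e^2 + A = 0`), both equal to `e` by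
uniqueness, so `s = 0` and `3 e = 0`, ..., again `4A^3 + 27B^2 = 0`. -/
theorem root_data (A B : ℤ) (hd : 4 * A ^ 3 + 27 * B ^ 2 ≠ 0)
    (hr : ∃! r : ℚ, r ^ 3 + A * r + B = 0) :
    ∃ e : ℤ, e ^ 3 + A * e + B = 0 ∧ 3 * e ^ 2 + A ≠ 0 ∧ ¬ IsSquare (-3 * e ^ 2 - 4 * A) := by
  obtain ⟨r, hr1, hr2⟩ := hr
  simp only at hr1 hr2
  have hmonic : (Polynomial.X ^ 3 + (Polynomial.C A * Polynomial.X + Polynomial.C B) :
      Polynomial ℤ).Monic := by
    refine Polynomial.monic_X_pow_add ?_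
    refine lt_of_le_of_lt (Polynomial.degree_add_le _ _) (max_lt ?_ ?_)
    · refine lt_of_le_of_lt (Polynomial.degree_C_mul_X_le A) ?_
      norm_num
    · exact lt_of_le_of_lt Polynomial.degree_C_le (by norm_num)
  have hroot : Polynomial.aeval r (Polynomial.X ^ 3 + (Polynomial.C A * Polynomial.X + Polynomial.C B) :
      Polynomial ℤ) = 0 := by
    simp only [map_add, map_mul, map_pow, Polynomial.aeval_X, Polynomial.aeval_C]
    rw [← hr1]
    simp only [eq_intCast]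
    ring
  obtain ⟨e, he⟩ := isInteger_of_is_root_of_monic hmonic hroot
  rw [eq_intCast] at he
  have he0 : e ^ 3 + A * e + B = 0 := by
    rw [← he] at hr1
    exact_mod_cast hr1
  refine ⟨e, he0, ?_, ?_⟩
  · intro h
    apply hd
    have hA : A = -3 * e ^ 2 := by linarith
    have hB : B = 2 * e ^ 3 := by
      rw [hA] at he0
      linarith
    rw [hA, hB]
    ring
  · rintro ⟨s, hs⟩
    have hkey : ∀ t : ℤ, t * t = s * s → (((-e + t : ℤ) : ℚ) / 2) = r := by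
      intro t ht
      apply hr2
      have e1 : (-3 * (e : ℚ) ^ 2 - 4 * (A : ℚ)) = (t : ℚ) * t := by
        have : -3 * e ^ 2 - 4 * A = t * t := by rw [hs, ht]
        exact_mod_cast this
      have e2 : (e : ℚ) ^ 3 + A * e + B = 0 := by exact_mod_cast he0
      have hA : (A : ℚ) = (-3 * (e : ℚ) ^ 2 - (t : ℚ) * t) / 4 := by linarith
      have hB : (B : ℚ) = - ((e : ℚ) ^ 3 + A * e) := by linarith
      push_cast
      rw [hB, hA]
      ring
    have h1 := hkey s rfl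
    have h2 := hkey (-s) (by ring)
    rw [← he] at h1 h2
    push_cast at h1 h2
    have h3 : (s : ℚ) = 0 := by linarith
    have h4 : (e : ℚ) = 0 := by linarith
    have hs0 : s = 0 := by exact_mod_cast h3
    have he00 : e = 0 := by exact_mod_cast h4
    apply hd
    rw [hs0, he00] at hs
    rw [he00] at he0
    have hA : A = 0 := by linarith
    have hB : B = 0 := by
      rw [hA] at he0
      linarith
    rw [hA, hB]
    ring

/-- Row PF5b. From `root_data` and `final_full`: the set is finite (`|D| ≤ N`), `Set.ncard_eq_toFinset_card`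
or `Set.ncard_coe_finset`; squeeze with every `η > 0`. -/
theorem twist_full (A B : ℤ) (hd : 4 * A ^ 3 + 27 * B ^ 2 ≠ 0)
    (hr : ∃! r : ℚ, r ^ 3 + A * r + B = 0) (ε : ℝ) (hε : 0 < ε) :
    Filter.Tendsto (fun N : ℕ => (({D : ℤ | Squarefree D ∧ |D| ≤ N ∧ ∃ x y : ℤ,
        y ^ 2 = x ^ 3 + A * D ^ 2 * x + B * D ^ 3 ∧
        |(D : ℝ)| ^ (2 + ε) < |(x : ℝ)|} : Set ℤ).ncard : ℝ) / N)
      Filter.atTop (nhds 0) := by
  obtain ⟨e, he, hb, hΔ⟩ := root_data A B hd hr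
  rw [Metric.tendsto_atTop]
  intro η hη
  obtain ⟨N₀, hN₀⟩ := final_full A B e he hb hΔ ε (η / 2) hε (by linarith)
  refine ⟨N₀ + 1, fun N hN => ?_⟩
  have hfin : ({D : ℤ | Squarefree D ∧ |D| ≤ N ∧ ∃ x y : ℤ,
        y ^ 2 = x ^ 3 + A * D ^ 2 * x + B * D ^ 3 ∧
        |(D : ℝ)| ^ (2 + ε) < |(x : ℝ)|} : Set ℤ).Finite := by
    refine (Set.finite_Icc (-(N : ℤ)) N).subset ?_
    rintro D ⟨-, hD, -⟩
    exact abs_le.1 hD
  have hNpos : (0 : ℝ) < (N : ℝ) := by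
    have : 1 ≤ N := by omega
    exact_mod_cast this
  have h1 := hN₀ N (by omega) hfin.toFinset (by
    intro D hD
    rw [Set.Finite.mem_toFinset] at hD
    obtain ⟨h1, h2, x, y, h3, h4⟩ := hD
    refine ⟨h1, h2, x, y, h3, ?_⟩
    rw [Int.cast_abs, Int.cast_abs]
    exact h4)
  rw [← Set.ncard_eq_toFinset_card _ hfin] at h1
  rw [Real.dist_eq, sub_zero, abs_of_nonneg (by positivity), div_lt_iff₀ hNpos]
  have h2 : η / 2 * (N : ℝ) < η * N := by
    have : 0 < η * (N : ℝ) := by positivity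
    linarith
  exact lt_of_le_of_lt h1 h2

private lemma cubes_root : ∃! r : ℚ, r ^ 3 + (0 : ℤ) * r + (1 : ℤ) = 0 := by
  refine ⟨-1, by norm_num, ?_⟩
  intro r hr
  have h1 : (r + 1) * (r ^ 2 - r + 1) = 0 := by
    have h2 : r ^ 3 + 1 = 0 := by
      have h3 : r ^ 3 + ((0 : ℤ) : ℚ) * r + ((1 : ℤ) : ℚ) = 0 := hr
      push_cast at h3
      linarith
    linear_combination h2
  rcases mul_eq_zero.1 h1 with h | h
  · linarith
  · exfalso
    nlinarith [sq_nonneg (r - 1 / 2)]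

private lemma cubes_pow (ε a b : ℝ) (hε : 0 < ε) (hε' : ε < 3 / 2) (ha : 0 ≤ a) (hb : b = 0 ∨ 1 ≤ b)
    (h : a ^ 3 < b ^ (3 / 2 - ε)) : a ^ (2 + 2 * ε / 3) < b := by
  have hq : 0 < 3 / 2 - ε := by linarith
  rcases hb with hb | hb
  · rw [hb, Real.zero_rpow hq.ne'] at h
    have : 0 ≤ a ^ 3 := by positivity
    linarith
  · have hb0 : 0 ≤ b := by linarith
    have hp : 0 < (2 + 2 * ε / 3) / 3 := by positivity
    have h1 : (a ^ 3) ^ ((2 + 2 * ε / 3) / 3) < (b ^ (3 / 2 - ε)) ^ ((2 + 2 * ε / 3) / 3) :=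
      Real.rpow_lt_rpow (by positivity) h hp
    rw [← Real.rpow_natCast a 3, ← Real.rpow_mul ha, ← Real.rpow_mul hb0] at h1
    have h2 : ((3 : ℕ) : ℝ) * ((2 + 2 * ε / 3) / 3) = 2 + 2 * ε / 3 := by
      push_cast
      ring
    rw [h2] at h1
    refine lt_of_lt_of_le h1 ?_
    calc b ^ ((3 / 2 - ε) * ((2 + 2 * ε / 3) / 3)) ≤ b ^ (1 : ℝ) :=
          Real.rpow_le_rpow_of_exponent_le hb (by nlinarith [sq_nonneg ε])
      _ = b := Real.rpow_one b

/-- Row PF5c. The case `A = 0`, `B = 1` (`r^3 + 1 = 0` has the only rational root `-1`), in Hall's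
form. If `|y^2 - x^3| < |x|^(3/2 - ε)` with `y^2 - x^3 = m^3`, then `|m|^3 < |x|^(3/2 - ε)`, `x ≠ 0`, so
`|m|^(2+ε') < |x|` with `ε' = 2ε/3` for `ε < 3/2` (`(2 + ε') (3/2 - ε) / 3 ≤ 1`); for `ε ≥ 3/2` (real power with
exponent `≤ 0`, `|x| ≥ 1`) the set is contained in `m = 0`, or `x = 0`: not squarefree / `0 ^ (negative)`:
treat `ε < 3/2` only: it is a hypothesis. -/
theorem hall_cubes (ε : ℝ) (hε : 0 < ε) (hε' : ε < 3 / 2) :
    Filter.Tendsto (fun N : ℕ => (({m : ℤ | Squarefree m ∧ |m| ≤ N ∧ ∃ x y : ℤ,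
        y ^ 2 - x ^ 3 = m ^ 3 ∧ |((y ^ 2 - x ^ 3 : ℤ) : ℝ)| < |(x : ℝ)| ^ (3 / 2 - ε)} : Set ℤ).ncard : ℝ) / N)
      Filter.atTop (nhds 0) := by
  have h0 := twist_full 0 1 (by norm_num) cubes_root (2 * ε / 3) (by positivity)
  refine squeeze_zero (fun N => by positivity) (fun N => ?_) h0
  have hfin : ({D : ℤ | Squarefree D ∧ |D| ≤ N ∧ ∃ x y : ℤ,
        y ^ 2 = x ^ 3 + 0 * D ^ 2 * x + 1 * D ^ 3 ∧
        |(D : ℝ)| ^ (2 + 2 * ε / 3) < |(x : ℝ)|} : Set ℤ).Finite := by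
    refine (Set.finite_Icc (-(N : ℤ)) N).subset ?_
    rintro D ⟨-, hD, -⟩
    exact abs_le.1 hD
  refine div_le_div_of_nonneg_right ?_ (Nat.cast_nonneg N)
  have hsub : {m : ℤ | Squarefree m ∧ |m| ≤ N ∧ ∃ x y : ℤ,
        y ^ 2 - x ^ 3 = m ^ 3 ∧ |((y ^ 2 - x ^ 3 : ℤ) : ℝ)| < |(x : ℝ)| ^ (3 / 2 - ε)} ⊆
      {D : ℤ | Squarefree D ∧ |D| ≤ N ∧ ∃ x y : ℤ,
        y ^ 2 = x ^ 3 + 0 * D ^ 2 * x + 1 * D ^ 3 ∧
        |(D : ℝ)| ^ (2 + 2 * ε / 3) < |(x : ℝ)|} := by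
    rintro m ⟨h1, h2, x, y, h3, h4⟩
    refine ⟨h1, h2, x, y, by linarith, ?_⟩
    refine cubes_pow ε _ _ hε hε' (abs_nonneg _) ?_ ?_
    · by_cases hx : x = 0
      · left
        rw [hx]
        simp
      · right
        have h5 : 1 ≤ |x| := Int.one_le_abs hx
        have h6 : (1 : ℝ) ≤ ((|x| : ℤ) : ℝ) := by exact_mod_cast h5
        rwa [Int.cast_abs] at h6
    · rw [h3] at h4
      push_cast at h4
      rwa [abs_pow] at h4
  exact_mod_cast Set.ncard_le_ncard hsub hfin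

end TwT
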