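import Pool.Agent.LibTwT.PF4
import Pool.Agent.LibTwT.PF5

set_option autoImplicit false

namespace TwT

/-- multiples of squares of numbers above `F` -/
private theorem pf6_multiples (F N : ℕ) (hF : 1 ≤ F) (S : Finset ℤ)
    (hS : ∀ D ∈ S, D ≠ 0 ∧ |D| ≤ N ∧ ∃ (f : ℕ) (k : ℤ), F < f ∧ D = k * (f : ℤ) ^ 2) :
    (S.card : ℝ) ≤ 2 * N / F := by
  classical
  have hsub : S ⊆ (Finset.Ioc F (max F N)).biUnion fun f =>
      ((Finset.Icc (-((N / f ^ 2 : ℕ) : ℤ)) ((N / f ^ 2 : ℕ) : ℤ)).erase 0).image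
        fun k => k * (f : ℤ) ^ 2 := by
    intro D hD
    obtain ⟨h0, h1, f, k, h2, h3⟩ := hS D hD
    have hf : (1 : ℤ) ≤ (f : ℤ) := by exact_mod_cast (by omega : 1 ≤ f)
    have hf2 : (0 : ℤ) < (f : ℤ) ^ 2 := by positivity
    have hk0 : k ≠ 0 := by
      rintro rfl
      exact h0 (by rw [h3]; ring)
    have hk1 : 1 ≤ |k| := Int.one_le_abs hk0
    have habs : |D| = |k| * (f : ℤ) ^ 2 := by
      rw [h3, abs_mul, abs_of_pos hf2]
    have hkN : |k| ≤ ((N / f ^ 2 : ℕ) : ℤ) := by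
      push_cast
      rw [Int.le_ediv_iff_mul_le hf2]
      linarith
    have hfN : (f : ℤ) ≤ N := by
      have h4 : (f : ℤ) ≤ (f : ℤ) ^ 2 := by nlinarith
      nlinarith
    rw [Finset.mem_biUnion]
    refine ⟨f, ?_, ?_⟩
    · rw [Finset.mem_Ioc]
      refine ⟨h2, le_max_of_le_right (by exact_mod_cast hfN)⟩
    · rw [Finset.mem_image]
      refine ⟨k, ?_, h3.symm⟩
      rw [Finset.mem_erase, Finset.mem_Icc]
      exact ⟨hk0, abs_le.1 hkN⟩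
  have hc1 : (S.card : ℝ) ≤ ∑ f ∈ Finset.Ioc F (max F N), (2 * N : ℝ) * ((f : ℝ) ^ 2)⁻¹ := by
    have h1 : S.card ≤ ∑ f ∈ Finset.Ioc F (max F N),
        (((Finset.Icc (-((N / f ^ 2 : ℕ) : ℤ)) ((N / f ^ 2 : ℕ) : ℤ)).erase 0).image
          fun k => k * (f : ℤ) ^ 2).card :=
      (Finset.card_le_card hsub).trans Finset.card_biUnion_le
    have h2 : ∀ f ∈ Finset.Ioc F (max F N),
        ((((Finset.Icc (-((N / f ^ 2 : ℕ) : ℤ)) ((N / f ^ 2 : ℕ) : ℤ)).erase 0).image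
          fun k => k * (f : ℤ) ^ 2).card : ℝ) ≤ (2 * N : ℝ) * ((f : ℝ) ^ 2)⁻¹ := by
      intro f hf
      rw [Finset.mem_Ioc] at hf
      have hf0 : (0 : ℝ) < (f : ℝ) ^ 2 := by
        have : (0 : ℝ) < (f : ℝ) := by exact_mod_cast (by omega : 0 < f)
        positivity
      have h3 : (((Finset.Icc (-((N / f ^ 2 : ℕ) : ℤ)) ((N / f ^ 2 : ℕ) : ℤ)).erase 0).image
          fun k => k * (f : ℤ) ^ 2).card ≤ 2 * (N / f ^ 2) := by
        refine Finset.card_image_le.trans ?_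
        have hnn : (0 : ℤ) ≤ ((N / f ^ 2 : ℕ) : ℤ) := Int.natCast_nonneg _
        rw [Finset.card_erase_of_mem (by rw [Finset.mem_Icc]; exact ⟨by linarith, hnn⟩),
          Int.card_Icc]
        omega
      calc ((((Finset.Icc (-((N / f ^ 2 : ℕ) : ℤ)) ((N / f ^ 2 : ℕ) : ℤ)).erase 0).image
          fun k => k * (f : ℤ) ^ 2).card : ℝ) ≤ ((2 * (N / f ^ 2) : ℕ) : ℝ) := by exact_mod_cast h3
        _ = 2 * ((N / f ^ 2 : ℕ) : ℝ) := by push_cast; ring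
        _ ≤ 2 * ((N : ℝ) / ((f ^ 2 : ℕ) : ℝ)) := by
            have := @Nat.cast_div_le ℝ _ _ _ N (f ^ 2)
            linarith
        _ = (2 * N : ℝ) * ((f : ℝ) ^ 2)⁻¹ := by
            push_cast
            rw [div_eq_mul_inv]
            ring
    calc (S.card : ℝ) ≤ ((∑ f ∈ Finset.Ioc F (max F N),
        (((Finset.Icc (-((N / f ^ 2 : ℕ) : ℤ)) ((N / f ^ 2 : ℕ) : ℤ)).erase 0).image
          fun k => k * (f : ℤ) ^ 2).card : ℕ) : ℝ) := by exact_mod_cast h1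
      _ = ∑ f ∈ Finset.Ioc F (max F N),
        ((((Finset.Icc (-((N / f ^ 2 : ℕ) : ℤ)) ((N / f ^ 2 : ℕ) : ℤ)).erase 0).image
          fun k => k * (f : ℤ) ^ 2).card : ℝ) := by push_cast; rfl
      _ ≤ _ := Finset.sum_le_sum h2
  have hc2 : ∑ f ∈ Finset.Ioc F (max F N), ((f : ℝ) ^ 2)⁻¹ ≤ (F : ℝ)⁻¹ := by
    have h1 := sum_Ioc_inv_sq_le_sub (α := ℝ) (k := F) (n := max F N) (by omega) (le_max_left _ _)
    have h2 : (0 : ℝ) ≤ ((max F N : ℕ) : ℝ)⁻¹ := by positivity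
    linarith
  rw [← Finset.mul_sum] at hc1
  calc (S.card : ℝ) ≤ 2 * N * ∑ f ∈ Finset.Ioc F (max F N), ((f : ℝ) ^ 2)⁻¹ := hc1
    _ ≤ 2 * N * (F : ℝ)⁻¹ := by
        refine mul_le_mul_of_nonneg_left hc2 (by positivity)
    _ = 2 * N / F := by rw [div_eq_mul_inv]

/-- all nonzero integers `D` instead of squarefree ones, first coordinate -/
private theorem pf6_all (A B e : ℤ) (he : e ^ 3 + A * e + B = 0) (hb : 3 * e ^ 2 + A ≠ 0)
    (hΔ : ¬ IsSquare (-3 * e ^ 2 - 4 * A)) (δ η : ℝ) (hδ : 0 < δ) (hη : 0 < η) :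
    ∃ N₀ : ℕ, ∀ N : ℕ, N₀ ≤ N → ∀ S : Finset ℤ,
    (∀ D ∈ S, D ≠ 0 ∧ |D| ≤ N ∧ ∃ x y : ℤ,
      y ^ 2 = x ^ 3 + A * D ^ 2 * x + B * D ^ 3 ∧
      ((|D| : ℤ) : ℝ) ^ (2 + δ) < ((|x| : ℤ) : ℝ)) →
    (S.card : ℝ) ≤ η * N := by
  classical
  obtain ⟨F, hF⟩ := exists_nat_gt (4 / η)
  have hF0 : (0 : ℝ) < F := lt_trans (by positivity) hF
  have hF1 : 1 ≤ F := by exact_mod_cast hF0
  have hfull : ∀ f : ℕ, ∃ N₀ : ℕ, f = 0 ∨ ∀ N : ℕ, N₀ ≤ N → ∀ S : Finset ℤ,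
      (∀ D ∈ S, Squarefree D ∧ |D| ≤ N ∧ ∃ x y : ℤ,
        y ^ 2 = x ^ 3 + (A * (f : ℤ) ^ 4) * D ^ 2 * x + (B * (f : ℤ) ^ 6) * D ^ 3 ∧
        ((|D| : ℤ) : ℝ) ^ (2 + δ) < ((|x| : ℤ) : ℝ)) →
      (S.card : ℝ) ≤ (η / (2 * F)) * N := by
    intro f
    rcases Nat.eq_zero_or_pos f with h0 | hpos
    · exact ⟨0, Or.inl h0⟩
    have hfz : (f : ℤ) ≠ 0 := by exact_mod_cast hpos.ne'
    have h1 : (e * (f : ℤ) ^ 2) ^ 3 + (A * (f : ℤ) ^ 4) * (e * (f : ℤ) ^ 2) + B * (f : ℤ) ^ 6 = 0 := by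
      have : (e * (f : ℤ) ^ 2) ^ 3 + (A * (f : ℤ) ^ 4) * (e * (f : ℤ) ^ 2) + B * (f : ℤ) ^ 6 =
          (f : ℤ) ^ 6 * (e ^ 3 + A * e + B) := by ring
      rw [this, he, mul_zero]
    have h2 : 3 * (e * (f : ℤ) ^ 2) ^ 2 + A * (f : ℤ) ^ 4 ≠ 0 := by
      have : 3 * (e * (f : ℤ) ^ 2) ^ 2 + A * (f : ℤ) ^ 4 = (f : ℤ) ^ 4 * (3 * e ^ 2 + A) := by ring
      rw [this]
      exact mul_ne_zero (pow_ne_zero _ hfz) hb
    have h3 : ¬ IsSquare (-3 * (e * (f : ℤ) ^ 2) ^ 2 - 4 * (A * (f : ℤ) ^ 4)) := by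
      rintro ⟨s, hs⟩
      apply hΔ
      have h4 : ((f : ℤ) ^ 2) ^ 2 * (-3 * e ^ 2 - 4 * A) = s ^ 2 := by
        rw [sq s, ← hs]
        ring
      have h5 : (f : ℤ) ^ 2 ∣ s := by
        rw [← Int.pow_dvd_pow_iff (n := 2) (by norm_num)]
        exact ⟨_, h4.symm⟩
      obtain ⟨t, ht⟩ := h5
      refine ⟨t, ?_⟩
      have h6 : ((f : ℤ) ^ 2) ^ 2 * (-3 * e ^ 2 - 4 * A) = ((f : ℤ) ^ 2) ^ 2 * (t * t) := by
        rw [h4, ht]
        ring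
      exact mul_left_cancel₀ (pow_ne_zero _ (pow_ne_zero _ hfz)) h6
    obtain ⟨N₀, hN₀⟩ := final_full (A * (f : ℤ) ^ 4) (B * (f : ℤ) ^ 6) (e * (f : ℤ) ^ 2) h1 h2 h3 δ
      (η / (2 * F)) hδ (by positivity)
    exact ⟨N₀, Or.inr hN₀⟩
  choose n hn using hfull
  refine ⟨∑ f ∈ Finset.range (F + 1), n f, fun N hN S hS => ?_⟩
  -- decomposition
  have hdec : ∀ D : ℤ, D ≠ 0 → ∃ (f : ℕ) (k : ℤ), 0 < f ∧ Squarefree k ∧ D = k * (f : ℤ) ^ 2 := by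
    intro D hD
    obtain ⟨a, b, hab, ha⟩ := Nat.sq_mul_squarefree D.natAbs
    have hb0 : 0 < b := by
      rcases Nat.eq_zero_or_pos b with h | h
      · rw [h] at hab
        exfalso
        apply hD
        rw [← Int.natAbs_eq_zero, ← hab]
        ring
      · exact h
    refine ⟨b, D.sign * a, hb0, ?_, ?_⟩
    · rw [← Int.squarefree_natAbs, Int.natAbs_mul, Int.natAbs_sign_of_ne_zero hD, one_mul,
        Int.natAbs_natCast]
      exact ha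
    · have h1 := Int.sign_mul_natAbs D
      rw [← hab] at h1
      push_cast at h1
      rw [← h1]
      have h2 : (D.sign * ((b : ℤ) ^ 2 * (a : ℤ))).sign = D.sign := by
        have h3 : D.sign * ((b : ℤ) ^ 2 * (a : ℤ)) = D := h1
        rw [h3]
      rw [h2]
      ring
  let P : ℕ → ℤ → Prop := fun f k => Squarefree k ∧ ∃ x y : ℤ,
        y ^ 2 = x ^ 3 + (A * (f : ℤ) ^ 4) * k ^ 2 * x + (B * (f : ℤ) ^ 6) * k ^ 3 ∧
        ((|k| : ℤ) : ℝ) ^ (2 + δ) < ((|x| : ℤ) : ℝ)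
  have hkey : ∀ D ∈ S, ∃ (f : ℕ) (k : ℤ), 0 < f ∧ |k| ≤ N ∧ P f k ∧ D = k * (f : ℤ) ^ 2 := by
    intro D hD
    obtain ⟨h0, h1, x, y, h2, h3⟩ := hS D hD
    obtain ⟨f, k, hf, hk, hDk⟩ := hdec D h0
    have hfz : (1 : ℤ) ≤ (f : ℤ) := by exact_mod_cast hf
    have hf2 : (1 : ℤ) ≤ (f : ℤ) ^ 2 := one_le_pow₀ hfz
    have hkD : |k| ≤ |D| := by
      rw [hDk, abs_mul, abs_of_pos (by positivity : (0 : ℤ) < (f : ℤ) ^ 2)]
      nlinarith [abs_nonneg k]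
    refine ⟨f, k, hf, hkD.trans h1, ⟨hk, x, y, ?_, ?_⟩, hDk⟩
    · rw [h2, hDk]
      ring
    · refine lt_of_le_of_lt ?_ h3
      refine Real.rpow_le_rpow (by positivity) (by exact_mod_cast hkD) (by linarith)
  have hsplit : S ⊆ ((Finset.range (F + 1)).biUnion fun f =>
      ((Finset.Icc (-(N : ℤ)) N).filter fun k => f ≠ 0 ∧ P f k).image fun k => k * (f : ℤ) ^ 2) ∪
      (S.filter fun D => ∃ (f : ℕ) (k : ℤ), F < f ∧ D = k * (f : ℤ) ^ 2) := by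
    intro D hD
    obtain ⟨f, k, hf, hk, hP, hDk⟩ := hkey D hD
    rw [Finset.mem_union]
    by_cases hfF : f ≤ F
    · left
      rw [Finset.mem_biUnion]
      refine ⟨f, Finset.mem_range.2 (by omega), ?_⟩
      rw [Finset.mem_image]
      refine ⟨k, ?_, hDk.symm⟩
      rw [Finset.mem_filter, Finset.mem_Icc]
      exact ⟨abs_le.1 hk, hf.ne', hP⟩
    · right
      rw [Finset.mem_filter]
      exact ⟨hD, f, k, by omega, hDk⟩
  have hc1 : (S.card : ℝ) ≤ ∑ f ∈ Finset.range (F + 1),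
      (((Finset.Icc (-(N : ℤ)) N).filter fun k => f ≠ 0 ∧ P f k).card : ℝ) +
      ((S.filter fun D => ∃ (f : ℕ) (k : ℤ), F < f ∧ D = k * (f : ℤ) ^ 2).card : ℝ) := by
    have h1 := (Finset.card_le_card hsplit).trans (Finset.card_union_le _ _)
    have h2 : ((Finset.range (F + 1)).biUnion fun f =>
      ((Finset.Icc (-(N : ℤ)) N).filter fun k => f ≠ 0 ∧ P f k).image fun k => k * (f : ℤ) ^ 2).card
        ≤ ∑ f ∈ Finset.range (F + 1),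
          ((Finset.Icc (-(N : ℤ)) N).filter fun k => f ≠ 0 ∧ P f k).card :=
      Finset.card_biUnion_le.trans (Finset.sum_le_sum fun f _ => Finset.card_image_le)
    have h3 := h1.trans (Nat.add_le_add_right h2 _)
    exact_mod_cast h3
  have hc2 : ∀ f ∈ Finset.range (F + 1),
      (((Finset.Icc (-(N : ℤ)) N).filter fun k => f ≠ 0 ∧ P f k).card : ℝ) ≤
        if f = 0 then 0 else (η / (2 * F)) * N := by
    intro f hf
    by_cases hf0 : f = 0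
    · rw [if_pos hf0]
      have : ((Finset.Icc (-(N : ℤ)) N).filter fun k => f ≠ 0 ∧ P f k) = ∅ := by
        rw [Finset.filter_eq_empty_iff]
        rintro k - ⟨h, -⟩
        exact h hf0
      rw [this]
      simp
    · rw [if_neg hf0]
      have h1 := (hn f).resolve_left hf0
      have h2 : n f ≤ N := (Finset.single_le_sum (f := n) (fun i _ => Nat.zero_le _) hf).trans hN
      refine h1 N h2 _ fun k hk => ?_
      rw [Finset.mem_filter, Finset.mem_Icc] at hk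
      obtain ⟨h3, -, h4, h5⟩ := hk
      exact ⟨h4, abs_le.2 h3, h5⟩
  have hc3 : ∑ f ∈ Finset.range (F + 1), (if f = 0 then (0 : ℝ) else (η / (2 * F)) * N) =
      (η / 2) * N := by
    rw [Finset.sum_range_succ']
    simp only [Nat.add_eq_zero_iff, one_ne_zero, and_false, if_false, if_true, Finset.sum_const,
      Finset.card_range, nsmul_eq_mul, add_zero]
    field_simp
  have hc4 := pf6_multiples F N hF1
    (S.filter fun D => ∃ (f : ℕ) (k : ℤ), F < f ∧ D = k * (f : ℤ) ^ 2) (by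
    intro D hD
    rw [Finset.mem_filter] at hD
    exact ⟨(hS D hD.1).1, (hS D hD.1).2.1, hD.2⟩)
  have hc5 : 2 * (N : ℝ) / F ≤ (η / 2) * N := by
    have h1 : 4 / η < F := hF
    rw [div_lt_iff₀ hη] at h1
    rw [div_le_iff₀ hF0]
    have h2 : (0 : ℝ) ≤ N := Nat.cast_nonneg N
    nlinarith
  have hc6 := Finset.sum_le_sum hc2
  rw [hc3] at hc6
  linarith

/-- the second coordinate is bounded by the first one -/
private theorem pf6_y (A B D x y : ℤ) (ε : ℝ) (hε : 0 < ε) (hD : D ≠ 0)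
    (h : y ^ 2 = x ^ 3 + A * D ^ 2 * x + B * D ^ 3)
    (hbig : (1 + |(A : ℝ)| + |(B : ℝ)|) < |(D : ℝ)| ^ (ε / 2))
    (hy : |(D : ℝ)| ^ (3 + ε) < |(y : ℝ)|) : |(D : ℝ)| ^ (2 + ε / 2) < |(x : ℝ)| := by
  by_contra hx
  push Not at hx
  have hD1 : (1 : ℝ) ≤ |(D : ℝ)| := by
    have := Int.one_le_abs hD
    have h2 : (1 : ℝ) ≤ ((|D| : ℤ) : ℝ) := by exact_mod_cast this
    rwa [Int.cast_abs] at h2
  set d : ℝ := |(D : ℝ)| with hd
  have hd0 : 0 < d := by linarith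
  have hreal : (y : ℝ) ^ 2 = (x : ℝ) ^ 3 + A * (D : ℝ) ^ 2 * x + B * (D : ℝ) ^ 3 := by
    exact_mod_cast h
  have h1 : |(y : ℝ)| ^ 2 ≤ |(x : ℝ)| ^ 3 + |(A : ℝ)| * d ^ 2 * |(x : ℝ)| + |(B : ℝ)| * d ^ 3 := by
    rw [sq_abs, hreal]
    refine (le_abs_self _).trans ((abs_add_le _ _).trans ?_)
    refine add_le_add ((abs_add_le _ _).trans ?_) ?_
    · rw [abs_pow, abs_mul, abs_mul, abs_pow]
    · rw [abs_mul, abs_pow]
  have h2 : |(x : ℝ)| ^ 3 ≤ d ^ (6 + 3 * (ε / 2)) := by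
    calc |(x : ℝ)| ^ 3 ≤ (d ^ (2 + ε / 2)) ^ 3 := pow_le_pow_left₀ (abs_nonneg _) hx 3
      _ = d ^ (6 + 3 * (ε / 2)) := by
        rw [← Real.rpow_natCast, ← Real.rpow_mul hd0.le]
        congr 1
        push_cast
        ring
  have h3 : d ^ 2 * |(x : ℝ)| ≤ d ^ (6 + 3 * (ε / 2)) := by
    calc d ^ 2 * |(x : ℝ)| ≤ d ^ (2 : ℝ) * d ^ (2 + ε / 2) := by
          refine mul_le_mul (by rw [← Real.rpow_natCast]; norm_num) hx (abs_nonneg _) (by positivity)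
      _ = d ^ (2 + (2 + ε / 2)) := by rw [← Real.rpow_add hd0]
      _ ≤ d ^ (6 + 3 * (ε / 2)) := Real.rpow_le_rpow_of_exponent_le hD1 (by linarith)
  have h4 : d ^ 3 ≤ d ^ (6 + 3 * (ε / 2)) := by
    calc d ^ 3 = d ^ (3 : ℝ) := by rw [← Real.rpow_natCast]; norm_num
      _ ≤ d ^ (6 + 3 * (ε / 2)) := Real.rpow_le_rpow_of_exponent_le hD1 (by linarith)
  have h5 : |(y : ℝ)| ^ 2 ≤ (1 + |(A : ℝ)| + |(B : ℝ)|) * d ^ (6 + 3 * (ε / 2)) := by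
    have h6 := mul_le_mul_of_nonneg_left h3 (abs_nonneg (A : ℝ))
    have h7 := mul_le_mul_of_nonneg_left h4 (abs_nonneg (B : ℝ))
    nlinarith
  have h6 : (1 + |(A : ℝ)| + |(B : ℝ)|) * d ^ (6 + 3 * (ε / 2)) < d ^ (6 + 2 * ε) := by
    calc (1 + |(A : ℝ)| + |(B : ℝ)|) * d ^ (6 + 3 * (ε / 2)) <
          d ^ (ε / 2) * d ^ (6 + 3 * (ε / 2)) :=
          mul_lt_mul_of_pos_right hbig (Real.rpow_pos_of_pos hd0 _)
      _ = d ^ (6 + 2 * ε) := by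
        rw [← Real.rpow_add hd0]
        congr 1
        ring
  have h7 : d ^ (6 + 2 * ε) < |(y : ℝ)| ^ 2 := by
    calc d ^ (6 + 2 * ε) = (d ^ (3 + ε)) ^ 2 := by
          rw [← Real.rpow_natCast, ← Real.rpow_mul hd0.le]
          congr 1
          push_cast
          ring
      _ < |(y : ℝ)| ^ 2 := pow_lt_pow_left₀ hy (by positivity) (by norm_num)
  linarith

/-- Row PF6a. All nonzero integers `D` and both coordinates. -/
theorem twist_all (A B : ℤ) (hd : 4 * A ^ 3 + 27 * B ^ 2 ≠ 0)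
    (hr : ∃! r : ℚ, r ^ 3 + A * r + B = 0) (ε : ℝ) (hε : 0 < ε) :
    Filter.Tendsto (fun N : ℕ => (({D : ℤ | D ≠ 0 ∧ |D| ≤ N ∧ ∃ x y : ℤ,
        y ^ 2 = x ^ 3 + A * D ^ 2 * x + B * D ^ 3 ∧
        (|(D : ℝ)| ^ (2 + ε) < |(x : ℝ)| ∨ |(D : ℝ)| ^ (3 + ε) < |(y : ℝ)|)} : Set ℤ).ncard : ℝ) / N)
      Filter.atTop (nhds 0) := by
  classical
  obtain ⟨e, he, hb, hΔ⟩ := root_data A B hd hr
  -- threshold for the second coordinate
  obtain ⟨M, hM⟩ : ∃ M : ℕ, ∀ D : ℤ, (M : ℤ) < |D| →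
      (1 + |(A : ℝ)| + |(B : ℝ)|) < |(D : ℝ)| ^ (ε / 2) := by
    obtain ⟨M, hM⟩ := exists_nat_gt ((1 + |(A : ℝ)| + |(B : ℝ)|) ^ (2 / ε))
    refine ⟨M, fun D hD => ?_⟩
    have h1 : ((M : ℤ) : ℝ) < ((|D| : ℤ) : ℝ) := by exact_mod_cast hD
    rw [Int.cast_natCast, Int.cast_abs] at h1
    have h2 : (1 + |(A : ℝ)| + |(B : ℝ)|) ^ (2 / ε) < |(D : ℝ)| := hM.trans h1
    have h0 : (0 : ℝ) ≤ 1 + |(A : ℝ)| + |(B : ℝ)| := by positivity
    have h3 := Real.rpow_lt_rpow (by positivity) h2 (by positivity : 0 < ε / 2)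
    rw [← Real.rpow_mul h0] at h3
    have h4 : 2 / ε * (ε / 2) = 1 := by
      field_simp
    rwa [h4, Real.rpow_one] at h3
  rw [Metric.tendsto_atTop]
  intro η hη
  obtain ⟨N₀, hN₀⟩ := pf6_all A B e he hb hΔ (ε / 2) (η / 4) (by positivity) (by positivity)
  refine ⟨max (N₀ + 1) ⌈4 * (2 * (M : ℝ) + 1) / η⌉₊, fun N hN => ?_⟩
  have hN1 : N₀ + 1 ≤ N := (le_max_left _ _).trans hN
  have hN2 : 4 * (2 * (M : ℝ) + 1) / η ≤ N := Nat.ceil_le.1 ((le_max_right _ _).trans hN)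
  have hfin : ({D : ℤ | D ≠ 0 ∧ |D| ≤ N ∧ ∃ x y : ℤ,
        y ^ 2 = x ^ 3 + A * D ^ 2 * x + B * D ^ 3 ∧
        (|(D : ℝ)| ^ (2 + ε) < |(x : ℝ)| ∨ |(D : ℝ)| ^ (3 + ε) < |(y : ℝ)|)} : Set ℤ).Finite := by
    refine (Set.finite_Icc (-(N : ℤ)) N).subset ?_
    rintro D ⟨-, hD, -⟩
    exact abs_le.1 hD
  have hNpos : (0 : ℝ) < (N : ℝ) := by
    have : 1 ≤ N := by omega
    exact_mod_cast this
  rw [Set.ncard_eq_toFinset_card _ hfin]
  have hcard := Finset.card_filter_add_card_filter_not (s := hfin.toFinset) (fun D : ℤ => |D| ≤ (M : ℤ))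
  have hA : ((hfin.toFinset.filter fun D : ℤ => |D| ≤ (M : ℤ)).card : ℝ) ≤ 2 * M + 1 := by
    have h1 : (hfin.toFinset.filter fun D : ℤ => |D| ≤ (M : ℤ)) ⊆ Finset.Icc (-(M : ℤ)) M := by
      intro D hD
      rw [Finset.mem_filter] at hD
      rw [Finset.mem_Icc]
      exact abs_le.1 hD.2
    have h2 := Finset.card_le_card h1
    rw [Int.card_Icc] at h2
    have h3 : (hfin.toFinset.filter fun D : ℤ => |D| ≤ (M : ℤ)).card ≤ 2 * M + 1 := by omega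
    exact_mod_cast h3
  have hB : ((hfin.toFinset.filter fun D : ℤ => ¬ |D| ≤ (M : ℤ)).card : ℝ) ≤ η / 4 * N := by
    refine hN₀ N (by omega) _ fun D hD => ?_
    rw [Finset.mem_filter, Set.Finite.mem_toFinset] at hD
    obtain ⟨⟨h0, h1, x, y, h2, h3⟩, h4⟩ := hD
    push Not at h4
    refine ⟨h0, h1, x, y, h2, ?_⟩
    rw [Int.cast_abs, Int.cast_abs]
    have hD1 : (1 : ℝ) ≤ |(D : ℝ)| := by
      have := Int.one_le_abs h0
      have h5 : (1 : ℝ) ≤ ((|D| : ℤ) : ℝ) := by exact_mod_cast this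
      rwa [Int.cast_abs] at h5
    rcases h3 with h3 | h3
    · refine lt_of_le_of_lt ?_ h3
      exact Real.rpow_le_rpow_of_exponent_le hD1 (by linarith)
    · exact pf6_y A B D x y ε hε h0 h2 (hM D h4) h3
  rw [div_le_iff₀ hη] at hN2
  rw [Real.dist_eq, sub_zero, abs_of_nonneg (by positivity), div_lt_iff₀ hNpos]
  have hsum : ((hfin.toFinset.filter fun D : ℤ => |D| ≤ (M : ℤ)).card : ℝ) +
      ((hfin.toFinset.filter fun D : ℤ => ¬ |D| ≤ (M : ℤ)).card : ℝ) = hfin.toFinset.card := by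
    exact_mod_cast hcard
  have h2 : η / 4 * (N : ℝ) + η / 4 * N < η * N := by
    have : 0 < η * (N : ℝ) := by positivity
    linarith
  have h3 : 2 * (M : ℝ) + 1 ≤ η / 4 * N := by linarith
  linarith

private theorem pf6_root : ∃! r : ℚ, r ^ 3 + (0 : ℤ) * r + (1 : ℤ) = 0 := by
  refine ⟨-1, by norm_num, ?_⟩
  intro r hr
  have h1 : (r + 1) * (r ^ 2 - r + 1) = 0 := by
    have h2 : r ^ 3 + 1 = 0 := by
      have h3 : r ^ 3 + ((0 : ℤ) : ℚ) * r + ((1 : ℤ) : ℚ) = 0 := hr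
      push_cast at h3
      linarith
    linear_combination h2
  rcases mul_eq_zero.1 h1 with h | h
  · linarith
  · exfalso
    nlinarith [sq_nonneg (r - 1 / 2)]

private theorem pf6_pow (ε a b : ℝ) (hε : 0 < ε) (hε' : ε < 3 / 2) (ha : 0 ≤ a)
    (hb : b = 0 ∨ 1 ≤ b) (h : a ^ 3 < b ^ (3 / 2 - ε)) : a ^ (2 + 2 * ε / 3) < b := by
  have hq : 0 < 3 / 2 - ε := by linarith
  rcases hb with hb | hb
  · rw [hb, Real.zero_rpow hq.ne'] at h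
    have : 0 ≤ a ^ 3 := by positivity
    linarith
  · have hb0 : 0 ≤ b := by linarith
    have hp : 0 < (2 + 2 * ε / 3) / 3 := by positivity
    have h1 : (a ^ 3) ^ ((2 + 2 * ε / 3) / 3) < (b ^ (3 / 2 - ε)) ^ ((2 + 2 * ε / 3) / 3) :=
      Real.rpow_lt_rpow (by positivity) h hp
    rw [← Real.rpow_natCast a 3, ← Real.rpow_mul ha, ← Real.rpow_mul hb0] at h1
    have h2 : ((3 : ℕ) : ℝ) * ((2 + 2 * ε / 3) / 3) = 2 + 2 * ε / 3 := by
      push_cast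
      ring
    rw [h2] at h1
    refine lt_of_lt_of_le h1 ?_
    calc b ^ ((3 / 2 - ε) * ((2 + 2 * ε / 3) / 3)) ≤ b ^ (1 : ℝ) :=
          Real.rpow_le_rpow_of_exponent_le hb (by nlinarith [sq_nonneg ε])
      _ = b := Real.rpow_one b

/-- Row PF6b. Hall's form for all nonzero cubes (for `ε ≤ 1/2`, hence for all exponents between 1
and `3/2`, and for `ε < 3/2` in general). -/
theorem hall_all (ε : ℝ) (hε : 0 < ε) (hε' : ε < 3 / 2) :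
    Filter.Tendsto (fun N : ℕ => (({m : ℤ | m ≠ 0 ∧ |m| ≤ N ∧ ∃ x y : ℤ,
        y ^ 2 - x ^ 3 = m ^ 3 ∧ |((y ^ 2 - x ^ 3 : ℤ) : ℝ)| < |(x : ℝ)| ^ (3 / 2 - ε)} : Set ℤ).ncard : ℝ) / N)
      Filter.atTop (nhds 0) := by
  have h0 := twist_all 0 1 (by norm_num) pf6_root (2 * ε / 3) (by positivity)
  refine squeeze_zero (fun N => by positivity) (fun N => ?_) h0
  have hfin : ({D : ℤ | D ≠ 0 ∧ |D| ≤ N ∧ ∃ x y : ℤ,
        y ^ 2 = x ^ 3 + 0 * D ^ 2 * x + 1 * D ^ 3 ∧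
        (|(D : ℝ)| ^ (2 + 2 * ε / 3) < |(x : ℝ)| ∨
          |(D : ℝ)| ^ (3 + 2 * ε / 3) < |(y : ℝ)|)} : Set ℤ).Finite := by
    refine (Set.finite_Icc (-(N : ℤ)) N).subset ?_
    rintro D ⟨-, hD, -⟩
    exact abs_le.1 hD
  refine div_le_div_of_nonneg_right ?_ (Nat.cast_nonneg N)
  have hsub : {m : ℤ | m ≠ 0 ∧ |m| ≤ N ∧ ∃ x y : ℤ,
        y ^ 2 - x ^ 3 = m ^ 3 ∧ |((y ^ 2 - x ^ 3 : ℤ) : ℝ)| < |(x : ℝ)| ^ (3 / 2 - ε)} ⊆
      {D : ℤ | D ≠ 0 ∧ |D| ≤ N ∧ ∃ x y : ℤ,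
        y ^ 2 = x ^ 3 + 0 * D ^ 2 * x + 1 * D ^ 3 ∧
        (|(D : ℝ)| ^ (2 + 2 * ε / 3) < |(x : ℝ)| ∨
          |(D : ℝ)| ^ (3 + 2 * ε / 3) < |(y : ℝ)|)} := by
    rintro m ⟨h1, h2, x, y, h3, h4⟩
    refine ⟨h1, h2, x, y, by linarith, Or.inl ?_⟩
    refine pf6_pow ε _ _ hε hε' (abs_nonneg _) ?_ ?_
    · by_cases hx : x = 0
      · left
        rw [hx]
        simp
      · right
        have h5 : 1 ≤ |x| := Int.one_le_abs hx
        have h6 : (1 : ℝ) ≤ ((|x| : ℤ) : ℝ) := by exact_mod_cast h5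
        rwa [Int.cast_abs] at h6
    · rw [h3] at h4
      push_cast at h4
      rwa [abs_pow] at h4
  exact_mod_cast Set.ncard_le_ncard hsub hfin

end TwT
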