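import Pool.Agent.LibTwHL.Defs2

set_option autoImplicit false

namespace TwT

open TwHL

/-- Row TC1. `b k g > 0` a square, `b = k b'`, so `b' g` is a square, `g` squarefree: `b' = g c^2`.
`U = h u^2`, `X = k U`: `U (k U + a D₁) = g (w - c D₁) (w + c D₁)`. `d = gcd (w - c D₁, U) > 0`,
`q = U / d > 0`, `p = (w - c D₁) / d`: `q (k q d + a D₁) = g p (p d + 2 c D₁)`, i.e. with
`l = a q - 2 c g p`, `κ = g p^2 - k q^2`: `D₁ l = d κ`. `gcd (d, D₁) = 1` (`d ∣ U`, `IsCoprime X D₁`), so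
`l = d e`, `D₁ e = κ`, and `e U = q l`. `κ ≠ 0` as `g k` is no square and `q > 0`, so `e ≠ 0`.
`a^2 κ ≡ g δ p^2` and `(2 c g)^2 κ ≡ g δ q^2` modulo `l` (`δ = a^2 - 4 k g c^2`), and `e` divides `l`
and `κ`, `gcd (p, q) = 1`: `e ∣ g δ`. -/
theorem conic_param {a b D : ℤ} {h g k u w : ℕ} {D₁ : ℤ} (H : Dec a b D h g k u w D₁)
    (hb : b ≠ 0) (hsq : IsSquare (b * k * g)) (hns : ¬ IsSquare (g * k)) :
    ∃ (c : ℕ) (p q e : ℤ), 0 < c ∧ b = k * g * (c : ℤ) ^ 2 ∧ 0 < q ∧ IsCoprime p q ∧ e ≠ 0 ∧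
      e ∣ g * (a ^ 2 - 4 * b) ∧
      e * (h * (u : ℤ) ^ 2) = q * (a * q - 2 * c * g * p) ∧ e * D₁ = g * p ^ 2 - k * q ^ 2 := by
  obtain ⟨hh, hg, hk, hu, hw, hsqD, hDeq, hcop, hqf, hs1, hs2, hkb⟩ := H
  have hg0 : (0 : ℤ) < g := by exact_mod_cast hg
  have hk0 : (0 : ℤ) < k := by exact_mod_cast hk
  have hu0 : (0 : ℤ) < u := by exact_mod_cast hu
  have hh0 : (0 : ℤ) < h := by exact_mod_cast hh
  have hgsq : Squarefree g := hs2.squarefree_of_dvd ⟨k, rfl⟩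
  have hgsq' : Squarefree (g : ℤ) := Int.squarefree_natCast.2 hgsq
  -- the constant c
  obtain ⟨b', hb'⟩ := hkb
  obtain ⟨n, hn⟩ := hsq
  have hkn : (k : ℤ) ∣ n := by
    have h1 : (k : ℤ) ^ 2 ∣ n ^ 2 := ⟨b' * g, by rw [sq n, ← hn, hb']; ring⟩
    exact (Int.pow_dvd_pow_iff (by norm_num)).1 h1
  obtain ⟨m, hm⟩ := hkn
  have hbm : b' * g = m ^ 2 := by
    have h1 : (k : ℤ) ^ 2 * (b' * g) = (k : ℤ) ^ 2 * m ^ 2 := by
      calc (k : ℤ) ^ 2 * (b' * g) = b * k * g := by rw [hb']; ring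
        _ = n * n := hn
        _ = (k : ℤ) ^ 2 * m ^ 2 := by rw [hm]; ring
    exact mul_left_cancel₀ (by positivity) h1
  have hgm : (g : ℤ) ∣ m := by
    have h1 : (g : ℤ) ∣ m ^ 2 := ⟨b', by rw [← hbm]; ring⟩
    exact (hgsq'.dvd_pow_iff_dvd (by norm_num)).1 h1
  obtain ⟨c₀, hc₀⟩ := hgm
  have hb'2 : b' = g * c₀ ^ 2 := by
    have h1 : (g : ℤ) * b' = (g : ℤ) * (g * c₀ ^ 2) := by
      calc (g : ℤ) * b' = m ^ 2 := by rw [← hbm]; ring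
        _ = (g : ℤ) * (g * c₀ ^ 2) := by rw [hc₀]; ring
    exact mul_left_cancel₀ (by positivity) h1
  have hbc : b = k * g * ((c₀.natAbs : ℕ) : ℤ) ^ 2 := by
    rw [Int.natCast_natAbs, sq_abs, hb', hb'2]
    ring
  have hcpos : 0 < c₀.natAbs := by
    rw [Int.natAbs_pos]
    rintro rfl
    apply hb
    rw [hbc]
    simp
  obtain ⟨c, hcdef⟩ : ∃ c : ℕ, c = c₀.natAbs := ⟨_, rfl⟩
  rw [← hcdef] at hbc hcpos
  -- the conic
  have hconic : (h * (u : ℤ) ^ 2) * (k * (h * (u : ℤ) ^ 2) + a * D₁)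
      = g * (w - c * D₁) * (w + c * D₁) := by
    have h1 : (k : ℤ) * ((h * (u : ℤ) ^ 2) * (k * (h * (u : ℤ) ^ 2) + a * D₁))
        = (k : ℤ) * (g * (w - c * D₁) * (w + c * D₁)) := by
      unfold qf at hqf
      push_cast at hqf
      rw [hbc] at hqf
      linear_combination hqf
    exact mul_left_cancel₀ (by positivity) h1
  have hUpos : 0 < (h * (u : ℤ) ^ 2) := by positivity
  obtain ⟨U, hU⟩ : ∃ U : ℤ, U = h * (u : ℤ) ^ 2 := ⟨_, rfl⟩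
  rw [← hU] at hconic hUpos ⊢
  have hcopU : IsCoprime U D₁ := by
    have e : (((h * k * u ^ 2 : ℕ)) : ℤ) = U * k := by rw [hU]; push_cast; ring
    rw [e] at hcop
    exact hcop.of_mul_left_left
  obtain ⟨V, hV⟩ : ∃ V : ℤ, V = (w : ℤ) - c * D₁ := ⟨_, rfl⟩
  have hVw : (w : ℤ) + c * D₁ = V + 2 * c * D₁ := by rw [hV]; ring
  rw [← hV, hVw] at hconic
  have hgcd : 0 < Int.gcd V U := Int.gcd_pos_of_ne_zero_right _ hUpos.ne'
  obtain ⟨d, p, q, hd, hpq, hVp, hUq⟩ := Int.exists_gcd_one' hgcd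
  have hd0 : (0 : ℤ) < d := by exact_mod_cast hd
  have hq : 0 < q := by
    rw [hUq] at hUpos
    exact pos_of_mul_pos_left hUpos hd0.le
  have hcopq : IsCoprime p q := Int.isCoprime_iff_gcd_eq_one.2 hpq
  have hlin : D₁ * (a * q - 2 * c * g * p) = d * (g * p ^ 2 - k * q ^ 2) := by
    have h1 : (d : ℤ) * (D₁ * (a * q - 2 * c * g * p)) = (d : ℤ) * (d * (g * p ^ 2 - k * q ^ 2)) := by
      rw [hVp, hUq] at hconic
      linear_combination hconic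
    exact mul_left_cancel₀ hd0.ne' h1
  have hcopd : IsCoprime (d : ℤ) D₁ := by
    rw [hUq] at hcopU
    exact hcopU.of_mul_left_right
  obtain ⟨e, he⟩ : (d : ℤ) ∣ (a * q - 2 * c * g * p) :=
    hcopd.dvd_of_dvd_mul_left ⟨_, hlin⟩
  have heκ : e * D₁ = g * p ^ 2 - k * q ^ 2 := by
    have h1 : (d : ℤ) * (e * D₁) = (d : ℤ) * (g * p ^ 2 - k * q ^ 2) := by
      rw [← hlin, he]
      ring
    exact mul_left_cancel₀ hd0.ne' h1
  have hκ : (g * p ^ 2 - k * q ^ 2 : ℤ) ≠ 0 := by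
    intro h0
    have h1 : ((g * k : ℕ) : ℤ) * p ^ 2 = (k * q) ^ 2 := by
      push_cast
      linear_combination (k : ℤ) * h0
    have hp : p ≠ 0 := by
      rintro rfl
      have h2 : (k * q : ℤ) ^ 2 = 0 := by rw [← h1]; ring
      have h3 : (0 : ℤ) < k * q := mul_pos hk0 hq
      exact absurd h2 (by positivity)
    have h2 : p ∣ k * q := by
      have h3 : p ^ 2 ∣ (k * q : ℤ) ^ 2 := ⟨_, by rw [← h1, mul_comm]⟩
      exact (Int.pow_dvd_pow_iff (by norm_num)).1 h3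
    obtain ⟨r, hr⟩ := h2
    have h3 : ((g * k : ℕ) : ℤ) = r ^ 2 := by
      have h4 : ((g * k : ℕ) : ℤ) * p ^ 2 = r ^ 2 * p ^ 2 := by rw [h1, hr]; ring
      exact mul_right_cancel₀ (pow_ne_zero 2 hp) h4
    apply hns
    refine ⟨r.natAbs, ?_⟩
    have h4 : (((g * k : ℕ) : ℤ)) = ((r.natAbs * r.natAbs : ℕ) : ℤ) := by
      rw [h3, Nat.cast_mul, Int.natCast_natAbs, abs_mul_abs_self, sq]
    exact_mod_cast h4
  have he0 : e ≠ 0 := by
    rintro rfl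
    apply hκ
    rw [← heκ, zero_mul]
  refine ⟨c, p, q, e, hcpos, hbc, hq, hcopq, he0, ?_, ?_, heκ⟩
  · have hel : e ∣ (a * q - 2 * c * g * p) := ⟨d, by rw [he]; ring⟩
    have heκ' : e ∣ (g * p ^ 2 - k * q ^ 2) := ⟨D₁, heκ.symm⟩
    have h1 : e ∣ (g * (a ^ 2 - 4 * b)) * p ^ 2 := by
      have e1 : (g * (a ^ 2 - 4 * b)) * p ^ 2 = a ^ 2 * (g * p ^ 2 - k * q ^ 2)
          + (k * (a * q + 2 * c * g * p)) * (a * q - 2 * c * g * p) := by
        rw [hbc]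
        ring
      rw [e1]
      exact dvd_add (Dvd.dvd.mul_left heκ' _) (Dvd.dvd.mul_left hel _)
    have h2 : e ∣ (g * (a ^ 2 - 4 * b)) * q ^ 2 := by
      have e1 : (g * (a ^ 2 - 4 * b)) * q ^ 2 = (2 * c * g) ^ 2 * (g * p ^ 2 - k * q ^ 2)
          + (g * (a * q + 2 * c * g * p)) * (a * q - 2 * c * g * p) := by
        rw [hbc]
        ring
      rw [e1]
      exact dvd_add (Dvd.dvd.mul_left heκ' _) (Dvd.dvd.mul_left hel _)
    obtain ⟨x, y, hxy⟩ := (IsCoprime.pow hcopq : IsCoprime (p ^ 2) (q ^ 2))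
    have e2 : g * (a ^ 2 - 4 * b) = x * ((g * (a ^ 2 - 4 * b)) * p ^ 2)
        + y * ((g * (a ^ 2 - 4 * b)) * q ^ 2) := by
      linear_combination (-(g * (a ^ 2 - 4 * b))) * hxy
    rw [e2]
    exact dvd_add (Dvd.dvd.mul_left h1 _) (Dvd.dvd.mul_left h2 _)
  · rw [he, hUq]
    ring

end TwT
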