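import Pool.Agent.LibTwT.Defs
import Pool.Agent.LibTwHL.G4

set_option autoImplicit false

namespace TwT

open TwHL

/-- Row W0. `TwHL.gap` in terms of `Sol`: `k₀ = H u u'`. If `H u^2 ≤ H u'^2` and the solutions are
different then `X^3 ≤ 400 b^2 Δ^2 B^4 X'`. (If `gap` gives `X = X'`, `D = D'`, then `u = u'` and
`w = w'` from `m w^2 = m w'^2`, so the solutions agree.) -/
theorem gap_sol {a b m H B : ℤ} (hb : b ≠ 0) (hΔ : a ^ 2 - 4 * b ≠ 0) (hm : 0 < m) (hH : 0 < H)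
    (hB : 1 ≤ B) {z z' : ℤ × ℤ × ℤ} (h : Sol a b m H B z) (h' : Sol a b m H B z')
    (hs : Same a b m H z z') (hne : z ≠ z') (hle : z.1 ≤ z'.1) :
    (H * z.1 ^ 2) ^ 3 ≤ 400 * b ^ 2 * (a ^ 2 - 4 * b) ^ 2 * B ^ 4 * (H * z'.1 ^ 2) := by
  by_contra hlt
  push Not at hlt
  obtain ⟨u, D, w⟩ := z
  obtain ⟨u', D', w'⟩ := z'
  obtain ⟨c, hc⟩ := hs
  have hu := h.u_pos
  have hu' := h'.u_pos
  simp only at hle hlt hc hu hu'
  have hle2 : u ^ 2 ≤ u' ^ 2 := pow_le_pow_left₀ hu.le hle 2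
  have hX : 4 * (|a| + |b| + 1) * B ≤ H * u ^ 2 := by
    have h1 := h.big
    simp only at h1
    have ha := abs_nonneg a
    have hb' := abs_nonneg b
    have h2 : |a| + |b| + 1 ≤ (|a| + |b| + 1) ^ 2 := by nlinarith
    have h3 : (|a| + |b| + 1) * B ≤ (|a| + |b| + 1) ^ 2 * B :=
      mul_le_mul_of_nonneg_right h2 (by linarith)
    calc 4 * (|a| + |b| + 1) * B = 4 * ((|a| + |b| + 1) * B) := by ring
      _ ≤ 4 * ((|a| + |b| + 1) ^ 2 * B) := by linarith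
      _ = 4 * (|a| + |b| + 1) ^ 2 * B := by ring
      _ ≤ H * u ^ 2 := h1
  have hXX : H * u ^ 2 ≤ H * u' ^ 2 := mul_le_mul_of_nonneg_left hle2 hH.le
  have hk : H * u ^ 2 * (H * u' ^ 2) = (H * u * u') ^ 2 := by ring
  obtain ⟨e1, e2⟩ := gap a b m B (H * u ^ 2) D w (H * u' ^ 2) D' w' (H * u * u') c hb hΔ hm
    h.w_pos h'.w_pos hB h.D_le h'.D_le hX hXX h.eq h'.eq hk
    (mul_pos (mul_pos hH hu) hu') hc h.cop h'.cop hlt
  apply hne
  have e3 : u ^ 2 = u' ^ 2 := mul_left_cancel₀ hH.ne' e1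
  have e4 : u = u' := (pow_left_inj₀ hu.le hu'.le two_ne_zero).1 e3
  have e5 : w = w' := by
    have h1 := h.eq
    have h2 := h'.eq
    simp only at h1 h2
    rw [e1, e2, h2] at h1
    have h3 : w' ^ 2 = w ^ 2 := mul_left_cancel₀ hm.ne' h1
    exact ((pow_left_inj₀ h'.w_pos.le h.w_pos.le two_ne_zero).1 h3).symm
  rw [e4, e2, e5]

end TwT
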