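import Pool.Agent.LibTwT.W0
import Pool.Agent.LibTwHL.G5a

set_option autoImplicit false

namespace TwT

open TwHL

/-- Row W3. Middle range of one class: `TwHL.chain` with `c = 2` for the set of the `X = H u^2`
(as natural numbers; `z ↦ H z.1^2` is injective on `F` by `gap_sol` and `hbig`):
`X' ≥ X^3 / (400 b^2 Δ^2 B^4) ≥ X^2`, so `log X' ≥ 2 log X`; `X ≥ 400 > e`. -/
theorem chain_sol {a b m H B : ℤ} (hb : b ≠ 0) (hΔ : a ^ 2 - 4 * b ≠ 0) (hm : 0 < m)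
    (hH : 0 < H) (hB : 1 ≤ B) (R : ℝ) (hR : 1 ≤ R) (F : Finset (ℤ × ℤ × ℤ))
    (hF : ∀ z ∈ F, Sol a b m H B z)
    (hbig : ∀ z ∈ F, 400 * b ^ 2 * (a ^ 2 - 4 * b) ^ 2 * B ^ 4 < H * z.1 ^ 2)
    (hXR : ∀ z ∈ F, Real.log ((H * z.1 ^ 2 : ℤ) : ℝ) ≤ R)
    (hs : ∀ z ∈ F, ∀ z' ∈ F, Same a b m H z z') :
    (F.card : ℝ) ≤ 1 + Real.log R / Real.log 2 := by
  classical
  obtain ⟨P, hP⟩ : ∃ P : ℤ, P = 400 * b ^ 2 * (a ^ 2 - 4 * b) ^ 2 * B ^ 4 := ⟨_, rfl⟩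
  have hP400 : 400 ≤ P := by
    have h1 : 1 ≤ b ^ 2 := by
      have := Int.one_le_abs hb
      have h2 : |b| ^ 2 = b ^ 2 := sq_abs b
      nlinarith
    have h2 : 1 ≤ (a ^ 2 - 4 * b) ^ 2 := by
      have := Int.one_le_abs hΔ
      have h2 : |a ^ 2 - 4 * b| ^ 2 = (a ^ 2 - 4 * b) ^ 2 := sq_abs _
      nlinarith
    have h3 : 1 ≤ B ^ 4 := one_le_pow₀ hB
    have h4 : 1 ≤ b ^ 2 * (a ^ 2 - 4 * b) ^ 2 * B ^ 4 :=
      one_le_mul_of_one_le_of_one_le (one_le_mul_of_one_le_of_one_le h1 h2) h3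
    rw [hP]
    linarith
  have hX : ∀ z ∈ F, P < H * z.1 ^ 2 := by
    intro z hz
    rw [hP]
    exact hbig z hz
  have hgap : ∀ z ∈ F, ∀ z' ∈ F, z ≠ z' → z.1 ≤ z'.1 → (H * z.1 ^ 2) ^ 2 ≤ H * z'.1 ^ 2 := by
    intro z hz z' hz' hne hle
    have h1 := gap_sol hb hΔ hm hH hB (hF z hz) (hF z' hz') (hs z hz z' hz') hne hle
    rw [← hP] at h1
    have h2 := hX z hz
    have h3 := hX z' hz'
    have h4 : (H * z.1 ^ 2) * (H * z.1 ^ 2) ^ 2 ≤ (H * z.1 ^ 2) * (H * z'.1 ^ 2) := by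
      calc (H * z.1 ^ 2) * (H * z.1 ^ 2) ^ 2 = (H * z.1 ^ 2) ^ 3 := by ring
        _ ≤ P * (H * z'.1 ^ 2) := h1
        _ ≤ (H * z.1 ^ 2) * (H * z'.1 ^ 2) := mul_le_mul_of_nonneg_right h2.le (by linarith)
    exact le_of_mul_le_mul_left h4 (by linarith)
  have hlt : ∀ z ∈ F, ∀ z' ∈ F, z ≠ z' → z.1 ≤ z'.1 → H * z.1 ^ 2 < H * z'.1 ^ 2 := by
    intro z hz z' hz' hne hle
    have h1 := hgap z hz z' hz' hne hle
    have h2 := hX z hz
    nlinarith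
  let f : ℤ × ℤ × ℤ → ℕ := fun z => (H * z.1 ^ 2).toNat
  have hfc : ∀ z ∈ F, ((f z : ℕ) : ℤ) = H * z.1 ^ 2 := by
    intro z hz
    have h2 := hX z hz
    exact Int.toNat_of_nonneg (by linarith)
  have hinj : Set.InjOn f F := by
    intro z hz z' hz' hff
    by_contra hne
    have h1 := hfc z hz
    have h2 := hfc z' hz'
    rcases le_total z.1 z'.1 with hle | hle
    · have h3 := hlt z hz z' hz' hne hle
      rw [← h1, ← h2, hff] at h3
      exact lt_irrefl _ h3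
    · have h3 := hlt z' hz' z hz (Ne.symm hne) hle
      rw [← h1, ← h2, hff] at h3
      exact lt_irrefl _ h3
  rw [← Finset.card_image_of_injOn hinj]
  refine chain (F.image f) 2 R (by norm_num) hR ?_ ?_
  · intro x hx
    obtain ⟨z, hz, rfl⟩ := Finset.mem_image.1 hx
    have h1 := hfc z hz
    have h2 : ((f z : ℕ) : ℝ) = ((H * z.1 ^ 2 : ℤ) : ℝ) := by
      rw [← h1]
      norm_cast
    rw [h2]
    refine ⟨?_, hXR z hz⟩
    have h3 : (400 : ℝ) ≤ ((H * z.1 ^ 2 : ℤ) : ℝ) := by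
      have h4 : (400 : ℤ) ≤ H * z.1 ^ 2 := by
        have := hX z hz
        linarith
      exact_mod_cast h4
    rw [← Real.log_exp 1]
    refine Real.log_le_log (Real.exp_pos 1) ?_
    have := Real.exp_one_lt_d9
    linarith
  · intro x hx y hy hxy
    obtain ⟨z, hz, rfl⟩ := Finset.mem_image.1 hx
    obtain ⟨z', hz', rfl⟩ := Finset.mem_image.1 hy
    have h1 := hfc z hz
    have h2 := hfc z' hz'
    have hXX : H * z.1 ^ 2 < H * z'.1 ^ 2 := by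
      rw [← h1, ← h2]
      exact_mod_cast hxy
    have hne : z ≠ z' := by
      rintro rfl
      exact lt_irrefl _ hXX
    have hle : z.1 ≤ z'.1 := by
      have hp := (hF z hz).u_pos
      have hp' := (hF z' hz').u_pos
      have h3 : z.1 ^ 2 < z'.1 ^ 2 := lt_of_mul_lt_mul_left hXX hH.le
      exact (lt_of_pow_lt_pow_left₀ 2 hp'.le h3).le
    have h3 := hgap z hz z' hz' hne hle
    rw [← h1, ← h2] at h3
    have h4 : ((f z : ℕ) : ℝ) ^ 2 ≤ ((f z' : ℕ) : ℝ) := by exact_mod_cast h3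
    have h5 : (0 : ℝ) < ((f z : ℕ) : ℝ) := by
      have h6 : (0 : ℤ) < ((f z : ℕ) : ℤ) := by
        rw [h1]
        have := hX z hz
        linarith
      exact_mod_cast h6
    have h6 := Real.log_le_log (by positivity) h4
    rw [Real.log_pow] at h6
    exact_mod_cast h6

end TwT
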