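import Pool.Agent.LibTwT.W1
import Pool.Agent.LibTwT.W2
import Pool.Agent.LibTwT.W3

set_option autoImplicit false

namespace TwT

open TwHL

/-- Row W4. `z^2 = B k^2 s^4 + K`, `K ≠ 0`, `s` large: `X = B k s^2 = H s^2` with `H = B k`, `a = 0`,
`b = B K`, `m = B`, `D = 1`, `w = z`: `X^2 + B K = B z^2`. `Δ = -4 B K`. `M = |B K|`:
`400 b^2 Δ^2 = 6400 M^4 < s ≤ X` and `4 (|b| + 1)^2 ≤ X`. Map `s ↦ (s, 1, z)`; split `F` into the `s`
with `T^1136 ≤ s` (`class_split` with `n = 3`, `card_le_three`) and the others (`X ≤ T * T^2272`,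
`R = 2273 log T`, `chain_sol`, `class_split` with `n = ⌊1 + log R / log 2⌋`; `log 2273 ≤ 8`,
`1/log 2 ≤ 3/2`, so `n ≤ 1 + 12 + (3/2) log (1 + log T)`); divisors of `2 * 4 M * B`:
at most `8 B M`. -/
theorem t_pairs (T : ℕ) (hT : 20 ≤ T) (B k : ℕ) (K : ℤ) (hB : 0 < B) (hk : 0 < k) (hK : K ≠ 0)
    (hBk : B * k ≤ T) (hBK : B * K.natAbs ≤ T) (F : Finset ℕ)
    (hF : ∀ s ∈ F, 6400 * (B * K.natAbs) ^ 4 < s ∧
      ∃ z : ℤ, z ^ 2 = B * (k : ℤ) ^ 2 * (s : ℤ) ^ 4 + K) :
    (F.card : ℝ) ≤ 8 * (B : ℝ) ^ 2 * |(K : ℝ)| * (20 + 2 * Real.log (1 + Real.log T)) := by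
  classical
  have hBz : (1 : ℤ) ≤ B := by exact_mod_cast hB
  have hkz : (1 : ℤ) ≤ k := by exact_mod_cast hk
  have hK1 : (1 : ℤ) ≤ |K| := Int.one_le_abs hK
  set M : ℤ := (B : ℤ) * |K| with hM
  have hM1 : 1 ≤ M := by nlinarith
  have hMK : |K| ≤ M := by nlinarith
  have hM4 : M ≤ M ^ 4 := le_self_pow₀ hM1 (by norm_num)
  have hsz : ∀ s ∈ F, 6400 * M ^ 4 < (s : ℤ) := by
    intro s hs
    have h1 := (hF s hs).1
    have h2 : ((6400 * (B * K.natAbs) ^ 4 : ℕ) : ℤ) < (s : ℤ) := by exact_mod_cast h1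
    push_cast at h2
    rw [hM]
    exact h2
  have hs1 : ∀ s ∈ F, (1 : ℤ) ≤ (s : ℤ) := by
    intro s hs
    have := hsz s hs
    linarith
  have hzex : ∀ s : ℕ, ∃ z : ℤ, s ∈ F → (0 < z ∧ z ^ 2 = B * (k : ℤ) ^ 2 * (s : ℤ) ^ 4 + K) := by
    intro s
    by_cases hs : s ∈ F
    · obtain ⟨h1, z, hz⟩ := hF s hs
      refine ⟨|z|, fun _ => ⟨?_, ?_⟩⟩
      · rw [abs_pos]
        rintro rfl
        have h2 := hsz s hs
        have h3 := hs1 s hs
        have h4 : (s : ℤ) ≤ (s : ℤ) ^ 4 := le_self_pow₀ h3 (by norm_num)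
        have h5 : (1 : ℤ) ≤ B * (k : ℤ) ^ 2 := by nlinarith
        have h6 : (s : ℤ) ^ 4 ≤ B * (k : ℤ) ^ 2 * (s : ℤ) ^ 4 :=
          le_mul_of_one_le_left (by positivity) h5
        have h7 : -|K| ≤ K := neg_abs_le K
        have h8 : (0 : ℤ) ^ 2 = 0 := by norm_num
        rw [h8] at hz
        linarith
      · rw [sq_abs]
        exact hz
    · exact ⟨0, fun h => absurd h hs⟩
  choose z hz using hzex
  set H : ℤ := (B : ℤ) * k with hH
  have hH1 : 1 ≤ H := by nlinarith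
  set φ : ℕ → ℤ × ℤ × ℤ := fun s => ((s : ℤ), 1, z s) with hφ
  have hφinj : Function.Injective φ := by
    intro s t h
    have := (Prod.mk.inj h).1
    exact_mod_cast this
  have hX : ∀ s ∈ F, 6400 * M ^ 4 < H * (s : ℤ) ^ 2 := by
    intro s hs
    have h2 := hsz s hs
    have h3 := hs1 s hs
    have h4 : (s : ℤ) ≤ (s : ℤ) ^ 2 := le_self_pow₀ h3 (by norm_num)
    have h5 : (s : ℤ) ^ 2 ≤ H * (s : ℤ) ^ 2 := le_mul_of_one_le_left (by positivity) hH1
    linarith
  have hb0 : (B : ℤ) * K ≠ 0 := mul_ne_zero (by linarith) hK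
  have hbabs : |(B : ℤ) * K| = M := by
    rw [abs_mul, Nat.abs_cast]
  have hΔ0 : (0 : ℤ) ^ 2 - 4 * (B * K) ≠ 0 := by
    intro h
    apply hb0
    linarith
  have hbsq : ((B : ℤ) * K) ^ 2 = M ^ 2 := by rw [← hbabs, sq_abs]
  have hΔsq : ((0 : ℤ) ^ 2 - 4 * (B * K)) ^ 2 = 16 * M ^ 2 := by
    rw [← hbsq]
    ring
  have hM2 : M ^ 2 ≤ M ^ 4 := pow_le_pow_right₀ hM1 (by norm_num)
  have hsol : ∀ s ∈ F, Sol 0 (B * K) B H 1 (φ s) := by
    intro s hs
    obtain ⟨hz0, hz1⟩ := hz s hs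
    refine ⟨?_, hz0, one_ne_zero, ?_, isCoprime_one_right, ?_, ?_⟩
    · exact hs1 s hs
    · simp [hφ]
    · show qf 0 (B * K) (H * (s : ℤ) ^ 2) 1 = B * (z s) ^ 2
      rw [hz1, qf, hH]
      ring
    · show 4 * (|(0 : ℤ)| + |(B : ℤ) * K| + 1) ^ 2 * 1 ≤ H * (s : ℤ) ^ 2
      rw [hbabs, abs_zero]
      have := hX s hs
      nlinarith
  -- divisors
  have hdiv : ((Nat.divisors (2 * ((0 : ℤ) ^ 2 - 4 * (B * K)) * B).natAbs).card : ℝ) ≤
      8 * (B : ℝ) ^ 2 * |(K : ℝ)| := by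
    have h1 : (2 * ((0 : ℤ) ^ 2 - 4 * (B * K)) * B).natAbs = 8 * B ^ 2 * K.natAbs := by
      have : (2 * ((0 : ℤ) ^ 2 - 4 * (B * K)) * B) = -((8 * (B : ℤ) ^ 2) * K) := by ring
      rw [this, Int.natAbs_neg, Int.natAbs_mul]
      congr 1
    have h2 := Nat.card_divisors_le_self (8 * B ^ 2 * K.natAbs)
    rw [h1]
    calc ((Nat.divisors (8 * B ^ 2 * K.natAbs)).card : ℝ) ≤ ((8 * B ^ 2 * K.natAbs : ℕ) : ℝ) := by
          exact_mod_cast h2
      _ = 8 * (B : ℝ) ^ 2 * |(K : ℝ)| := by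
          push_cast
          rw [Nat.cast_natAbs]
          push_cast
          ring
  have hD0 : 0 ≤ 8 * (B : ℝ) ^ 2 * |(K : ℝ)| := by positivity
  -- the two parts
  set F1 := F.filter (fun s => T ^ 1136 ≤ s) with hF1
  set F2 := F.filter (fun s => ¬ T ^ 1136 ≤ s) with hF2
  have hcard : F.card = F1.card + F2.card := by
    rw [hF1, hF2]
    exact (Finset.card_filter_add_card_filter_not (s := F) (fun s => T ^ 1136 ≤ s)).symm
  have hTz : (20 : ℤ) ≤ T := by exact_mod_cast hT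
  have hc1 : (F1.card : ℝ) ≤ 3 * (8 * (B : ℝ) ^ 2 * |(K : ℝ)|) := by
    have h1 : (F1.image φ).card = F1.card := Finset.card_image_of_injective _ hφinj
    have hsol1 : ∀ y ∈ F1.image φ, Sol 0 (B * K) B H 1 y := by
      intro y hy
      obtain ⟨s, hs, rfl⟩ := Finset.mem_image.1 hy
      exact hsol s (Finset.mem_filter.1 hs).1
    have h2 := class_split (a := 0) (b := B * K) (m := B) (H := H) (B := 1) hb0 hΔ0
      (by linarith) (by linarith) le_rfl (F1.image φ) hsol1 3 (by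
        intro F' hF' hs
        apply card_le_three T hT (a := 0) (b := B * K) (m := B) (H := H) (B := 1)
          (by rw [abs_zero]; positivity) ?_ ?_ (by linarith) hb0 hΔ0 (by linarith)
          (by linarith) le_rfl F' (fun y hy => hsol1 y (hF' hy)) ?_ hs
        · rw [hbabs, hM]
          have : ((B * K.natAbs : ℕ) : ℤ) ≤ T := by exact_mod_cast hBK
          push_cast at this
          exact this
        · rw [hH]
          exact_mod_cast hBk
        · intro y hy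
          obtain ⟨s, hs', rfl⟩ := Finset.mem_image.1 (hF' hy)
          have := (Finset.mem_filter.1 hs').2
          show (T : ℤ) ^ 1136 ≤ (s : ℤ)
          exact_mod_cast this)
    rw [h1] at h2
    calc (F1.card : ℝ) ≤ ((3 * (Nat.divisors (2 * ((0 : ℤ) ^ 2 - 4 * (B * K)) * B).natAbs).card :
          ℕ) : ℝ) := by exact_mod_cast h2
      _ = 3 * ((Nat.divisors (2 * ((0 : ℤ) ^ 2 - 4 * (B * K)) * B).natAbs).card : ℝ) := by
          push_cast
          ring
      _ ≤ _ := by gcongr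
  have hTr : (20 : ℝ) ≤ T := by exact_mod_cast hT
  have hT0 : (0 : ℝ) < T := by linarith
  have hlogT : 1 ≤ Real.log T := by
    rw [Real.le_log_iff_exp_le hT0]
    have := Real.exp_one_lt_d9
    linarith
  set R : ℝ := 2273 * Real.log T with hR
  have hR1 : 1 ≤ R := by rw [hR]; linarith
  set n : ℕ := ⌊1 + Real.log R / Real.log 2⌋₊ with hn
  have hlog2 : (2 : ℝ) / 3 < Real.log 2 := by
    have := Real.log_two_gt_d9
    linarith
  have hlogR0 : 0 ≤ Real.log R := Real.log_nonneg hR1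
  have hnle : (n : ℝ) ≤ 1 + Real.log R / Real.log 2 :=
    Nat.floor_le (by positivity)
  have hlogR : Real.log R ≤ 8 + Real.log (1 + Real.log T) := by
    rw [hR, Real.log_mul (by norm_num) (by linarith)]
    have h1 : Real.log 2273 ≤ 8 := by
      rw [Real.log_le_iff_le_exp (by norm_num)]
      have h2 : Real.exp 8 = Real.exp 1 ^ 8 := by
        rw [← Real.exp_nat_mul]
        norm_num
      rw [h2]
      have h3 := Real.exp_one_gt_d9
      calc (2273 : ℝ) ≤ 2.7182818283 ^ 8 := by norm_num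
        _ ≤ Real.exp 1 ^ 8 := by
          apply pow_le_pow_left₀ (by norm_num) h3.le
    have h2 : Real.log (Real.log T) ≤ Real.log (1 + Real.log T) :=
      Real.log_le_log (by linarith) (by linarith)
    linarith
  have hL0 : 0 ≤ Real.log (1 + Real.log T) := Real.log_nonneg (by linarith)
  have hn2 : (n : ℝ) ≤ 13 + 3 / 2 * Real.log (1 + Real.log T) := by
    have h1 : Real.log R / Real.log 2 ≤ (8 + Real.log (1 + Real.log T)) * (3 / 2) := by
      rw [div_le_iff₀ (by linarith)]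
      have h2 : 1 ≤ 3 / 2 * Real.log 2 := by linarith
      calc Real.log R ≤ (8 + Real.log (1 + Real.log T)) * 1 := by linarith
        _ ≤ (8 + Real.log (1 + Real.log T)) * (3 / 2 * Real.log 2) := by gcongr
        _ = _ := by ring
    linarith
  have hc2 : (F2.card : ℝ) ≤ n * (8 * (B : ℝ) ^ 2 * |(K : ℝ)|) := by
    have h1 : (F2.image φ).card = F2.card := Finset.card_image_of_injective _ hφinj
    have hsol1 : ∀ y ∈ F2.image φ, Sol 0 (B * K) B H 1 y := by
      intro y hy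
      obtain ⟨s, hs, rfl⟩ := Finset.mem_image.1 hy
      exact hsol s (Finset.mem_filter.1 hs).1
    have h2 := class_split (a := 0) (b := B * K) (m := B) (H := H) (B := 1) hb0 hΔ0
      (by linarith) (by linarith) le_rfl (F2.image φ) hsol1 n (by
        intro F' hF' hs
        rw [hn]
        apply Nat.le_floor
        apply chain_sol (a := 0) (b := B * K) (m := B) (H := H) (B := 1) hb0 hΔ0 (by linarith)
          (by linarith) le_rfl R hR1 F' (fun y hy => hsol1 y (hF' hy)) ?_ ?_ hs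
        · intro y hy
          obtain ⟨s, hs', rfl⟩ := Finset.mem_image.1 (hF' hy)
          have h3 := hX s (Finset.mem_filter.1 hs').1
          show 400 * ((B : ℤ) * K) ^ 2 * (0 ^ 2 - 4 * (B * K)) ^ 2 * 1 ^ 4 < H * (s : ℤ) ^ 2
          rw [hbsq, hΔsq]
          calc 400 * M ^ 2 * (16 * M ^ 2) * 1 ^ 4 = 6400 * M ^ 4 := by ring
            _ < _ := h3
        · intro y hy
          obtain ⟨s, hs', rfl⟩ := Finset.mem_image.1 (hF' hy)
          have h3 := (Finset.mem_filter.1 hs').2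
          have h4 := hs1 s (Finset.mem_filter.1 hs').1
          have h5 : s ≤ T ^ 1136 := (not_le.1 h3).le
          show Real.log ((H * (s : ℤ) ^ 2 : ℤ) : ℝ) ≤ R
          have h6 : H * (s : ℤ) ^ 2 ≤ T * ((T : ℤ) ^ 1136) ^ 2 := by
            have h7 : H ≤ T := by rw [hH]; exact_mod_cast hBk
            have h8 : (s : ℤ) ≤ (T : ℤ) ^ 1136 := by exact_mod_cast h5
            gcongr
          have h9 : ((H * (s : ℤ) ^ 2 : ℤ) : ℝ) ≤ (T : ℝ) ^ 2273 := by
            have h10 : ((H * (s : ℤ) ^ 2 : ℤ) : ℝ) ≤ ((T * ((T : ℤ) ^ 1136) ^ 2 : ℤ) : ℝ) :=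
              Int.cast_le.2 h6
            refine h10.trans_eq ?_
            rw [Int.cast_mul, Int.cast_pow, Int.cast_pow, Int.cast_natCast, ← pow_mul, ← pow_succ']
          have h11 : (0 : ℝ) < ((H * (s : ℤ) ^ 2 : ℤ) : ℝ) := by
            have : 0 < H * (s : ℤ) ^ 2 := by positivity
            exact_mod_cast this
          calc Real.log ((H * (s : ℤ) ^ 2 : ℤ) : ℝ) ≤ Real.log ((T : ℝ) ^ 2273) :=
                Real.log_le_log h11 h9
            _ = R := by
                rw [Real.log_pow, hR]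
                norm_num)
    rw [h1] at h2
    calc (F2.card : ℝ) ≤ ((n * (Nat.divisors (2 * ((0 : ℤ) ^ 2 - 4 * (B * K)) * B).natAbs).card :
          ℕ) : ℝ) := by exact_mod_cast h2
      _ = n * ((Nat.divisors (2 * ((0 : ℤ) ^ 2 - 4 * (B * K)) * B).natAbs).card : ℝ) := by
          push_cast
          ring
      _ ≤ _ := by gcongr
  have hfin : (F.card : ℝ) = F1.card + F2.card := by exact_mod_cast hcard
  rw [hfin]
  calc (F1.card : ℝ) + F2.card ≤ 3 * (8 * (B : ℝ) ^ 2 * |(K : ℝ)|) +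
        n * (8 * (B : ℝ) ^ 2 * |(K : ℝ)|) := add_le_add hc1 hc2
    _ = (8 * (B : ℝ) ^ 2 * |(K : ℝ)|) * (3 + n) := by ring
    _ ≤ (8 * (B : ℝ) ^ 2 * |(K : ℝ)|) * (20 + 2 * Real.log (1 + Real.log T)) := by
        apply mul_le_mul_of_nonneg_left _ hD0
        linarith

end TwT
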