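import Pool.Agent.LibTwT.W4

set_option autoImplicit false

namespace TwT

/-- Row W5. Pairs `(z, l)` with `|l| = k s^2`, `k ≤ K₀`, `s` large, `z^2 - B l^2` small. For each `k`, each
`K` with `0 < |K| ≤ A` the number of `s` is bounded by `t_pairs` (`|K| ≤ A`), and `(z, l)` is determined
by `(k, K, s)` up to two signs: `card ≤ 4 * K₀ * (2A) * 8 B^2 A (20 + ...)`. -/
theorem t_count (T : ℕ) (hT : 20 ≤ T) (B K₀ A : ℕ) (hB : 0 < B) (hBk : B * K₀ ≤ T)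
    (hBK : B * A ≤ T) (S : Finset (ℤ × ℤ))
    (hS : ∀ x ∈ S, ∃ k s : ℕ, 0 < k ∧ k ≤ K₀ ∧ 6400 * (B * A) ^ 4 < s ∧ |x.2| = k * (s : ℤ) ^ 2 ∧
      x.1 ^ 2 - B * x.2 ^ 2 ≠ 0 ∧ |x.1 ^ 2 - B * x.2 ^ 2| ≤ A) :
    (S.card : ℝ) ≤ 64 * (B : ℝ) ^ 2 * K₀ * (A : ℝ) ^ 2 * (20 + 2 * Real.log (1 + Real.log T)) := by
  classical
  obtain ⟨Q, hQ⟩ : ∃ Q : ℝ, Q = 20 + 2 * Real.log (1 + Real.log T) := ⟨_, rfl⟩
  have hQ0 : 0 ≤ Q := by
    have hT1 : (1 : ℝ) ≤ (T : ℝ) := by exact_mod_cast (by omega : 1 ≤ T)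
    have h1 : 0 ≤ Real.log T := Real.log_nonneg hT1
    have h2 : 0 ≤ Real.log (1 + Real.log T) := Real.log_nonneg (by linarith)
    rw [hQ]
    linarith
  rw [← hQ]
  have hex : ∀ x : ℤ × ℤ, ∃ k s : ℕ, x ∈ S → (0 < k ∧ k ≤ K₀ ∧ 6400 * (B * A) ^ 4 < s ∧
      |x.2| = k * (s : ℤ) ^ 2 ∧
      x.1 ^ 2 - B * x.2 ^ 2 ≠ 0 ∧ |x.1 ^ 2 - B * x.2 ^ 2| ≤ A) := by
    intro x
    by_cases hx : x ∈ S
    · obtain ⟨k, s, h⟩ := hS x hx
      exact ⟨k, s, fun _ => h⟩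
    · exact ⟨0, 0, fun h => absurd h hx⟩
  choose kk ss hks using hex
  let φ : ℤ × ℤ → ℕ × ℤ := fun x => (kk x, x.1 ^ 2 - B * x.2 ^ 2)
  let I : Finset (ℕ × ℤ) := (Finset.Icc 1 K₀) ×ˢ ((Finset.Icc (-(A : ℤ)) A).erase 0)
  have hmaps : Set.MapsTo φ (S : Set (ℤ × ℤ)) (I : Set (ℕ × ℤ)) := by
    intro x hx
    obtain ⟨h1, h2, _, _, h5, h6⟩ := hks x hx
    refine Finset.mem_coe.2 (Finset.mem_product.2 ⟨Finset.mem_Icc.2 ⟨h1, h2⟩, ?_⟩)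
    refine Finset.mem_erase.2 ⟨h5, Finset.mem_Icc.2 (abs_le.1 h6)⟩
  have hfib : ∀ y ∈ I, (((S.filter (fun x => φ x = y)).card : ℕ) : ℝ)
      ≤ 4 * (8 * (B : ℝ) ^ 2 * A * Q) := by
    intro y hy
    obtain ⟨k, K⟩ := y
    obtain ⟨hk, hK⟩ := Finset.mem_product.1 hy
    have hk1 : 1 ≤ k := (Finset.mem_Icc.1 hk).1
    have hk2 : k ≤ K₀ := (Finset.mem_Icc.1 hk).2
    have hK0 : K ≠ 0 := (Finset.mem_erase.1 hK).1
    have hKA : |K| ≤ A := abs_le.2 (Finset.mem_Icc.1 (Finset.mem_erase.1 hK).2)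
    have hKA' : K.natAbs ≤ A := by
      have : ((K.natAbs : ℕ) : ℤ) ≤ A := by rw [Int.natCast_natAbs]; exact hKA
      exact_mod_cast this
    set G := S.filter (fun x => φ x = (k, K)) with hG
    have hGmem : ∀ x ∈ G, x ∈ S ∧ kk x = k ∧ x.1 ^ 2 - B * x.2 ^ 2 = K := by
      intro x hx
      obtain ⟨h1, h2⟩ := Finset.mem_filter.1 hx
      have h3 := Prod.ext_iff.1 h2
      exact ⟨h1, h3.1, h3.2⟩
    have hc1 : G.card ≤ 4 * (G.image ss).card := by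
      refine Finset.card_le_mul_card_image G 4 ?_
      intro s hs
      obtain ⟨x₀, hx₀, hs₀⟩ := Finset.mem_image.1 hs
      have hsub : G.filter (fun x => ss x = s) ⊆
          {(x₀.1, x₀.2), (-x₀.1, x₀.2), (x₀.1, -x₀.2), (-x₀.1, -x₀.2)} := by
        intro x hx
        obtain ⟨hxG, hxs⟩ := Finset.mem_filter.1 hx
        obtain ⟨hxS, hxk, hxK⟩ := hGmem x hxG
        obtain ⟨hx0S, hx0k, hx0K⟩ := hGmem x₀ hx₀
        have e1 := (hks x hxS).2.2.2.1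
        have e2 := (hks x₀ hx0S).2.2.2.1
        rw [hxk, hxs] at e1
        rw [hx0k, hs₀] at e2
        have e3 : |x.2| = |x₀.2| := by rw [e1, e2]
        have e4 : x.2 ^ 2 = x₀.2 ^ 2 := by rw [← sq_abs, e3, sq_abs]
        have e5 : x.1 ^ 2 = x₀.1 ^ 2 := by
          have := hxK.trans hx0K.symm
          rw [e4] at this
          linarith
        have e6 := abs_eq_abs.1 e3
        have e7 := sq_eq_sq_iff_eq_or_eq_neg.1 e5
        obtain ⟨z, l⟩ := x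
        simp only at e6 e7
        rcases e6 with e6 | e6 <;> rcases e7 with e7 | e7 <;> subst e6 <;> subst e7 <;> simp
      exact (Finset.card_le_card hsub).trans Finset.card_le_four
    have hc2 := t_pairs T hT B k K hB hk1 hK0
      ((Nat.mul_le_mul_left B hk2).trans hBk) ((Nat.mul_le_mul_left B hKA').trans hBK)
      (G.image ss) (by
        intro s hs
        obtain ⟨x, hx, rfl⟩ := Finset.mem_image.1 hs
        obtain ⟨hxS, hxk, hxK⟩ := hGmem x hx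
        obtain ⟨_, _, h3, h4, _, _⟩ := hks x hxS
        refine ⟨lt_of_le_of_lt ?_ h3, x.1, ?_⟩
        · exact Nat.mul_le_mul_left _ (Nat.pow_le_pow_left (Nat.mul_le_mul_left _ hKA') 4)
        · rw [hxk] at h4
          have h5 : x.2 ^ 2 = ((k : ℤ) * (ss x : ℤ) ^ 2) ^ 2 := by rw [← h4, sq_abs]
          rw [← hxK, h5]
          ring)
    rw [← hQ] at hc2
    have hc3 : ((G.card : ℕ) : ℝ) ≤ 4 * (((G.image ss).card : ℕ) : ℝ) := by exact_mod_cast hc1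
    have hKr : |(K : ℝ)| ≤ A := by exact_mod_cast hKA
    calc ((G.card : ℕ) : ℝ) ≤ 4 * (((G.image ss).card : ℕ) : ℝ) := hc3
      _ ≤ 4 * (8 * (B : ℝ) ^ 2 * |(K : ℝ)| * Q) := by linarith
      _ ≤ 4 * (8 * (B : ℝ) ^ 2 * A * Q) := by gcongr
  have hIcard : ((I.card : ℕ) : ℝ) = K₀ * (2 * A) := by
    have h0 : (0 : ℤ) ∈ Finset.Icc (-(A : ℤ)) A := Finset.mem_Icc.2 ⟨by omega, by omega⟩
    rw [Finset.card_product, Nat.card_Icc, Finset.card_erase_of_mem h0, Int.card_Icc]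
    have h1 : ((A : ℤ) + 1 - -(A : ℤ)).toNat - 1 = 2 * A := by omega
    rw [h1]
    push_cast
    simp
  rw [Finset.card_eq_sum_card_fiberwise hmaps]
  push_cast
  calc ∑ y ∈ I, (((S.filter (fun x => φ x = y)).card : ℕ) : ℝ)
      ≤ ∑ y ∈ I, 4 * (8 * (B : ℝ) ^ 2 * A * Q) := Finset.sum_le_sum hfib
    _ = K₀ * (2 * A) * (4 * (8 * (B : ℝ) ^ 2 * A * Q)) := by
        rw [Finset.sum_const, nsmul_eq_mul, hIcard]
    _ = 64 * (B : ℝ) ^ 2 * K₀ * (A : ℝ) ^ 2 * Q := by ring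

end TwT
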